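import Pool.Agent.Lib.TAO.Defs
import Pool.Agent.Lib.ALLY.Defs

/-!
# PROJECT ALL: common definitions, values in a linearly ordered field `𝕂` (port of Lib/ALL/Defs)

Frames with `D` free parameters of a real valuation `v` of a big field `Ω`, refinements, monomials,
content and order, integral closures localised at the centre, the decomposition group of the
centre, and the statements of the induction.  Everything happens in one big field `Ω`.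
-/

set_option autoImplicit false

namespace Pool.Agent.ALLO

open Pool.Agent.TAO (OVal VPos Ctx0 CtxR)
open Pool.Agent.LU1 (FracIs fixO)

universe u w

section

variable {k Ω : Type u} [Field k] [Field Ω] [Algebra k Ω]
  {𝕂 : Type w} [Field 𝕂] [LinearOrder 𝕂] [IsStrictOrderedRing 𝕂]

/-- The quotients `a / b` with `a, b ∈ S`, `v b = 0`. -/
def locv (v : OVal 𝕂 Ω) (S : Subalgebra k Ω) : Subalgebra k Ω where
  carrier := {f | ∃ a ∈ S, ∃ b ∈ S, b ≠ 0 ∧ v b = 0 ∧ f = a / b}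
  mul_mem' := by
    rintro f g ⟨a, ha, b, hb, hb0, hvb, rfl⟩ ⟨c, hc, d, hd, hd0, hvd, rfl⟩
    refine ⟨a * c, S.mul_mem ha hc, b * d, S.mul_mem hb hd, mul_ne_zero hb0 hd0, ?_, ?_⟩
    · rw [v.map_mul hb0 hd0, hvb, hvd, add_zero]
    · rw [div_mul_div_comm]
  add_mem' := by
    rintro f g ⟨a, ha, b, hb, hb0, hvb, rfl⟩ ⟨c, hc, d, hd, hd0, hvd, rfl⟩
    refine ⟨a * d + b * c, S.add_mem (S.mul_mem ha hd) (S.mul_mem hb hc), b * d,
      S.mul_mem hb hd, mul_ne_zero hb0 hd0, ?_, ?_⟩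
    · rw [v.map_mul hb0 hd0, hvb, hvd, add_zero]
    · rw [div_add_div _ _ hb0 hd0]
  algebraMap_mem' := by
    intro c
    exact ⟨algebraMap k Ω c, S.algebraMap_mem c, 1, S.one_mem, one_ne_zero, v.map_one, by
      rw [div_one]⟩

/-! ## Frames -/

/-- A frame with `D` free parameters. `χ` matters only on `Γ`. (`LU1.BF` is the case `D = 1`.) -/
structure FR (k : Type u) {Ω : Type u} [Field k] [Field Ω] [Algebra k Ω] {𝕂 : Type w} [Field 𝕂]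
    [LinearOrder 𝕂] [IsStrictOrderedRing 𝕂] (v : OVal 𝕂 Ω) (D : ℕ) where
  /-- the group of exponents -/
  Γ : AddSubgroup 𝕂
  fg : Γ.FG
  full : ∀ g : Ω, g ≠ 0 → ∃ m : ℕ, 0 < m ∧ (m : 𝕂) * v g ∈ Γ
  /-- the monomials -/
  χ : 𝕂 → Ω
  χ_ne : ∀ γ ∈ Γ, χ γ ≠ 0
  χ_add : ∀ γ ∈ Γ, ∀ δ ∈ Γ, χ (γ + δ) = χ γ * χ δ
  χ_val : ∀ γ ∈ Γ, v (χ γ) = γ
  /-- the free parameters -/
  y : Fin D → Ω
  y_ne : ∀ i, y i ≠ 0
  y_pos : ∀ i, 0 < v (y i)
  /-- the ring -/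
  R : Subalgebra k Ω
  nonneg : ∀ f ∈ R, v.Ge 0 f
  loc : ∀ f ∈ R, f ≠ 0 → v f = 0 → f⁻¹ ∈ R
  χ_mem : ∀ γ ∈ Γ, 0 ≤ γ → χ γ ∈ R
  y_mem : ∀ i, y i ∈ R
  fgen : ∃ F : Finset Ω, R = locv v (Algebra.adjoin k ((F : Set Ω) ∪ χ '' {γ | γ ∈ Γ ∧ 0 ≤ γ}))
  gen : ∀ f ∈ R, VPos v f → ∃ γ ∈ Γ, 0 < γ ∧ ∃ a ∈ R, ∃ b : Fin D → Ω, (∀ i, b i ∈ R) ∧
    f = χ γ * a + ∑ i, y i * b i
  alg : ∀ g : Ω, IsAlgebraic R g

variable {v : OVal 𝕂 Ω} {D : ℕ}

/-- The frame is rational: its ring is the localisation of `k[χ(Γ ≥ 0), y]`. -/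
def FR.Rat (F : FR k v D) : Prop :=
  F.R = locv v (Algebra.adjoin k (F.χ '' {γ | γ ∈ F.Γ ∧ 0 ≤ γ} ∪ Set.range F.y))

/-- `f` is a unit of `F.R`. -/
def FR.Un (F : FR k v D) (f : Ω) : Prop := f ∈ F.R ∧ f ≠ 0 ∧ v f = 0

/-- `f` is a monomial times a unit. -/
def FR.Mono (F : FR k v D) (f : Ω) : Prop := f ≠ 0 ∧ v f ∈ F.Γ ∧ F.Un (f / F.χ (v f))

/-- `F'` is a refinement of `F` (of the same field). -/
structure FR.Le (F F' : FR k v D) : Prop where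
  le : F.R ≤ F'.R
  Γ_le : ∀ γ ∈ F.Γ, γ ∈ F'.Γ
  χ_un : ∀ γ ∈ F.Γ, F'.Un (F.χ γ / F'.χ γ)
  den : ∀ f ∈ F'.R, ∃ a ∈ F.R, ∃ b ∈ F.R, F'.Mono b ∧ f = a / b

/-- `F₁` has the same parameters as `F` and a bigger ring. -/
structure FR.Same (F F₁ : FR k v D) : Prop where
  Γ_eq : F₁.Γ = F.Γ
  χ_eq : ∀ γ ∈ F.Γ, F₁.χ γ = F.χ γ
  y_eq : F₁.y = F.y
  le : F.R ≤ F₁.R

/-- `(y)^M R`, as a `k`-subspace of `Ω`. -/
def FR.YI (F : FR k v D) (M : ℕ) : Submodule k Ω :=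
  Submodule.span k (Set.range F.y) ^ M * F.R.toSubmodule

/-- `f = χ(κ) (P(y) + e + χ(γ) a)`, `P ≠ 0` a form of degree `M` over `k`, `e ∈ (y)^(M+1) R`,
`γ > 0`, `a ∈ R`: the content of `f` is `κ`, its order `M`. -/
def FR.Ord (F : FR k v D) (f : Ω) (κ : 𝕂) (M : ℕ) : Prop :=
  κ ∈ F.Γ ∧ ∃ P : MvPolynomial (Fin D) k, P.IsHomogeneous M ∧ P ≠ 0 ∧
    ∃ e ∈ F.YI (M + 1), ∃ γ ∈ F.Γ, 0 < γ ∧ ∃ a ∈ F.R,
      f = F.χ κ * (MvPolynomial.aeval F.y P + e + F.χ γ * a)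

/-- A derivation of `E` which is a `k`-linear combination of the logarithmic derivations dual to
`dlog χ, dy`. -/
def FR.LogD (F : FR k v D) {E : IntermediateField k Ω} (d : Derivation k E E) : Prop :=
  (∀ γ ∈ F.Γ, ∃ c : k, ∀ e : E, (e : Ω) = F.χ γ → (d e : Ω) = algebraMap k Ω c * F.χ γ) ∧
  ∀ j, ∃ c : k, ∀ e : E, (e : Ω) = F.y j → (d e : Ω) = algebraMap k Ω c

/-! ## Integral closures localised at the centre -/

/-- The elements of `E` integral over `R`. -/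
def icl (R : Subalgebra k Ω) (E : IntermediateField k Ω) : Subalgebra k Ω where
  carrier := {a | a ∈ E ∧ IsIntegral R a}
  mul_mem' := fun ha hb => ⟨mul_mem ha.1 hb.1, ha.2.mul hb.2⟩
  add_mem' := fun ha hb => ⟨add_mem ha.1 hb.1, ha.2.add hb.2⟩
  algebraMap_mem' := fun c => ⟨E.algebraMap_mem c, by
    have h : algebraMap k Ω c = algebraMap R Ω (algebraMap k R c) := by
      rw [← IsScalarTower.algebraMap_apply]
    rw [h]
    exact isIntegral_algebraMap⟩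

/-- The localisation at the centre of `v` of the integral closure of `R` in `E`. -/
def ICl (v : OVal 𝕂 Ω) (R : Subalgebra k Ω) (E : IntermediateField k Ω) : Subalgebra k Ω :=
  locv v (icl R E)

/-- `f = χ(v f) u`, `u` a unit of `S`. -/
def FR.MonoIn (F : FR k v D) (S : Subalgebra k Ω) (f : Ω) : Prop :=
  f ≠ 0 ∧ v f ∈ F.Γ ∧ f / F.χ (v f) ∈ S

/-- The decomposition group of the centre of `v` on the integral closure of `R` in `N`. -/
def decP (v : OVal 𝕂 Ω) (R : Subalgebra k Ω) (K : IntermediateField k Ω)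
    (N : IntermediateField K Ω) : Subgroup (N ≃ₐ[K] N) where
  carrier := {σ | ∀ a : N, IsIntegral R (a : Ω) → IsIntegral R (σ a : Ω) ∧
    IsIntegral R (σ⁻¹ a : Ω) ∧ (VPos v (a : Ω) ↔ VPos v (σ a : Ω))}
  mul_mem' := by
    intro σ τ hσ hτ a ha
    refine ⟨?_, ?_, ?_⟩
    · rw [AlgEquiv.mul_apply]
      exact (hσ _ (hτ a ha).1).1
    · rw [mul_inv_rev, AlgEquiv.mul_apply]
      exact (hτ _ (hσ a ha).2.1).2.1
    · rw [AlgEquiv.mul_apply]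
      exact (hτ a ha).2.2.trans (hσ _ (hτ a ha).1).2.2
  one_mem' := fun a ha => ⟨ha, by rw [inv_one]; exact ha, Iff.rfl⟩
  inv_mem' := by
    intro σ hσ a ha
    refine ⟨(hσ a ha).2.1, ?_, ?_⟩
    · rw [inv_inv]
      exact (hσ a ha).1
    · have h := (hσ _ (hσ a ha).2.1).2.2
      rw [← AlgEquiv.mul_apply, mul_inv_cancel, AlgEquiv.one_apply] at h
      exact h.symm

/-! ## Output of the blocks 1 - 4 -/

/-- What sections 1 - 4 give for a finite set `Z` of generators of `E`: `F` is a rational frame of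
`K ≤ E`, `N / K` a finite Galois extension containing `E = N^H`. -/
structure XD (v : OVal 𝕂 Ω) {D : ℕ} (p : ℕ) (E : IntermediateField k Ω) (Z : Finset Ω)
    (F : FR k v D) (K : IntermediateField k Ω) (N : IntermediateField K Ω)
    (H : Subgroup (N ≃ₐ[K] N)) (Q Q' : Ω) : Prop where
  rat : F.Rat
  frac : FracIs F.R K
  le : K ≤ E
  fix : fixO K N H = E
  /-- (X1) -/
  idx : H.relIndex (decP v F.R K N) < p
  /-- (X2) -/
  mono : ∀ z ∈ Z, F.MonoIn (ICl v F.R E) z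
  /-- (X2') -/
  den : ∀ f ∈ ICl v F.R E, ∃ a ∈ Algebra.adjoin k (Z : Set Ω), ∃ b ∈ Algebra.adjoin k (Z : Set Ω),
    F.MonoIn (ICl v F.R E) b ∧ f = a / b
  Q_mem : Q ∈ E
  Q_ne : Q ≠ 0
  Q_int : ∃ γ ∈ F.Γ, F.χ γ * Q ∈ ICl v F.R E
  /-- (X3) -/
  der : ∀ d : Derivation k E E, F.LogD d → ∀ f : E, (f : Ω) ∈ ICl v F.R E →
    ∃ γ ∈ F.Γ, F.χ γ * (Q * (d f : Ω)) ∈ ICl v F.R E
  Q'_mem : Q' ∈ N
  Q'_ne : Q' ≠ 0
  Q'_int : ∃ γ ∈ F.Γ, F.χ γ * Q' ∈ ICl v F.R (N.restrictScalars k)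
  /-- (X4) -/
  ord : ∃ F₁ : FR k v D, F.Same F₁ ∧ F₁.R ≤ ICl v F.R (N.restrictScalars k) ∧
    ∃ κ, ∃ M < p, F₁.Ord (Q * Q') κ M

/-! ## Link with the rational data `ALLY.RD` of block Y -/

/-- The rational data of a frame. -/
def FR.rd (F : FR k v D) : ALLY.RD k v D where
  Γ := F.Γ
  fg := F.fg
  full := F.full
  χ := F.χ
  χ_ne := F.χ_ne
  χ_add := F.χ_add
  χ_val := F.χ_val
  y := F.y
  y_ne := F.y_ne
  y_pos := F.y_pos

/-- `R` is a local ring of an etale extension of `R0 = locv k[χ(Γ ≥ 0), y]` with residue field `k`: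
the localisation at the centre of `v` of `R0[θ]`, `θ` a simple root of a monic polynomial. -/
def Et (v : OVal 𝕂 Ω) {D : ℕ} (S : ALLY.RD k v D) (R : Subalgebra k Ω) : Prop :=
  ∃ (θ : Ω) (g : Polynomial Ω), g.Monic ∧ (∀ i, g.coeff i ∈ locv v S.P) ∧ g.eval θ = 0 ∧
    g.derivative.eval θ ≠ 0 ∧ v (g.derivative.eval θ) = 0 ∧
    R = locv v (Algebra.adjoin k ((locv v S.P : Set Ω) ∪ {θ}))

/-! ## The statements of the induction -/

/-- Embedded local uniformization of `E`, with control of the denominators. -/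
def Emb (v : OVal 𝕂 Ω) (D : ℕ) (E : IntermediateField k Ω) : Prop :=
  ∀ Z : Finset Ω, (∀ z ∈ Z, z ≠ 0) → IntermediateField.adjoin k (Z : Set Ω) = E →
    ∃ C : FR k v D, FracIs C.R E ∧ (∀ z ∈ Z, C.Mono z) ∧
      ∀ f ∈ C.R, ∃ a ∈ Algebra.adjoin k (Z : Set Ω), ∃ b ∈ Algebra.adjoin k (Z : Set Ω),
        C.Mono b ∧ f = a / b

end

/-- `Emb` for all fields of transcendence degree `n`. -/
def EmbAll (k : Type u) [Field k] (𝕂 : Type w) [Field 𝕂] [LinearOrder 𝕂] [IsStrictOrderedRing 𝕂]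
    (n : ℕ) : Prop :=
  ∀ (Ω : Type u) [Field Ω] [Algebra k Ω] [IsAlgClosed Ω] (v : OVal 𝕂 Ω) (r D : ℕ),
    CtxR k v n r → 0 < r → n = r + D → ∀ E : IntermediateField k Ω,
      (∃ S : Finset Ω, E = IntermediateField.adjoin k (S : Set Ω)) →
      (∀ g : Ω, IsAlgebraic E g) → Emb v D E


/-- `(n + 1) 2^(3n-1) (n!)^2`. -/
def p0 (n : ℕ) : ℕ := (n + 1) * 2 ^ (3 * n - 1) * (n.factorial) ^ 2

/-- BLOCK X (sections 1 - 4). -/
def XStmt (k : Type u) [Field k] (𝕂 : Type w) [Field 𝕂] [LinearOrder 𝕂] [IsStrictOrderedRing 𝕂]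
    (p n : ℕ) : Prop :=
  ∀ (Ω : Type u) [Field Ω] [Algebra k Ω] [IsAlgClosed Ω] (v : OVal 𝕂 Ω) (r D : ℕ),
    CtxR k v n r → 0 < r → n = r + D → ∀ E : IntermediateField k Ω,
      (∀ g : Ω, IsAlgebraic E g) → ∀ Z : Finset Ω, (∀ z ∈ Z, z ≠ 0) →
      IntermediateField.adjoin k (Z : Set Ω) = E →
      ∃ (F : FR k v D) (K : IntermediateField k Ω) (N : IntermediateField K Ω)
        (_ : FiniteDimensional K N) (_ : IsGalois K N) (H : Subgroup (N ≃ₐ[K] N)) (Q Q' : Ω),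
        XD v p E Z F K N H Q Q'

/-- BLOCK Y (section 5): an element of order `< p` becomes a monomial, given embedded local
uniformization in transcendence degree `n - 1`. `F₁` is an extension of the rational frame `F`
with the same parameters, `N` a field containing it. -/
def YStmt (k : Type u) [Field k] (𝕂 : Type w) [Field 𝕂] [LinearOrder 𝕂] [IsStrictOrderedRing 𝕂]
    (p n : ℕ) : Prop :=
  ∀ (Ω : Type u) [Field Ω] [Algebra k Ω] [IsAlgClosed Ω] (v : OVal 𝕂 Ω) (r D : ℕ),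
    CtxR k v n r → 0 < r → n = r + D →
      ∀ (F F₁ : FR k v D), F.Rat → F.Same F₁ → ∀ N : IntermediateField k Ω, (∀ f ∈ F₁.R, f ∈ N) →
        ∀ (δ : Ω) (κ : 𝕂) (M : ℕ), F₁.Ord δ κ M → M < p →
          ∃ F' : FR k v D, F.Le F' ∧ F'.MonoIn (ICl v F'.R N) δ

/-- BLOCK Z (sections 6, 7): once `Q Q'` is a monomial over the frame `F' ≥ F`, the localisation
at the centre of the integral closure of `F'.R` in `E` is a frame of `E`. -/
def ZStmt (k : Type u) [Field k] (𝕂 : Type w) [Field 𝕂] [LinearOrder 𝕂] [IsStrictOrderedRing 𝕂]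
    (p n : ℕ) : Prop :=
  ∀ (Ω : Type u) [Field Ω] [Algebra k Ω] [IsAlgClosed Ω] (v : OVal 𝕂 Ω) (r D : ℕ),
    CtxR k v n r → 0 < r → n = r + D → ∀ (E : IntermediateField k Ω) (Z : Finset Ω)
      (F : FR k v D) (K : IntermediateField k Ω) (N : IntermediateField K Ω)
      (_ : FiniteDimensional K N) (_ : IsGalois K N) (H : Subgroup (N ≃ₐ[K] N)) (Q Q' : Ω),
      (∀ g : Ω, IsAlgebraic E g) → (∀ z ∈ Z, z ≠ 0) → IntermediateField.adjoin k (Z : Set Ω) = E →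
      XD v p E Z F K N H Q Q' →
      ∀ F' : FR k v D, F.Le F' → F'.MonoIn (ICl v F'.R (N.restrictScalars k)) (Q * Q') →
        ∃ C : FR k v D, C.R = ICl v F'.R E ∧ (∀ γ ∈ F'.Γ, γ ∈ C.Γ) ∧
          (∀ γ ∈ F'.Γ, C.Un (F'.χ γ / C.χ γ)) ∧ C.y = F'.y

/-- ROW BETA: a frame has logarithmic derivations (Nakayama; `K` is the field of fractions). -/
def BetaStmt (k : Type u) [Field k] (𝕂 : Type w) [Field 𝕂] [LinearOrder 𝕂] [IsStrictOrderedRing 𝕂]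
    (n : ℕ) : Prop :=
  ∀ (Ω : Type u) [Field Ω] [Algebra k Ω] [IsAlgClosed Ω] (v : OVal 𝕂 Ω) (r D : ℕ),
    CtxR k v n r → 0 < r → n = r + D → ∀ (F : FR k v D) (K : IntermediateField k Ω),
      FracIs F.R K → ∀ (φ : 𝕂 → k), (∀ γ ∈ F.Γ, ∀ δ ∈ F.Γ, φ (γ + δ) = φ γ + φ δ) →
      ∀ c : Fin D → k, ∃ d : Derivation k K K,
        (∀ γ ∈ F.Γ, ∀ e : K, (e : Ω) = F.χ γ → (d e : Ω) = algebraMap k Ω (φ γ) * F.χ γ) ∧
        (∀ j, ∀ e : K, (e : Ω) = F.y j → (d e : Ω) = algebraMap k Ω (c j)) ∧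
        ∀ e : K, (e : Ω) ∈ F.R → (d e : Ω) ∈ F.R

end Pool.Agent.ALLO
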