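import Pool.Agent.Lib.ALLO.XDefs
import Pool.Agent.Lib.ALLO_h5.Approx
import Pool.Agent.Lib.ALLY.Nrm
import Pool.Agent.Lib.ALLY.Trd

/-!
# PROJECT ALL, block X, any rank, row A0: a rational frame is integrally closed
-/

set_option autoImplicit false

namespace Pool.Agent.ALLO

open Pool.Agent.TAO
open Pool.Agent.LU1 (FracIs)
open Pool.Agent.ALLO5 (Base)

universe u w

variable {k Ω : Type u} [Field k] [Field Ω] [Algebra k Ω] {𝕂 : Type w} [Field 𝕂] [LinearOrder 𝕂]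
  [IsStrictOrderedRing 𝕂] {v : OVal 𝕂 Ω} {n r D : ℕ}

theorem FR.rdP_le (F : FR k v D) : F.rd.P ≤ F.R := by
  unfold ALLY.RD.P
  rw [Algebra.adjoin_le_iff]
  rintro _ (⟨γ, hγ, rfl⟩ | ⟨i, rfl⟩)
  · exact F.χ_mem γ hγ.1 hγ.2
  · exact F.y_mem i

theorem FR.Rat.mem_iff {F : FR k v D} (hF : F.Rat) {f : Ω} : f ∈ F.R ↔ ALLY.InLoc v F.rd.P f := by
  unfold FR.Rat at hF
  constructor
  · intro hf
    rw [hF] at hf
    exact hf
  · intro hf
    rw [hF]
    exact hf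

theorem FR.Rat.le_K {F : FR k v D} (hF : F.Rat) : ∀ f ∈ F.R, f ∈ F.rd.K := by
  intro f hf
  obtain ⟨a, ha, b, hb, -, -, rfl⟩ := hF.mem_iff.1 hf
  exact div_mem (ALLY.Trd.P_le_K _ a ha) (ALLY.Trd.P_le_K _ b hb)

/-- The field of fractions of a rational frame. -/
theorem FR.Rat.K_eq {F : FR k v D} (hF : F.Rat) {K : IntermediateField k Ω} (hK : FracIs F.R K) :
    F.rd.K = K := by
  apply le_antisymm
  · refine ALLY.Trd.K_le (fun γ hγ h0 => hK.1 _ (F.χ_mem γ hγ h0)) fun i => hK.1 _ (F.y_mem i)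
  · intro f hf
    obtain ⟨a, ha, b, hb, -, rfl⟩ := hK.2 f hf
    exact div_mem (hF.le_K a ha) (hF.le_K b hb)

theorem FR.Rat.trdeg (h : Ctx0 k v n) {F : FR k v D} (hF : F.Rat) :
    Algebra.trdeg k F.rd.K = n := by
  have h1 : Algebra.trdeg k (⊤ : IntermediateField k Ω) = Algebra.trdeg k F.rd.K :=
    ALLY.Trd.trdeg_eq le_top fun a _ => ALLY.Trd.isAlgebraic_of_sub hF.le_K (F.alg a)
  rw [← h1, ← h.trdeg]
  exact (IntermediateField.topEquiv (F := k) (E := Ω)).trdeg_eq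

/-- A rational frame is integrally closed. -/
theorem FR.Rat.normal (h : CtxR k v n r) (hn : n = r + D) {F : FR k v D} (hF : F.Rat) {f : Ω}
    (hf : f ∈ F.rd.K) (hint : IsIntegral F.R f) : f ∈ F.R := by
  rw [hF.mem_iff]
  refine ALLY.RD.inLoc_of_integral h F.rd ?_ hf ?_
  · rw [hF.trdeg h.toCtx0, hn]
    push_cast
    rfl
  · obtain ⟨P, hP, h0⟩ := hint
    refine ⟨P.map (algebraMap F.R Ω), hP.map _, fun i => ?_, ?_⟩
    · rw [Polynomial.coeff_map, ← hF.mem_iff]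
      exact (P.coeff i).2
    · rw [Polynomial.eval_map]
      exact h0

theorem base_of_rat (h : CtxR k v n r) (hn : n = r + D) {F : FR k v D} (hF : F.Rat)
    {K : IntermediateField k Ω} (hK : FracIs F.R K) : Base v F.R K where
  le := hK.1
  nonneg := F.nonneg
  loc := F.loc
  normal := fun f hf hint => hF.normal h hn (by rw [hF.K_eq hK]; exact hf) hint

theorem FROf.rat {F : FR k v D} {x : Fin r → Ω} {y : Fin D → Ω} (hF : FROf F x y) : F.Rat := by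
  unfold FR.Rat
  rw [hF.R_eq, Oinf, hF.y_eq]
  congr 3
  ext g
  constructor
  · rintro ⟨l, h0, rfl⟩
    exact ⟨v (mx x l), ⟨(hF.Γ_iff _).2 ⟨l, rfl⟩, h0⟩, hF.χ_mx l⟩
  · rintro ⟨γ, ⟨hγ, h0⟩, rfl⟩
    obtain ⟨l, rfl⟩ := (hF.Γ_iff _).1 hγ
    exact ⟨l, h0, hF.χ_mx l⟩

/-- **Row A0.** -/
theorem base_of_FROf (h : CtxR k v n r) (hn : n = r + D) {F : FR k v D} {x : Fin r → Ω}
    {y : Fin D → Ω} (hF : FROf F x y) {K : IntermediateField k Ω} (hK : FracIs F.R K) :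
    Base v F.R K :=
  base_of_rat h hn hF.rat hK

end Pool.Agent.ALLO
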