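import Pool.Agent.Lib.ALLO.Defs
import Pool.Agent.Lib.ALLO.GoodOpen
import Pool.Agent.Lib.ALL_h85.Jac
import Pool.Agent.Lib.TAO.Main

/-!
# PROJECT ALL, block X (sections 1 - 4): definitions
-/

set_option autoImplicit false

namespace Pool.Agent.ALLO

open Pool.Agent.LU1 (fixO)
open Pool.Agent.TAO
open Pool.Agent.ALLh85 (extD)
open Submodule Module

universe u w

section

variable {k Ω : Type u} [Field k] [Field Ω] [Algebra k Ω]

/-- The limit ring `k[x^l (value ≥ 0), y]` (not localised). -/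
noncomputable def Oinf (k : Type u) {Ω : Type u} [Field k] [Field Ω] [Algebra k Ω] {𝕂 : Type w} [Field 𝕂] [LinearOrder 𝕂] [IsStrictOrderedRing 𝕂] (v : OVal 𝕂 Ω)
    {r D : ℕ} (x : Fin r → Ω) (y : Fin D → Ω) : Subalgebra k Ω :=
  Algebra.adjoin k ({g | ∃ l : Fin r → ℤ, 0 ≤ v (mx x l) ∧ g = mx x l} ∪ Set.range y)

/-- The limit ring `k[x^l (value ≥ 0), b, b⁻¹]` (not localised). -/
noncomputable def Ainf (k : Type u) {Ω : Type u} [Field k] [Field Ω] [Algebra k Ω] {𝕂 : Type w} [Field 𝕂] [LinearOrder 𝕂] [IsStrictOrderedRing 𝕂] (v : OVal 𝕂 Ω)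
    {r : ℕ} {ι : Type} (x : Fin r → Ω) (b : ι → Ω) : Subalgebra k Ω :=
  Algebra.adjoin k ({g | ∃ l : Fin r → ℤ, 0 ≤ v (mx x l) ∧ g = mx x l} ∪ (Ab k b : Set Ω))

/-- `F` is the rational frame with monomials the `x^l` and parameters `y`. -/
structure FROf {𝕂 : Type w} [Field 𝕂] [LinearOrder 𝕂] [IsStrictOrderedRing 𝕂] {v : OVal 𝕂 Ω} {r D : ℕ} (F : FR k v D) (x : Fin r → Ω) (y : Fin D → Ω) : Prop where
  Γ_iff : ∀ γ, γ ∈ F.Γ ↔ ∃ l : Fin r → ℤ, γ = v (mx x l)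
  χ_mx : ∀ l : Fin r → ℤ, F.χ (v (mx x l)) = mx x l
  y_eq : F.y = y
  R_eq : F.R = locv v (Oinf k v x y)

/-- `g` is in `ICl v F.R E` with the monomials inverted. -/
def FR.InX {𝕂 : Type w} [Field 𝕂] [LinearOrder 𝕂] [IsStrictOrderedRing 𝕂] {v : OVal 𝕂 Ω} {D : ℕ} (F : FR k v D) (E : IntermediateField k Ω) (g : Ω) : Prop :=
  ∃ γ ∈ F.Γ, F.χ γ * g ∈ ICl v F.R E

/-- The product of the conjugates of `Q`, one for each class of `Dp / (Dp ∩ H)`. -/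
noncomputable def cosetProd {K : IntermediateField k Ω} {N : IntermediateField K Ω}
    (Dp H : Subgroup (N ≃ₐ[K] N)) (Q : N) : N :=
  ∏ᶠ q : Dp ⧸ H.subgroupOf Dp, ((q.out : Dp) : N ≃ₐ[K] N) Q

/-- `δ'` is the family of derivations of `E` dual to `(dlog x, dy)`. -/
structure DualD {r D : ℕ} (E : IntermediateField k Ω) (x : Fin r → Ω) (y : Fin D → Ω)
    (δ' : Fin r ⊕ Fin D → Derivation k E E) : Prop where
  xx : ∀ i j, extD E (δ' (Sum.inl i)) (x j) = if i = j then x j else 0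
  xy : ∀ i j, extD E (δ' (Sum.inl i)) (y j) = 0
  yx : ∀ i j, extD E (δ' (Sum.inr i)) (x j) = 0
  yy : ∀ i j, extD E (δ' (Sum.inr i)) (y j) = if i = j then 1 else 0

/-- Affine data: `k[V]` is a normal affine ring with quotient field `E`; `δ` is dual to a
separating transcendence basis `t`; `h₀` is a common denominator. -/
structure AD (k : Type u) {Ω : Type u} [Field k] [Field Ω] [Algebra k Ω] (κ : Type)
    [DecidableEq κ] (E : IntermediateField k Ω) where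
  V : Submodule k Ω
  fin : FiniteDimensional k V
  one_mem : (1 : Ω) ∈ V
  le : ∀ g ∈ V, g ∈ E
  gen : IntermediateField.adjoin k (V : Set Ω) = E
  normal : ∀ g ∈ E, IsIntegral (Algebra.adjoin k (V : Set Ω)) g →
    g ∈ Algebra.adjoin k (V : Set Ω)
  t : κ → Ω
  t_mem : ∀ a, t a ∈ V
  δ : κ → Derivation k E E
  δ_t : ∀ a b, extD E (δ b) (t a) = if a = b then 1 else 0
  sep : ∀ g ∈ E, IsSeparable (IntermediateField.adjoin k (Set.range t)) g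
  h₀ : Ω
  h₀_ne : h₀ ≠ 0
  c₀ : ℕ
  h₀_mem : h₀ ∈ V ^ c₀
  hδ : ∀ b, ∀ g ∈ V, h₀ * extD E (δ b) g ∈ V ^ c₀

/-- The logarithmic Jacobian matrix of `(x, y)`. -/
noncomputable def JM {r D : ℕ} (E : IntermediateField k Ω)
    (δ : Fin r ⊕ Fin D → Derivation k E E) (x : Fin r → Ω) (y : Fin D → Ω) :
    Matrix (Fin r ⊕ Fin D) (Fin r ⊕ Fin D) Ω :=
  Matrix.of (Sum.elim (fun i b => (x i)⁻¹ * extD E (δ b) (x i))
    fun j b => extD E (δ b) (y j))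

/-- (G1): `W^(s₀+1) ⊂ (y) W^(s₀) + (Is ∩ Ab) + W^(s₀+2) Ab`. -/
def GG1 (k : Type u) {Ω : Type u} [Field k] [Field Ω] [Algebra k Ω] {𝕂 : Type w} [Field 𝕂] [LinearOrder 𝕂] [IsStrictOrderedRing 𝕂] (v : OVal 𝕂 Ω) {r D : ℕ}
    {ι : Type} (x : Fin r → Ω) (b : ι → Ω) (y : Fin D → Ω) (s₀ : ℕ) : Prop :=
  Wb k b ^ (s₀ + 1) ≤ span k (Set.range y) * Wb k b ^ s₀ ⊔
    (Is (k := k) v x b ⊓ (Ab k b).toSubmodule) ⊔
      Wb k b ^ (s₀ + 2) * (Ab k b).toSubmodule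

/-- Good coefficients. -/
structure Good {𝕂 : Type w} [Field 𝕂] [LinearOrder 𝕂] [IsStrictOrderedRing 𝕂] {v : OVal 𝕂 Ω} {r D : ℕ} {ι : Type} [Fintype ι] (T : TD k v r ι)
    {E : IntermediateField k Ω} (A : AD k (Fin r ⊕ Fin D) E) (s₀ : ℕ) (c : Fin D → ι → k) :
    Prop where
  G1 : GG1 k v T.x T.b (yc T.b c) s₀
  G2 : (JM E A.δ T.x (yc T.b c)).det ≠ 0

/-- `T` is a toric datum for `f₀⁻¹ V^m` with small logarithmic support `S`, `x_i = f^(α_i)`. -/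
structure TDm {𝕂 : Type w} [Field 𝕂] [LinearOrder 𝕂] [IsStrictOrderedRing 𝕂] {v : OVal 𝕂 Ω} {r : ℕ} {κ : Type} [DecidableEq κ] {E : IntermediateField k Ω} (p : ℕ)
    (A : AD k κ E) (m : ℕ) {ι : Type} [Fintype ι] (T : TD k v r ι) (f₀ : Ω) (α : Fin r → ι → ℤ)
    (S : Finset ι) : Prop where
  card : Fintype.card ι = finrank k ↥(A.V ^ m)
  f₀_mem : f₀ ∈ A.V ^ m
  f₀_ne : f₀ ≠ 0
  span_eq : span k (Set.range fun j => T.b j * mx T.x (T.a j)) = span k {f₀⁻¹} * A.V ^ m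
  gen : IntermediateField.adjoin k (Set.range T.x ∪ Set.range T.b) = E
  S_card : S.card ≤ 2 * r
  α_S : ∀ i, ∀ j ∉ S, (p : ℤ) ∣ α i j
  x_eq : ∀ i, T.x i = ∏ j, (T.b j * mx T.x (T.a j)) ^ α i j
  α_a : ∀ i, ∑ j, α i j • T.a j = Pi.single i 1
  α_b : ∀ i, ∏ j, T.b j ^ α i j = 1
  dx : ∃ hx : ∀ i, T.x i ∈ E,
    LinearIndependent E fun i => KaehlerDifferential.D k E ⟨T.x i, hx i⟩

end

end Pool.Agent.ALLO
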