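import Pool.Agent.Lib.ALLO_h5.Gen
import Pool.Agent.Lib.ALLO.XDefs
import Pool.Agent.Lib.ALLO_h83.ICl

/-!
# PROJECT ALL, block X, rows R7a, R7b, R7c
-/

set_option autoImplicit false

namespace Pool.Agent.ALLO

open Pool.Agent.TAO (OVal)
open Pool.Agent.TAO (VPos)
open Pool.Agent.ALLO (locv)
open Pool.Agent.LU1 (fixO FracIs)
open Pool.Agent.TAO (Ctx0)
open Pool.Agent.TAO
open Pool.Agent.ALLh85 (extD)
open Submodule Module

universe u w

variable {k Ω : Type u} [Field k] [Field Ω] [Algebra k Ω] {𝕂 : Type w} [Field 𝕂] [LinearOrder 𝕂] [IsStrictOrderedRing 𝕂] {v : OVal 𝕂 Ω} {n r D : ℕ} {p : ℕ}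
  {ι : Type} [Fintype ι] {E : IntermediateField k Ω}

theorem Apos_eq (T : TD k v r ι) : ALLO83.Apos T = Ainf k v T.x T.b := by
  apply le_antisymm
  · unfold ALLO83.Apos
    rw [Algebra.adjoin_le_iff]
    rintro g (hg | hg)
    · exact Algebra.subset_adjoin (Or.inl hg)
    · exact Algebra.subset_adjoin (Or.inr (Algebra.subset_adjoin hg))
  · unfold Ainf
    rw [Algebra.adjoin_le_iff]
    rintro g (hg | hg)
    · exact Algebra.subset_adjoin (Or.inl hg)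
    · have h1 : Ab k T.b ≤ ALLO83.Apos T := by
        unfold TAO.Ab
        rw [Algebra.adjoin_le_iff]
        exact fun y hy => Algebra.subset_adjoin (Or.inr hy)
      exact h1 hg

theorem ICl_inv {R : Subalgebra k Ω} {f : Ω} (hf : f ∈ ICl v R E) (h0 : f ≠ 0) (h1 : v f = 0) :
    f⁻¹ ∈ ICl v R E := Pool.Agent.ALLO5.locv_inv hf h0 h1

theorem Ainf_le_ICl {T : TD k v r ι} {R : Subalgebra k Ω} (hA : Ainf k v T.x T.b ≤ ICl v R E) :
    ALLO83.Ainf T ≤ ICl v R E := by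
  unfold ALLO83.Ainf
  exact Pool.Agent.ALLO5.locv_le (by rw [Apos_eq]; exact hA) fun f hf h0 h1 => ICl_inv hf h0 h1

theorem MonoIn_inv {F : FR k v D} {f : Ω} (hf : F.MonoIn (ICl v F.R E) f) :
    F.MonoIn (ICl v F.R E) f⁻¹ := by
  obtain ⟨hf0, hfΓ, hfC⟩ := hf
  have hχ := F.χ_ne _ hfΓ
  refine ⟨inv_ne_zero hf0, ?_, ?_⟩
  · rw [v.map_inv hf0]; exact F.Γ.neg_mem hfΓ
  · rw [v.map_inv hf0, ALLO83.χ_neg F hfΓ]
    have h1 : f⁻¹ / (F.χ (v f))⁻¹ = (f / F.χ (v f))⁻¹ := by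
      rw [inv_div, div_eq_mul_inv, inv_inv, div_eq_mul_inv, mul_comm]
    rw [h1]
    refine ICl_inv hfC (div_ne_zero hf0 hχ) ?_
    rw [v.map_div hf0 hχ, F.χ_val _ hfΓ, sub_self]

theorem MonoIn_of_mon {F : FR k v D} {T : TD k v r ι} {y : Fin D → Ω} (hF : FROf F T.x y)
    (hA : Ainf k v T.x T.b ≤ ICl v F.R E) {f : Ω} (hf : ALLO83.IsMon T f) :
    F.MonoIn (ICl v F.R E) f := by
  obtain ⟨l, u, hu, rfl⟩ := hf
  have h1 : v (mx T.x l * u) = v (mx T.x l) := by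
    rw [v.map_mul (mx_ne T.x_ne _) hu.2.1, hu.2.2, add_zero]
  refine ⟨mul_ne_zero (mx_ne T.x_ne _) hu.2.1, ?_, ?_⟩
  · rw [h1]; exact (hF.Γ_iff _).2 ⟨l, rfl⟩
  · rw [h1, hF.χ_mx, mul_div_cancel_left₀ _ (mx_ne T.x_ne _)]
    exact Ainf_le_ICl hA hu.1

/-- R7a: the elements of `V^m` are monomials times units at the centre. -/
theorem mono_of_mem_pow (h : Ctx0 k v n) {A : AD k (Fin r ⊕ Fin D) E} {m : ℕ} {T : TD k v r ι}
    {f₀ : Ω} {α : Fin r → ι → ℤ} {S : Finset ι} (hT : TDm p A m T f₀ α S) {F : FR k v D}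
    {y : Fin D → Ω} (hF : FROf F T.x y) (hA : Ainf k v T.x T.b ≤ ICl v F.R E) {g : Ω}
    (hg : g ∈ A.V ^ m) (hg0 : g ≠ 0) :
    F.MonoIn (ICl v F.R E) g ∧ F.MonoIn (ICl v F.R E) g⁻¹ := by
  have h1 := MonoIn_of_mon hF hA
    (ALLO83.mon_of_mem_pow h.triv T A.one_mem hT.f₀_ne hT.span_eq hg hg0)
  exact ⟨h1, MonoIn_inv h1⟩

theorem TDm.V_le {κ : Type} [DecidableEq κ] {A : AD k κ E} {m : ℕ} {T : TD k v r ι}
    {f₀ : Ω} {α : Fin r → ι → ℤ} {S : Finset ι} (hT : TDm p A m T f₀ α S) : A.V ≤ A.V ^ m := by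
  rcases Nat.eq_zero_or_pos m with rfl | hm
  · -- the degenerate case
    have hcard := hT.card
    rw [pow_zero] at hcard ⊢
    have h1 : finrank k (1 : Submodule k Ω) ≤ 1 := by
      rw [Submodule.one_eq_span]
      exact (finrank_span_le_card {(1 : Ω)}).trans (by simp)
    have hsub : Subsingleton ι := by
      rw [← Fintype.card_le_one_iff_subsingleton, hcard]
      exact h1
    have ha : ∀ j, T.a j = 0 := fun j => by
      rw [Subsingleton.elim j T.o, T.a_o]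
    have hb : ∀ j, T.b j = 1 := fun j => by
      rw [Subsingleton.elim j T.o, T.b_o]
    have hr : IsEmpty (Fin r) := by
      refine ⟨fun i => ?_⟩
      have h2 := hT.α_a i
      rw [Finset.sum_eq_zero fun j _ => by rw [ha, smul_zero]] at h2
      have h3 := congrFun h2 i
      rw [Pi.single_eq_same] at h3
      exact one_ne_zero h3.symm
    intro g hg
    have hgE := A.le g hg
    have h2 : E ≤ (⊥ : IntermediateField k Ω) := by
      rw [← hT.gen, IntermediateField.adjoin_le_iff]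
      rintro _ (⟨i, rfl⟩ | ⟨j, rfl⟩)
      · exact (hr.false i).elim
      · change T.b j ∈ (⊥ : IntermediateField k Ω)
        rw [hb]
        exact one_mem _
    obtain ⟨c, rfl⟩ := IntermediateField.mem_bot.1 (h2 hgE)
    rw [Algebra.algebraMap_eq_smul_one]
    exact smul_mem _ _ (Submodule.one_le.1 le_rfl)
  · have := ALLO83.pow_le_pow_of_one (P := A.V) A.one_mem (m := 1) (m' := m) hm
    rwa [pow_one] at this

theorem AD.integrallyClosed {κ : Type} [DecidableEq κ] (A : AD k κ E) :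
    (∀ z ∈ E, ∃ a ∈ Algebra.adjoin k (A.V : Set Ω), ∃ b ∈ Algebra.adjoin k (A.V : Set Ω),
      b ≠ 0 ∧ z = a / b) ∧ IsIntegrallyClosed (Algebra.adjoin k (A.V : Set Ω)) := by
  have hBE : Algebra.adjoin k (A.V : Set Ω) ≤ E.toSubalgebra := by
    rw [Algebra.adjoin_le_iff]
    exact fun y hy => A.le y hy
  have hfrac : ∀ z ∈ E, ∃ a ∈ Algebra.adjoin k (A.V : Set Ω),
      ∃ b ∈ Algebra.adjoin k (A.V : Set Ω), b ≠ 0 ∧ z = a / b := by
    intro z hz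
    rw [← A.gen, IntermediateField.mem_adjoin_iff_div] at hz
    obtain ⟨a, ha, b, hb, hab⟩ := hz
    by_cases hb0 : b = 0
    · exact ⟨0, Subalgebra.zero_mem _, 1, Subalgebra.one_mem _, one_ne_zero, by
        rw [hab, hb0, div_zero, zero_div]⟩
    · exact ⟨a, ha, b, hb, hb0, hab⟩
  refine ⟨hfrac, ?_⟩
  obtain ⟨B, hB⟩ : ∃ B, B = Algebra.adjoin k (A.V : Set Ω) := ⟨_, rfl⟩
  have hn := A.normal
  rw [← hB] at hBE hfrac hn ⊢
  rw [isIntegrallyClosed_iff (FractionRing B)]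
  intro x hx
  -- transport to `Ω`
  have hinj : Function.Injective (algebraMap B Ω) := Subtype.val_injective
  obtain ⟨φ, hφ⟩ : ∃ φ : FractionRing B →ₐ[B] Ω, Function.Injective φ :=
    ⟨IsFractionRing.liftAlgHom (K := FractionRing B) (g := Algebra.ofId B Ω) hinj,
      (IsFractionRing.liftAlgHom (K := FractionRing B) (g := Algebra.ofId B Ω)
        hinj).toRingHom.injective⟩
  have hφx : IsIntegral B (φ x) := hx.map φ
  have hφE : φ x ∈ E := by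
    obtain ⟨a, b, hb, rfl⟩ := IsFractionRing.div_surjective (A := B) x
    rw [map_div₀, AlgHom.commutes, AlgHom.commutes]
    exact div_mem (hBE a.2) (hBE b.2)
  have h1 := hn _ hφE hφx
  refine ⟨⟨φ x, h1⟩, hφ ?_⟩
  rw [AlgHom.commutes]
  rfl

/-- The standing data of `ALLO83.Dat`. -/
theorem TDm.dat (htriv : ∀ c : k, c ≠ 0 → v (algebraMap k Ω c) = 0) {κ : Type} [DecidableEq κ]
    {A : AD k κ E} {m : ℕ} {T : TD k v r ι}
    {f₀ : Ω} {α : Fin r → ι → ℤ} {S : Finset ι} (hT : TDm p A m T f₀ α S) :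
    ALLO83.Dat T E A.V m f₀ where
  triv := htriv
  one := A.one_mem
  le_E := A.le
  V_le := hT.V_le
  mem := hT.f₀_mem
  ne := hT.f₀_ne
  span := hT.span_eq
  ic := A.integrallyClosed.2
  frac := A.integrallyClosed.1

theorem yc_mem_Apos (T : TD k v r ι) (c : Fin D → ι → k) (i : Fin D) :
    yc T.b c i ∈ ALLO83.Apos T := by
  unfold yc
  refine Subalgebra.sum_mem _ fun j _ => Subalgebra.smul_mem _ ?_ _
  exact Subalgebra.sub_mem _ (ALLO83.b_mem_Apos T j) (Subalgebra.one_mem _)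

theorem FROf.rel {F : FR k v D} {T : TD k v r ι} {c : Fin D → ι → k}
    (hF : FROf F T.x (yc T.b c)) (hA : Ainf k v T.x T.b ≤ ICl v F.R E) : ALLO83.Rel F T E where
  R_le := by
    rw [hF.R_eq]
    unfold ALLO83.Ainf
    refine Pool.Agent.ALLO5.locv_mono ?_
    unfold Oinf
    rw [Algebra.adjoin_le_iff]
    rintro g (⟨l, hl, rfl⟩ | ⟨i, rfl⟩)
    · exact ALLO83.mx_mem_Apos T hl
    · exact yc_mem_Apos T c i
  le_C := Ainf_le_ICl hA
  Γ_mem := fun l => (hF.Γ_iff _).2 ⟨l, rfl⟩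
  χ_eq := hF.χ_mx
  Γ_ex := fun γ hγ => (hF.Γ_iff γ).1 hγ

/-- R7b: the elements of the ring `ICl v F.R E` are quotients of elements of `k[V]`,
the denominator a monomial times a unit. -/
theorem exists_quot (h : Ctx0 k v n) {A : AD k (Fin r ⊕ Fin D) E} {m : ℕ} {T : TD k v r ι}
    {f₀ : Ω} {α : Fin r → ι → ℤ} {S : Finset ι} (hT : TDm p A m T f₀ α S) {F : FR k v D}
    {c : Fin D → ι → k} (hF : FROf F T.x (yc T.b c)) (hA : Ainf k v T.x T.b ≤ ICl v F.R E)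
    {f : Ω} (hf : F.InX E f) :
    ∃ a ∈ Algebra.adjoin k (A.V : Set Ω), ∃ b ∈ Algebra.adjoin k (A.V : Set Ω), b ≠ 0 ∧
      F.MonoIn (ICl v F.R E) b ∧ F.MonoIn (ICl v F.R E) b⁻¹ ∧ f = a / b := by
  have hd := hT.dat h.triv
  have hr := hF.rel hA
  obtain ⟨γ, hγ, hf⟩ := hf
  obtain ⟨l, rfl⟩ := (hF.Γ_iff γ).1 hγ
  rw [hF.χ_mx] at hf
  obtain ⟨a, ha, b, hb, hbm, hab⟩ := hd.den hr hf
  have h1 := ALLO83.IsMon.mx T l
  obtain ⟨a₁, ha₁, b₁, hb₁, hbm₁, hab₁⟩ := hd.AinfX_iff.1 h1.mem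
  have ham₁ : ALLO83.IsMon T a₁ := by
    have h2 : a₁ = mx T.x l * b₁ := by rw [hab₁, div_mul_cancel₀ _ hbm₁.ne]
    rw [h2]
    exact h1.mul hbm₁
  have h3 : F.MonoIn (ICl v F.R E) (b * a₁) := ALLO83.MonoIn.mul hbm (MonoIn_of_mon hF hA ham₁)
  refine ⟨a * b₁, Subalgebra.mul_mem _ ha hb₁, b * a₁, Subalgebra.mul_mem _ hb ha₁, h3.1, h3,
    MonoIn_inv h3, ?_⟩
  have h4 := mx_ne T.x_ne l
  have h5 : f = (a / b) / mx T.x l := by
    rw [← hab, mul_div_cancel_left₀ _ h4]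
  have h6 := ham₁.ne
  have h7 := hbm₁.ne
  have h8 := hbm.1
  rw [h5, hab₁]
  field_simp

/-- R7c: `ICl v F.R E` with the monomials inverted is stable under the `δ_b`. -/
theorem stable_delta (h : Ctx0 k v n) {A : AD k (Fin r ⊕ Fin D) E} {m : ℕ} (hm : A.c₀ ≤ m)
    {T : TD k v r ι} {f₀ : Ω} {α : Fin r → ι → ℤ} {S : Finset ι} (hT : TDm p A m T f₀ α S)
    {F : FR k v D} {c : Fin D → ι → k} (hF : FROf F T.x (yc T.b c))
    (hA : Ainf k v T.x T.b ≤ ICl v F.R E) (b : Fin r ⊕ Fin D) {g : Ω} (hg : F.InX E g) :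
    F.InX E (extD E (A.δ b) g) := by
  have hd := hT.dat h.triv
  have hr := hF.rel hA
  obtain ⟨a, ha, e, he, he0, hem, hem', hab⟩ := exists_quot h hT hF hA hg
  have haE := hd.kV_le_E ha
  have heE := hd.kV_le_E he
  have hst : ∀ z : E, (z : Ω) ∈ ALLO83.AinfX T → ((A.δ b z : E) : Ω) ∈ ALLO83.AinfX T := by
    intro z hz
    refine ALLO83.der_AinfX hd.triv T hd.one hd.V_le hd.mem hd.ne hd.span E hd.le_E (A.δ b)
      A.h₀_ne A.h₀_mem hm (fun z hz => ?_) hz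
    have h1 := A.hδ b z hz
    rwa [ALLh85.extD_apply] at h1
  obtain ⟨aE, haE'⟩ : ∃ aE : E, (aE : Ω) = a := ⟨⟨a, haE⟩, rfl⟩
  obtain ⟨eE, heE'⟩ : ∃ eE : E, (eE : Ω) = e := ⟨⟨e, heE⟩, rfl⟩
  have heE0 : eE ≠ 0 := fun h' => he0 (by rw [← heE', h']; rfl)
  have hgE : g = ((aE / eE : E) : Ω) := by
    rw [hab]
    change a / e = (aE : Ω) / (eE : Ω)
    rw [haE', heE']
  have h2 : A.δ b (aE / eE) = eE⁻¹ * (A.δ b aE - (aE / eE) * A.δ b eE) := by
    have h3 : aE = (aE / eE) * eE := by rw [div_mul_cancel₀ _ heE0]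
    have h4 : A.δ b aE = (aE / eE) * A.δ b eE + eE * A.δ b (aE / eE) := by
      conv_lhs => rw [h3, Derivation.leibniz]
      simp only [smul_eq_mul]
    rw [h4, add_sub_cancel_left, inv_mul_cancel_left₀ heE0]
  have h5 := ALLO83.AinfX_le_SX hr (hst aE (by rw [haE']; exact hd.kV_le ha))
  have h6 := ALLO83.AinfX_le_SX hr (hst eE (by rw [heE']; exact hd.kV_le he))
  have h7 := ALLO83.AinfX_le_SX hr (hd.kV_le ha)
  have h8 := ALLO83.MonoIn.inv_mem hr hem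
  have h9 : extD E (A.δ b) g ∈
      ALLO83.SX F (ICl v F.R E) (fun _ hγ h0 => ALLO83.χ_mem_ICl hr hγ h0) := by
    rw [hgE, ALLh85.extD_apply, h2]
    have h10 : ((eE⁻¹ * (A.δ b aE - (aE / eE) * A.δ b eE) : E) : Ω) =
        e⁻¹ * (((A.δ b aE : E) : Ω) - (a * e⁻¹) * ((A.δ b eE : E) : Ω)) := by
      change (eE : Ω)⁻¹ * (((A.δ b aE : E) : Ω) - ((aE : Ω) / (eE : Ω)) * ((A.δ b eE : E) : Ω)) = _
      rw [haE', heE', div_eq_mul_inv]
    rw [h10]
    exact Subalgebra.mul_mem _ h8 (Subalgebra.sub_mem _ h5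
      (Subalgebra.mul_mem _ (Subalgebra.mul_mem _ h7 h8) h6))
  obtain ⟨γ, hγ, -, h10⟩ := ALLO83.mem_SX.1 h9
  exact ⟨γ, hγ, h10⟩

end Pool.Agent.ALLO
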