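import Pool.Agent.Lib.ALLO_h5.Gen
import Pool.Agent.Lib.ALLO.R7_h83
import Pool.Agent.Lib.ALLO.R1_h83

/-!
# PROJECT ALL, block X: the clauses `der` and `den` of `XD`
-/

set_option autoImplicit false

namespace Pool.Agent.ALLO

open Pool.Agent.TAO (OVal)
open Pool.Agent.TAO (VPos)
open Pool.Agent.ALLO (locv)
open Pool.Agent.LU1 (fixO FracIs)
open Pool.Agent.TAO (Ctx0)
open Pool.Agent.TAO
open Pool.Agent.ALLh85 (extD)
open Submodule Module

universe u w

variable {k Ω : Type u} [Field k] [Field Ω] [Algebra k Ω] {𝕂 : Type w} [Field 𝕂] [LinearOrder 𝕂] [IsStrictOrderedRing 𝕂] {v : OVal 𝕂 Ω} {n r D : ℕ} {p : ℕ}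
  {ι : Type} [Fintype ι] {E : IntermediateField k Ω}

/-- Derivations of `E` are determined by their values on `(x, y)` when the Jacobian does not
vanish: here in the form of a formula. -/
theorem AD.span (A : AD k (Fin r ⊕ Fin D) E)
    {t : Fin r ⊕ Fin D → E} (ht : ∀ a, (t a : Ω) = A.t a) (δ : Derivation k E E) (z : E) :
    δ z = ∑ e, δ (t e) * A.δ e z := by
  classical
  -- the difference kills `t`
  obtain ⟨η, hη⟩ : ∃ η : Derivation k E E, ∀ z, η z = δ z - ∑ e, δ (t e) * A.δ e z := by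
    refine ⟨δ - ∑ e, δ (t e) • A.δ e, fun z => ?_⟩
    rw [Derivation.sub_apply]
    congr 1
    rw [← Derivation.coeFnAddMonoidHom_apply, map_sum, Finset.sum_apply]
    rfl
  have hηt : ∀ a, η (t a) = 0 := by
    intro a
    rw [hη]
    have h1 : ∀ e, A.δ e (t a) = if a = e then 1 else 0 := by
      intro e
      have h2 := A.δ_t a e
      rw [← ht, ALLh85.extD_apply] at h2
      apply Subtype.ext
      rw [h2]
      split_ifs <;> rfl
    simp only [h1]
    rw [Finset.sum_eq_single a]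
    · rw [if_pos rfl, mul_one, sub_self]
    · intro e _ he
      rw [if_neg (Ne.symm he), mul_zero]
    · intro h'; exact absurd (Finset.mem_univ _) h'
  -- `η` vanishes on `k(t)`
  obtain ⟨F', hF'⟩ : ∃ F', F' = IntermediateField.adjoin k (Set.range A.t) := ⟨_, rfl⟩
  have htE : ∀ a, A.t a ∈ E := fun a => A.le _ (A.t_mem a)
  have hF'E : F' ≤ E := by
    rw [hF', IntermediateField.adjoin_le_iff]
    rintro _ ⟨a, rfl⟩
    exact htE a
  have hηF : ∀ f (hf : f ∈ F'), η ⟨f, hF'E hf⟩ = 0 := by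
    intro f hf
    have h1 : (⟨f, hF'E hf⟩ : E) ∈ IntermediateField.adjoin k (Set.range t) := by
      have h2 : (IntermediateField.adjoin k (Set.range t)).map E.val = F' := by
        rw [IntermediateField.adjoin_map, hF']
        congr 1
        ext y
        constructor
        · rintro ⟨_, ⟨a, rfl⟩, rfl⟩
          exact ⟨a, (ht a).symm⟩
        · rintro ⟨a, rfl⟩
          exact ⟨t a, ⟨a, rfl⟩, ht a⟩
      have h3 : f ∈ (IntermediateField.adjoin k (Set.range t)).map E.val := by rw [h2]; exact hf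
      obtain ⟨y, hy, hyf⟩ := h3
      have h4 : y = ⟨f, hF'E hf⟩ := Subtype.ext hyf
      rwa [← h4]
    have h5 : ∀ y ∈ IntermediateField.adjoin k (Set.range t), η y = 0 := by
      intro y hy
      induction hy using IntermediateField.adjoin_induction with
      | mem y hy => obtain ⟨a, rfl⟩ := hy; exact hηt a
      | algebraMap c => exact η.map_algebraMap c
      | add x y _ _ hx hy => rw [map_add, hx, hy, add_zero]
      | inv x _ hx => rw [Derivation.leibniz_inv, hx, smul_zero]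
      | mul x y _ _ hx hy => rw [Derivation.leibniz, hx, hy, smul_zero, smul_zero, add_zero]
    exact h5 _ h1
  -- `η` vanishes on `E`
  have hη0 : ∀ z, η z = 0 := by
    intro z
    have hs := A.sep z z.2
    rw [← hF'] at hs
    obtain ⟨φ, hφ⟩ : ∃ φ : F' →+* E, ∀ f : F', ((φ f : E) : Ω) = (f : Ω) :=
      ⟨{ toFun := fun f => ⟨(f : Ω), hF'E f.2⟩
         map_one' := rfl
         map_mul' := fun _ _ => rfl
         map_zero' := rfl
         map_add' := fun _ _ => rfl }, fun _ => rfl⟩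
    have hηφ : ∀ f : F', η (φ f) = 0 := fun f => by
      have h1 := hηF f f.2
      have h2 : (⟨(f : Ω), hF'E f.2⟩ : E) = φ f := Subtype.ext (hφ f).symm
      rwa [h2] at h1
    obtain ⟨P, hP⟩ : ∃ P, P = minpoly F' (z : Ω) := ⟨_, rfl⟩
    have hev : ∀ R : Polynomial F', ((Polynomial.eval₂ φ z R : E) : Ω) =
        Polynomial.aeval (z : Ω) R := by
      intro R
      have h1 := Polynomial.hom_eval₂ R φ (algebraMap E Ω) z
      have h2 : (algebraMap E Ω).comp φ = algebraMap F' Ω := by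
        ext f; exact hφ f
      rw [h2] at h1
      exact h1
    have hroot : Polynomial.eval₂ φ z P = 0 := by
      apply Subtype.ext
      rw [hev, hP, minpoly.aeval]
      rfl
    have hder : ∀ R : Polynomial F', η (Polynomial.eval₂ φ z R) =
        Polynomial.eval₂ φ z R.derivative * η z := by
      intro R
      induction R using Polynomial.induction_on' with
      | add R S hR hS =>
        rw [Polynomial.eval₂_add, map_add, hR, hS, Polynomial.derivative_add,
          Polynomial.eval₂_add, add_mul]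
      | monomial e a =>
        rw [Polynomial.eval₂_monomial, Derivation.leibniz, hηφ, smul_zero, add_zero,
          Derivation.leibniz_pow, Polynomial.derivative_monomial, Polynomial.eval₂_monomial,
          map_mul, map_natCast]
        simp only [smul_eq_mul, nsmul_eq_mul]
        ring
    have h1 := hder P
    rw [hroot, map_zero] at h1
    have h2 : Polynomial.eval₂ φ z P.derivative ≠ 0 := by
      intro h3
      have h4 : Polynomial.aeval (z : Ω) P.derivative = 0 := by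
        rw [← hev, h3]; rfl
      have h5 : P.Separable := by rw [hP]; exact hs
      exact Polynomial.Separable.aeval_derivative_ne_zero h5 (by rw [hP, minpoly.aeval]) h4
    rcases mul_eq_zero.1 h1.symm with h3 | h3
    · exact absurd h3 h2
    · exact h3
  have h1 := hη z
  rw [hη0] at h1
  exact (sub_eq_zero.1 h1.symm)

/-- (A2): the Jacobian is a multiplier for the logarithmic derivations. -/
theorem der_JM (h : Ctx0 k v n) (A : AD k (Fin r ⊕ Fin D) E) {m : ℕ} (hm : A.c₀ ≤ m)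
    {T : TD k v r ι} {f₀ : Ω} {α : Fin r → ι → ℤ} {S : Finset ι} (hT : TDm p A m T f₀ α S)
    {F : FR k v D} {c : Fin D → ι → k} (hF : FROf F T.x (yc T.b c))
    (hdet : (JM E A.δ T.x (yc T.b c)).det ≠ 0)
    (hA : Ainf k v T.x T.b ≤ ICl v F.R E) {μ Q w : Ω} (hμ : ALLO83.IsMon T μ)
    (hQ : (JM E A.δ T.x (yc T.b c)).det = μ * Q) (hw : w ∈ ALLO83.AinfX T)
    (δ : Derivation k E E) (hδ : F.LogD δ) (f : E) (hf : (f : Ω) ∈ ICl v F.R E) :
    ∃ γ ∈ F.Γ, F.χ γ * (Q * w * (δ f : E)) ∈ ICl v F.R E := by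
  have hd := hT.dat h.triv
  have hr := hF.rel hA
  have hxE : ∀ i, T.x i ∈ E := fun i => by
    rw [← hT.gen]; exact IntermediateField.subset_adjoin _ _ (Or.inl ⟨i, rfl⟩)
  have hycE : ∀ i, yc T.b c i ∈ E := fun i =>
    hd.AinfX_le_E (ALLO83.Ainf_le_AinfX T (ALLO83.Apos_le_Ainf T (yc_mem_Apos T c i)))
  obtain ⟨xE, hxE'⟩ : ∃ xE : Fin r → E, ∀ i, (xE i : Ω) = T.x i :=
    ⟨fun i => ⟨T.x i, hxE i⟩, fun _ => rfl⟩
  obtain ⟨yE, hyE'⟩ : ∃ yE : Fin D → E, ∀ i, (yE i : Ω) = yc T.b c i :=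
    ⟨fun i => ⟨_, hycE i⟩, fun _ => rfl⟩
  obtain ⟨tE, htE⟩ : ∃ tE : Fin r ⊕ Fin D → E, ∀ a, (tE a : Ω) = A.t a :=
    ⟨fun a => ⟨A.t a, A.le _ (A.t_mem a)⟩, fun _ => rfl⟩
  have hdE := det_JM_eq A.δ hxE' hyE'
  have hdet' : (ALLO83.Jm A.δ xE yE).det ≠ 0 := fun h' => hdet (by rw [hdE, h']; rfl)
  refine hd.der_of hr δ (fun z hz => ?_) f hf
  have h1 := hd.logD_mem hr (AD.span A htE) A.h₀_ne A.h₀_mem hm
    (fun e z hz => by
      have h1 := A.hδ e z hz
      rwa [ALLh85.extD_apply] at h1) hxE' (fun i => by rw [hyE', hF.y_eq])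
    (fun i => by
      rw [hF.y_eq]
      exact ALLO83.Ainf_le_AinfX T (ALLO83.Apos_le_Ainf T (yc_mem_Apos T c i))) hdet' hμ
    (by rw [← hdE]; exact hQ) δ hδ hz
  have h2 : Q * w * ((δ z : E) : Ω) = w * (Q * ((δ z : E) : Ω)) := by ring
  rw [h2]
  exact Subalgebra.mul_mem _ hw h1

/-- `k[x, x⁻¹, b, b⁻¹] ≤ A_∞[1/χ]`. -/
theorem Axi_le (T : TD k v r ι) : Axi k T.x T.b ≤ ALLO83.AinfX T := by
  unfold Axi
  rw [Algebra.adjoin_le_iff]
  rintro g (⟨l, rfl⟩ | hg)
  · exact (ALLO83.IsMon.mx T l).mem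
  · refine ALLO83.Ainf_le_AinfX T (ALLO83.Apos_le_Ainf T ?_)
    rw [Apos_eq]
    exact Algebra.subset_adjoin (Or.inr hg)

/-- The factor between the Jacobian and `q` is a monomial. -/
theorem isMon_factor (h : Ctx0 k v n) {A : AD k (Fin r ⊕ Fin D) E} {m : ℕ} (hm : A.c₀ ≤ m)
    {T : TD k v r ι} {f₀ : Ω} {α : Fin r → ι → ℤ} {S : Finset ι} (hT : TDm p A m T f₀ α S)
    (e : ℕ) : ALLO83.IsMon T ((∏ s ∈ S, (T.b s * mx T.x (T.a s)))⁻¹ * f₀ * (A.h₀ ^ e)⁻¹) := by
  classical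
  have hmon : ∀ g ∈ A.V ^ m, g ≠ 0 → ALLO83.IsMon T g := fun g hg hg0 =>
    ALLO83.mon_of_mem_pow h.triv T A.one_mem hT.f₀_ne hT.span_eq hg hg0
  have h1 : ∀ S : Finset ι, ALLO83.IsMon T (∏ s ∈ S, (T.b s * mx T.x (T.a s))) := by
    intro S
    induction S using Finset.induction_on with
    | empty => rw [Finset.prod_empty]; exact ALLO83.IsMon.one T
    | insert s S hs ih =>
      rw [Finset.prod_insert hs]
      refine ALLO83.IsMon.mul ?_ ih
      refine ALLO83.mon_of_mem_span h.triv T (subset_span ⟨s, rfl⟩) ?_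
      exact mul_ne_zero (T.b_ne s) (mx_ne T.x_ne _)
  have h2 : ALLO83.IsMon T A.h₀ :=
    hmon _ (ALLO83.pow_le_pow_of_one A.one_mem hm A.h₀_mem) A.h₀_ne
  exact ((h1 S).inv.mul (hmon _ hT.f₀_mem hT.f₀_ne)).mul (h2.pow e).inv

/-- (A3): the elements of `ICl v F.R E` are quotients of elements of `k[Z]`, the denominator a
monomial, and the elements of `Z` are monomials, for all large `m`. -/
theorem exists_den (h : Ctx0 k v n) (A : AD k (Fin r ⊕ Fin D) E) (Z : Finset Ω)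
    (hZ0 : ∀ z ∈ Z, z ≠ 0) (hZE : IntermediateField.adjoin k (Z : Set Ω) = E) :
    ∃ m₁ : ℕ, ∀ m ≥ m₁, ∀ {ι : Type} [Fintype ι] (T : TD k v r ι) (f₀ : Ω) (α : Fin r → ι → ℤ)
      (S : Finset ι), TDm p A m T f₀ α S → ∀ (F : FR k v D) (c : Fin D → ι → k),
      FROf F T.x (yc T.b c) → Ainf k v T.x T.b ≤ ICl v F.R E →
      (∀ z ∈ Z, F.MonoIn (ICl v F.R E) z) ∧
      ∀ f ∈ ICl v F.R E, ∃ a ∈ Algebra.adjoin k (Z : Set Ω),
        ∃ b ∈ Algebra.adjoin k (Z : Set Ω), F.MonoIn (ICl v F.R E) b ∧ f = a / b := by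
  classical
  have hfin := A.fin
  obtain ⟨b₀, hb₀, hb₀0, hb₀V⟩ := ALLO83.exists_common_den (E := E) Z hZE A.V A.le
  have hZmem : ∀ z ∈ Z, z ∈ E := fun z hz => by
    rw [← hZE]; exact IntermediateField.subset_adjoin _ _ hz
  have hb₀E : b₀ ∈ E := by
    rw [← hZE]
    exact IntermediateField.algebra_adjoin_le_adjoin k _ hb₀
  obtain ⟨c₁, hc₁⟩ := ALLO83.exists_pow_quot A.one_mem (insert b₀ Z) (fun z hz => by
    rcases Finset.mem_insert.1 hz with rfl | hz
    · exact A.integrallyClosed.1 _ hb₀E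
    · exact A.integrallyClosed.1 _ (hZmem z hz))
  refine ⟨c₁, fun m hm ι _ T f₀ α S hT F c hF hA => ?_⟩
  have hd := hT.dat h.triv
  have hr := hF.rel hA
  have hmon : ∀ z ∈ insert b₀ Z, z ≠ 0 → ALLO83.IsMon T z := by
    intro z hz hz0
    obtain ⟨a, ha, b, hb, hb0, hab⟩ := hc₁ z hz
    exact ALLO83.mon_of_quot h.triv T A.one_mem hT.f₀_ne hT.span_eq hm ha hb hb0 hab hz0
  refine ⟨fun z hz => MonoIn_of_mon hF hA (hmon z (Finset.mem_insert_of_mem hz) (hZ0 z hz)),
    fun f hf => hd.den' hr hb₀ (hmon b₀ (Finset.mem_insert_self _ _) hb₀0) hb₀V hf⟩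

end Pool.Agent.ALLO
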