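import Pool.Agent.Lib.TAO.Main

/-!
# X6: toric Albanese with the decomposition group of the centre
-/

set_option autoImplicit false

namespace Pool.Agent.TAO

open Pool.Agent.LU1 (fixO mem_fixO)
open Submodule Module

universe u w

theorem isIntegral_iff_surj {O R L : Type*} [CommRing O] [CommRing R] [CommRing L] [Nontrivial R]
    [Algebra O L] [Algebra R L] (f : O →+* R) (hf : Function.Surjective f)
    (hfL : ∀ a, algebraMap R L (f a) = algebraMap O L a) (x : L) :
    IsIntegral O x ↔ IsIntegral R x := by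
  have hcomp : (algebraMap R L).comp f = algebraMap O L := RingHom.ext hfL
  constructor
  · rintro ⟨p, hp, hpx⟩
    refine ⟨p.map f, hp.map f, ?_⟩
    rw [Polynomial.eval₂_map, hcomp]
    exact hpx
  · rintro ⟨p, hp, hpx⟩
    obtain ⟨q, hq, -, hqm⟩ := Polynomial.lifts_and_natDegree_eq_and_monic
      (f := f) (p := p) ((Polynomial.mem_lifts p).2 (Polynomial.map_surjective f hf p)) hp
    refine ⟨q, hqm, ?_⟩
    rw [← hcomp, ← Polynomial.eval₂_map, hq]
    exact hpx

variable {k Ω : Type u} [Field k] [Field Ω] [Algebra k Ω] {𝕂 : Type w} [Field 𝕂] [LinearOrder 𝕂] [IsStrictOrderedRing 𝕂] {v : OVal 𝕂 Ω} {n r D : ℕ}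
  {ι : Type} [Fintype ι]

omit [Fintype ι] in
theorem y_mem_Ax {y : Fin D → Ω} {x : Fin r → Ω} {b : ι → Ω} (hy : ∀ j, y j ∈ Wb k b) (j : Fin D) :
    y j ∈ Ax k x b := Wb_le_Ax₅ x b (hy j)

omit [Fintype ι] in
theorem adjoin_le_Ax {y : Fin D → Ω} {x : Fin r → Ω} {b : ι → Ω} (hy : ∀ j, y j ∈ Wb k b) :
    Algebra.adjoin k (Set.range x ∪ Set.range y) ≤ Ax k x b := by
  refine Algebra.adjoin_le ?_
  rintro _ (⟨i, rfl⟩ | ⟨j, rfl⟩)
  · exact x_mem_Ax₅ x b i
  · exact y_mem_Ax hy j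

/-- Zariski's main theorem for `A` and `k[x, y]`: every element of `A` is a quotient of elements
integral over `k[x, y]`, with a power of a fixed denominator outside the centre. -/
theorem zmt_Ax (h : Ctx0 k v n) (T : TD k v r ι) (hpos : ∀ i, 0 < v (T.x i))
    (y : Fin D → Ω) (s₀ : ℕ) (hy : ∀ j, y j ∈ Wb k T.b)
    (hrel : Wb k T.b ^ (s₀ + 1) ≤ span k (Set.range y) * Wb k T.b ^ s₀ ⊔ XA k T.x T.b ⊔
        Wb k T.b ^ (s₀ + 2) * (Ax k T.x T.b).toSubmodule) :
    ∃ h' ∈ Ax k T.x T.b, ¬ VPos v h' ∧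
      IsIntegral (Algebra.adjoin k (Set.range T.x ∪ Set.range y)) h' ∧
      ∀ g ∈ Ax k T.x T.b, ∃ e : ℕ,
        IsIntegral (Algebra.adjoin k (Set.range T.x ∪ Set.range y)) (h' ^ e * g) := by
  classical
  set A := Ax k T.x T.b with hA
  set O := Algebra.adjoin k (Set.range T.x ∪ Set.range y) with hO
  have hOA : O ≤ A := adjoin_le_Ax hy
  -- elements of `W` and `A`
  have hWpos : ∀ w ∈ Wb k T.b, VPos v w := fun w hw => vpos_Wb h T.b_res hw
  have hAge : ∀ g ∈ A, v.Ge 0 g := fun g hg => ge_Ax h hpos T.b_ne T.b_res hg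
  have hWA : ∀ w ∈ Wb k T.b, w ∈ A := fun w hw => Wb_le_Ax₅ _ _ hw
  have hxA : ∀ i, T.x i ∈ A := fun i => x_mem_Ax₅ _ _ i
  -- algebra structures
  let algOA : Algebra O A := (Subalgebra.inclusion hOA).toRingHom.toAlgebra
  have htowA : IsScalarTower k O A := IsScalarTower.of_algebraMap_eq fun c => rfl
  have hOA' : ∀ P : O, ((algebraMap O A P : A) : Ω) = (P : Ω) := fun P => rfl
  have hftA : Algebra.FiniteType k A := by
    rw [← Subalgebra.fg_iff_finiteType, hA, Ax]
    exact Subalgebra.fg_def.2 ⟨_,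
      ((Set.finite_range _).union ((Set.finite_range _).union (Set.finite_range _))), rfl⟩
  let m : Ideal A :=
    { carrier := {g | VPos v (g : Ω)}
      zero_mem' := VPos.zero
      add_mem' := fun ha hb => VPos.add ha hb
      smul_mem' := fun a b hb => VPos.mul' (hAge a a.2) hb }
  have hmm : ∀ g : A, g ∈ m ↔ VPos v (g : Ω) := fun _ => Iff.rfl
  have hres : ∀ a : A, ∃ c : k, a - algebraMap k A c ∈ m := by
    intro a
    by_cases ha : VPos v (a : Ω)
    · refine ⟨0, ?_⟩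
      rw [map_zero, sub_zero]
      exact ha
    · unfold VPos at ha
      push Not at ha
      obtain ⟨ha0, ha1⟩ := ha
      have h1 : v (a : Ω) = 0 := le_antisymm ha1 (hAge a a.2 ha0)
      obtain ⟨c, -, hc⟩ := h.res (a : Ω) ha0 h1
      exact ⟨c, hc⟩
  have hmax : m.IsMaximal := by
    have h1 : (1 : A) ∉ m := by
      intro h2
      have h3 : VPos v (1 : Ω) := h2
      have h4 := h3 one_ne_zero
      rw [v.map_one] at h4
      exact lt_irrefl _ h4
    refine Ideal.isMaximal_iff.2 ⟨h1, ?_⟩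
    intro J a hmJ ham haJ
    obtain ⟨c, hc⟩ := hres a
    have h2 : algebraMap k A c ∈ J := by
      have : algebraMap k A c = a - (a - algebraMap k A c) := by ring
      rw [this]
      exact J.sub_mem haJ (hmJ hc)
    have hc0 : c ≠ 0 := by
      rintro rfl
      rw [map_zero, sub_zero] at hc
      exact ham hc
    have h3 := J.mul_mem_left (algebraMap k A c⁻¹) h2
    rwa [← map_mul, inv_mul_cancel₀ hc0, map_one] at h3
  -- the ideal `m` is `(x) + W A`
  let Q : Ideal A := (m.under O).map (algebraMap O A)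
  have hxO : ∀ i, T.x i ∈ O := fun i => Algebra.subset_adjoin (Or.inl ⟨i, rfl⟩)
  have hyO : ∀ j, y j ∈ O := fun j => Algebra.subset_adjoin (Or.inr ⟨j, rfl⟩)
  have hxQ₀ : ∀ i, (⟨T.x i, hxA i⟩ : A) ∈ Q := by
    intro i
    have h1 : (⟨T.x i, hxA i⟩ : A) = algebraMap O A ⟨T.x i, hxO i⟩ := Subtype.ext rfl
    rw [h1]
    refine Ideal.mem_map_of_mem _ ?_
    rw [Ideal.under_def, Ideal.mem_comap, hmm]
    exact fun _ => hpos i
  have hyQ₀ : ∀ j, (⟨y j, hWA _ (hy j)⟩ : A) ∈ Q := by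
    intro j
    have h1 : (⟨y j, hWA _ (hy j)⟩ : A) = algebraMap O A ⟨y j, hyO j⟩ := Subtype.ext rfl
    rw [h1]
    refine Ideal.mem_map_of_mem _ ?_
    rw [Ideal.under_def, Ideal.mem_comap, hmm]
    exact hWpos _ (hy j)
  have hxQ : ∀ g : A, (g : Ω) ∈ XA k T.x T.b → g ∈ Q := by
    intro g hg
    have h1 : XA k T.x T.b ≤ (Q.restrictScalars k).map A.val.toLinearMap := by
      rw [XA, Submodule.mul_le]
      intro a ha c hc
      have h2 : span k (Set.range T.x) ≤ (Q.restrictScalars k).map A.val.toLinearMap := by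
        rw [span_le]
        rintro _ ⟨i, rfl⟩
        exact ⟨_, hxQ₀ i, rfl⟩
      obtain ⟨a', ha', rfl⟩ := h2 ha
      exact ⟨a' * ⟨c, hc⟩, Q.mul_mem_right _ ha', rfl⟩
    obtain ⟨g', hg', hgg⟩ := h1 hg
    have h3 : g' = g := Subtype.ext hgg
    rw [← h3]
    exact hg'
  have hWs : ∀ t : ℕ, Wb k T.b ^ t ≤ Subalgebra.toSubmodule A := by
    intro t
    induction t with
    | zero => rw [pow_zero, Submodule.one_le]; exact A.one_mem
    | succ t ih =>
      rw [pow_succ, Submodule.mul_le]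
      exact fun a ha c hc => A.mul_mem (ih ha) (hWA c hc)
  have hyQ : ∀ g : A, (g : Ω) ∈ span k (Set.range y) * Wb k T.b ^ s₀ → g ∈ Q := by
    intro g hg
    have h1 : span k (Set.range y) * Wb k T.b ^ s₀ ≤
        (Q.restrictScalars k).map A.val.toLinearMap := by
      rw [Submodule.mul_le]
      intro a ha c hc
      have h2 : span k (Set.range y) ≤ (Q.restrictScalars k).map A.val.toLinearMap := by
        rw [span_le]
        rintro _ ⟨j, rfl⟩
        exact ⟨_, hyQ₀ j, rfl⟩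
      obtain ⟨a', ha', rfl⟩ := h2 ha
      exact ⟨a' * ⟨c, hWs s₀ hc⟩, Q.mul_mem_right _ ha', rfl⟩
    obtain ⟨g', hg', hgg⟩ := h1 hg
    have h3 : g' = g := Subtype.ext hgg
    rw [← h3]
    exact hg'
  have hWm : ∀ g : A, (g : Ω) ∈ Wb k T.b → g ∈ m := fun g hg => hWpos _ hg
  -- powers of `W` times `A` lie in powers of `m`
  have hWpow : ∀ (t : ℕ) (g : A),
      (g : Ω) ∈ Wb k T.b ^ t * Subalgebra.toSubmodule A → g ∈ m ^ t := by
    intro t
    have h1 : Wb k T.b ^ t * Subalgebra.toSubmodule A ≤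
        ((m ^ t).restrictScalars k).map A.val.toLinearMap := by
      induction t with
      | zero =>
        rw [pow_zero, one_mul]
        intro g hg
        exact ⟨⟨g, hg⟩, by simp, rfl⟩
      | succ t ih =>
        rw [pow_succ', mul_assoc, Submodule.mul_le]
        intro a ha c hc
        obtain ⟨c', hc', rfl⟩ := ih hc
        refine ⟨⟨a, hWA a ha⟩ * c', ?_, rfl⟩
        change _ ∈ m ^ (t + 1)
        rw [pow_succ']
        exact Ideal.mul_mem_mul (hWm _ ha) hc'
    intro g hg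
    obtain ⟨g', hg', hgg⟩ := h1 hg
    have h3 : g' = g := Subtype.ext hgg
    rw [← h3]
    exact hg'
  have hmle : ∀ g ∈ m, ∃ a ∈ Q, ∃ c : A, (c : Ω) ∈ Wb k T.b * Subalgebra.toSubmodule A ∧
      g = a + c := by
    intro g hg
    obtain ⟨p, hp, c, hc, hpc⟩ := Submodule.mem_sup.1 (Ax_le' T.x T.b T.b_ne g.2)
    obtain ⟨e, he, a, ha, hea⟩ := Submodule.mem_sup.1 hp
    obtain ⟨e, rfl⟩ := Submodule.mem_one.1 he
    have haA : a ∈ A := (by
      have h1 : span k (Set.range T.x) * Subalgebra.toSubmodule A ≤ Subalgebra.toSubmodule A := by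
        rw [Submodule.mul_le]
        intro p hp q hq
        have h2 : span k (Set.range T.x) ≤ Subalgebra.toSubmodule A := by
          rw [span_le]
          rintro _ ⟨i, rfl⟩
          exact hxA i
        exact A.mul_mem (h2 hp) hq
      exact h1 ha)
    have hcA : c ∈ A := (by
      have h1 : Wb k T.b * Subalgebra.toSubmodule A ≤ Subalgebra.toSubmodule A := by
        rw [Submodule.mul_le]
        exact fun p hp q hq => A.mul_mem (hWA p hp) hq
      exact h1 hc)
    have haQ : (⟨a, haA⟩ : A) ∈ Q := hxQ _ ha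
    have ham : (⟨a, haA⟩ : A) ∈ m := (Ideal.map_le_iff_le_comap.2 le_rfl : Q ≤ m) haQ
    have hcm : (⟨c, hcA⟩ : A) ∈ m := by
      have h1 := hWpow 1 ⟨c, hcA⟩ (by rw [pow_one]; exact hc)
      rwa [pow_one] at h1
    have he0 : e = 0 := by
      by_contra he0
      have h1 : (algebraMap k A e) ∈ m := by
        have h2 : algebraMap k A e = g - ⟨a, haA⟩ - ⟨c, hcA⟩ := by
          apply Subtype.ext
          change algebraMap k Ω e = (g : Ω) - a - c
          rw [← hpc, ← hea]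
          ring
        rw [h2]
        exact m.sub_mem (m.sub_mem hg ham) hcm
      have h3 : VPos v (algebraMap k Ω e) := h1
      have h4 := h3 (by simpa using he0)
      rw [h.triv e he0] at h4
      exact lt_irrefl _ h4
    refine ⟨⟨a, haA⟩, haQ, ⟨c, hcA⟩, hc, ?_⟩
    apply Subtype.ext
    change (g : Ω) = a + c
    rw [← hpc, ← hea, he0, map_zero, zero_add]
  -- `m^(t+1) ⊆ Q + W^(t+1) A`
  have hmpow : ∀ (t : ℕ), ∀ g ∈ m ^ t, ∃ a ∈ Q, ∃ c : A,
      (c : Ω) ∈ Wb k T.b ^ t * Subalgebra.toSubmodule A ∧ g = a + c := by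
    intro t
    induction t with
    | zero =>
      intro g _
      exact ⟨0, Q.zero_mem, g, by rw [pow_zero, one_mul]; exact g.2, by rw [zero_add]⟩
    | succ t ih =>
      intro g hg
      rw [pow_succ'] at hg
      induction hg using Submodule.mul_induction_on' with
      | mem_mul_mem p hp q hq =>
        obtain ⟨a, ha, c, hc, rfl⟩ := hmle p hp
        obtain ⟨a', ha', c', hc', rfl⟩ := ih q hq
        refine ⟨a * (a' + c') + c * a', Q.add_mem (Q.mul_mem_right _ ha) (Q.mul_mem_left _ ha'),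
          c * c', ?_, by ring⟩
        have h1 := Submodule.mul_mem_mul hc hc'
        have h2 : (Wb k T.b * Subalgebra.toSubmodule A) *
            (Wb k T.b ^ t * Subalgebra.toSubmodule A) ≤
            Wb k T.b ^ (t + 1) * Subalgebra.toSubmodule A := by
          rw [mul_mul_mul_comm, ← pow_succ']
          exact mul_le_mul' le_rfl (Ax_mul_self₅ T.x T.b)
        exact h2 h1
      | add p _ q _ hp hq =>
        obtain ⟨a, ha, c, hc, rfl⟩ := hp
        obtain ⟨a', ha', c', hc', rfl⟩ := hq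
        exact ⟨a + a', Q.add_mem ha ha', c + c', Submodule.add_mem _ hc hc', by ring⟩
  have hnil : m ^ (s₀ + 1) ≤ Q ⊔ m ^ (s₀ + 2) := by
    intro g hg
    obtain ⟨a, ha, c, hc, rfl⟩ := hmpow (s₀ + 1) g hg
    refine Ideal.add_mem _ (Ideal.mem_sup_left ha) ?_
    -- `W^(s₀+1) A`
    have h1 : Wb k T.b ^ (s₀ + 1) * Subalgebra.toSubmodule A ≤
        ((Q ⊔ m ^ (s₀ + 2)).restrictScalars k).map A.val.toLinearMap := by
      rw [Submodule.mul_le]
      intro p hp q hq
      obtain ⟨p1, hp1, p2, hp2, rfl⟩ := Submodule.mem_sup.1 (hrel hp)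
      obtain ⟨p3, hp3, p4, hp4, rfl⟩ := Submodule.mem_sup.1 hp1
      -- all the pieces are in `A`
      have hp2A : p2 ∈ A := (by
        have h2 : Wb k T.b ^ (s₀ + 2) * Subalgebra.toSubmodule A ≤ Subalgebra.toSubmodule A := by
          rw [Submodule.mul_le]
          exact fun a ha c hc => A.mul_mem (hWs _ ha) hc
        exact h2 hp2)
      have hp4A : p4 ∈ A := (by
        have h2 : XA k T.x T.b ≤ Subalgebra.toSubmodule A := by
          rw [XA, Submodule.mul_le]
          intro p hp q hq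
          have h2 : span k (Set.range T.x) ≤ Subalgebra.toSubmodule A := by
            rw [span_le]
            rintro _ ⟨i, rfl⟩
            exact hxA i
          exact A.mul_mem (h2 hp) hq
        exact h2 hp4)
      have hp3A : p3 ∈ A := (by
        have h2 : span k (Set.range y) * Wb k T.b ^ s₀ ≤ Subalgebra.toSubmodule A := by
          rw [Submodule.mul_le]
          intro p hp q hq
          have h4 : span k (Set.range y) ≤ Subalgebra.toSubmodule A := by
            rw [span_le]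
            rintro _ ⟨i, rfl⟩
            exact hWA _ (hy i)
          exact A.mul_mem (h4 hp) (hWs s₀ hq)
        exact h2 hp3)
      refine ⟨(⟨p3, hp3A⟩ + ⟨p4, hp4A⟩ + ⟨p2, hp2A⟩) * ⟨q, hq⟩, ?_, rfl⟩
      change _ ∈ Q ⊔ m ^ (s₀ + 2)
      refine Ideal.mul_mem_right _ _ ?_
      refine Ideal.add_mem _ (Ideal.add_mem _ ?_ ?_) ?_
      · exact Ideal.mem_sup_left (hyQ _ hp3)
      · exact Ideal.mem_sup_left (hxQ _ hp4)
      · exact Ideal.mem_sup_right (hWpow _ _ hp2)
    obtain ⟨g', hg', hgg⟩ := h1 hc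
    have h3 : g' = c := Subtype.ext hgg
    rw [← h3]
    exact hg'
  obtain ⟨h', hh'm, hh'int, hh'⟩ := zmt_centre (O := O) m hres s₀ hnil
  -- transport to `Ω`
  let ψ : A →ₐ[O] Ω :=
    { toFun := fun g => (g : Ω)
      map_one' := rfl
      map_mul' := fun _ _ => rfl
      map_zero' := rfl
      map_add' := fun _ _ => rfl
      commutes' := fun _ => rfl }
  refine ⟨(h' : Ω), h'.2, hh'm, hh'int.map ψ, ?_⟩
  intro g hg
  obtain ⟨e, he⟩ := hh' ⟨g, hg⟩
  refine ⟨e, ?_⟩
  have h1 := he.map ψ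
  rw [map_mul, map_pow] at h1
  exact h1

/-- The automorphisms that preserve the centre of `v` on the integral closure of `O`. -/
def PresC {𝕂 : Type w} [Field 𝕂] [LinearOrder 𝕂] [IsStrictOrderedRing 𝕂] (v : OVal 𝕂 Ω) (O : Subalgebra k Ω) {F : IntermediateField k Ω} {N : IntermediateField F Ω}
    (σ : N ≃ₐ[F] N) : Prop :=
  ∀ a : N, IsIntegral O (a : Ω) → (VPos v (σ a : Ω) ↔ VPos v (a : Ω))

theorem isIntegral_sigma {O : Subalgebra k Ω} {F : IntermediateField k Ω}
    {N : IntermediateField F Ω} (hO : ∀ g ∈ O, g ∈ F) (σ : N ≃ₐ[F] N) {a : N}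
    (ha : IsIntegral O (a : Ω)) : IsIntegral O (σ a : Ω) := by
  obtain ⟨p, hp, hpa⟩ := ha
  refine ⟨p, hp, ?_⟩
  -- the coefficients in `F`
  let φ : O →+* F := 
    { toFun := fun g => ⟨(g : Ω), hO g g.2⟩
      map_one' := rfl
      map_mul' := fun _ _ => rfl
      map_zero' := rfl
      map_add' := fun _ _ => rfl }
  have h1 : ∀ z : N, Polynomial.eval₂ (algebraMap O Ω) (z : Ω) p =
      ((Polynomial.eval₂ (algebraMap F N) z (p.map φ) : N) : Ω) := by
    intro z
    rw [Polynomial.eval₂_map]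
    have h2 : algebraMap O Ω = (algebraMap N Ω).comp ((algebraMap F N).comp φ) :=
      RingHom.ext fun g => rfl
    rw [h2]
    exact (Polynomial.hom_eval₂ p ((algebraMap F N).comp φ) (algebraMap N Ω) z).symm
  rw [h1] at hpa ⊢
  have h3 : Polynomial.eval₂ (algebraMap F N) a (p.map φ) = 0 := by exact_mod_cast hpa
  have h4 : Polynomial.eval₂ (algebraMap F N) (σ a) (p.map φ) =
      σ (Polynomial.eval₂ (algebraMap F N) a (p.map φ)) := by
    rw [← Polynomial.aeval_def, ← Polynomial.aeval_def, Polynomial.aeval_algHom_apply σ]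
  rw [h4, h3, map_zero]
  rfl

/-- For a finite group it is enough to have one implication. -/
theorem PresC.of_imp {O : Subalgebra k Ω} {F : IntermediateField k Ω}
    {N : IntermediateField F Ω} (hO : ∀ g ∈ O, g ∈ F) (G : Subgroup (N ≃ₐ[F] N))
    (hG : ∀ σ ∈ G, ∀ a : N, IsIntegral O (a : Ω) → VPos v (a : Ω) → VPos v (σ a : Ω))
    {σ : N ≃ₐ[F] N} (hσ : σ ∈ G) : PresC v O σ := by
  intro a ha
  refine ⟨fun h1 => ?_, hG σ hσ a ha⟩
  have h2 := hG σ⁻¹ (G.inv_mem hσ) (σ a) (isIntegral_sigma hO σ ha) h1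
  have h3 : σ⁻¹ (σ a) = a := by
    rw [← AlgEquiv.mul_apply, inv_mul_cancel, AlgEquiv.one_apply]
  rwa [h3] at h2

/-- TA6a for the automorphisms that preserve the centre. -/
theorem exists_omega_dec (h : Ctx0 k v n) (hn : n = r + D)
    (E : IntermediateField k Ω) (halg : ∀ g : Ω, IsAlgebraic E g)
    (T : TD k v r ι) (hpos : ∀ i, 0 < v (T.x i))
    (hE : IntermediateField.adjoin k (Set.range T.x ∪ Set.range T.b) = E)
    (y : Fin D → Ω) (s₀ : ℕ) (hy : ∀ j, y j ∈ Wb k T.b)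
    (hrel : Wb k T.b ^ (s₀ + 1) ≤ span k (Set.range y) * Wb k T.b ^ s₀ ⊔ XA k T.x T.b ⊔
        Wb k T.b ^ (s₀ + 2) * (Ax k T.x T.b).toSubmodule)
    (F : IntermediateField k Ω) (hF : F = IntermediateField.adjoin k (Set.range T.x ∪ Set.range y))
    (hsep : ∀ g ∈ E, IsSeparable F g)
    (N : IntermediateField F Ω) [FiniteDimensional F N] [IsGalois F N] (hEN : ∀ g ∈ E, g ∈ N)
    (M₀ : ℕ) (hM : 0 < M₀) :
    ∃ ω : OVal ℝ Ω, (∀ i, ω (T.x i) = M₀) ∧ (∀ j, y j ≠ 0 ∧ ω (y j) = 1) ∧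
      (∀ c : k, c ≠ 0 → ω (algebraMap k Ω c) = 0) ∧
      (∀ P : MvPolynomial (Fin r ⊕ Fin D) k, P ≠ 0 →
        MvPolynomial.aeval (Sum.elim T.x y) P ≠ (0 : Ω) ∧ ∀ d ∈ P.support,
        ω (MvPolynomial.aeval (Sum.elim T.x y) P) ≤
          ((M₀ * ∑ i, d (Sum.inl i) + ∑ j, d (Sum.inr j) : ℕ) : ℝ)) ∧
      (∀ a : N, IsIntegral (Algebra.adjoin k (Set.range T.x ∪ Set.range y)) (a : Ω) →
        ω.Ge 0 (a : Ω) ∧ (VPos v (a : Ω) ↔ VPos ω (a : Ω))) ∧
      (∀ σ : N ≃ₐ[F] N, PresC v (Algebra.adjoin k (Set.range T.x ∪ Set.range y)) σ →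
        ∀ g : N, (g : Ω) ∈ Ax k T.x T.b → ω.Ge 0 (σ g : Ω)) ∧
      (∀ σ : N ≃ₐ[F] N, PresC v (Algebra.adjoin k (Set.range T.x ∪ Set.range y)) σ →
        ∀ g : N, (g : Ω) ∈ Ax k T.x T.b → VPos v (g : Ω) → VPos ω (σ g : Ω)) := by
  classical
  set A := Ax k T.x T.b with hA
  set u : Fin r ⊕ Fin D → Ω := Sum.elim T.x y with hu
  have hru : Set.range u = Set.range T.x ∪ Set.range y := by rw [hu, Set.Sum.elim_range]
  have hFu : F = IntermediateField.adjoin k (Set.range u) := by rw [hF, hru]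
  have huF : ∀ i, u i ∈ F := fun i => by
    rw [hFu]; exact IntermediateField.subset_adjoin _ _ ⟨i, rfl⟩
  set O' := Algebra.adjoin k (Set.range T.x ∪ Set.range y) with hO'
  have hO'F : ∀ g ∈ O', g ∈ F := by
    intro g hg
    have h1 : O' ≤ F.toSubalgebra := by
      rw [hO', hF]
      exact IntermediateField.algebra_adjoin_le_adjoin k _
    exact h1 hg
  -- elements of `W` and `A`
  have hWpos : ∀ w ∈ Wb k T.b, VPos v w := fun w hw => vpos_Wb h T.b_res hw
  have hAge : ∀ g ∈ A, v.Ge 0 g := fun g hg => ge_Ax h hpos T.b_ne T.b_res hg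
  have hWA : ∀ w ∈ Wb k T.b, w ∈ A := fun w hw => Wb_le_Ax₅ _ _ hw
  have hxA : ∀ i, T.x i ∈ A := fun i => x_mem_Ax₅ _ _ i
  have huA : ∀ i, u i ∈ A := by
    rintro (i | j)
    · exact hxA i
    · exact hWA _ (hy j)
  have hupos : ∀ i, VPos v (u i) := by
    rintro (i | j)
    · exact fun _ => hpos i
    · exact hWpos _ (hy j)
  have hAE : ∀ g ∈ A, g ∈ E := by
    intro g hg
    have h1 : A ≤ E.toSubalgebra := by
      refine Algebra.adjoin_le ?_
      rw [← hE]
      rintro z (⟨i, rfl⟩ | ⟨j, rfl⟩ | ⟨j, rfl⟩)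
      · exact IntermediateField.subset_adjoin _ _ (Or.inl ⟨i, rfl⟩)
      · exact IntermediateField.subset_adjoin _ _ (Or.inr ⟨j, rfl⟩)
      · change (T.b j)⁻¹ ∈ IntermediateField.adjoin k (Set.range T.x ∪ Set.range T.b)
        exact inv_mem (IntermediateField.subset_adjoin k (Set.range T.x ∪ Set.range T.b)
          (Or.inr ⟨j, rfl⟩))
    exact h1 hg
  -- `Ω` is algebraic over `F`, `N`
  have hFE : F ≤ E := by
    rw [hF, IntermediateField.adjoin_le_iff]
    rintro z (⟨i, rfl⟩ | ⟨j, rfl⟩)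
    · exact hAE _ (hxA i)
    · exact hAE _ (hWA _ (hy j))
  have halgF : ∀ g : Ω, IsAlgebraic F g := by
    let E1 : IntermediateField F Ω := IntermediateField.extendScalars hFE
    have h1 : Algebra.IsAlgebraic F E1 := by
      constructor
      intro z
      have h2 : IsSeparable F (z : Ω) := hsep z z.2
      have h3 : IsAlgebraic F (z : Ω) := h2.isIntegral.isAlgebraic
      exact IntermediateField.isAlgebraic_iff.2 h3
    have h2 : Algebra.IsAlgebraic E1 Ω := ⟨fun z => halg z⟩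
    have h3 : Algebra.IsAlgebraic F Ω := Algebra.IsAlgebraic.trans F E1 Ω
    exact fun g => h3.isAlgebraic g
  have halgN : ∀ g : Ω, IsAlgebraic N g := fun g => (halgF g).extendScalars
    (algebraMap F N).injective
  -- algebraic independence
  have hind : AlgebraicIndependent k u := by
    have h1 : Algebra.IsAlgebraic (Algebra.adjoin k (Set.range u)) Ω := by
      constructor
      intro x
      rw [← IntermediateField.isAlgebraic_adjoin_iff, ← hFu]
      exact halgF x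
    refine (Algebra.IsAlgebraic.isTranscendenceBasis_of_lift_le_trdeg_of_finite k u ?_).1
    rw [h.trdeg, hn]
    simp
  -- the weighted order
  let wt : Fin r ⊕ Fin D → ℕ := Sum.elim (fun _ => M₀) (fun _ => 1)
  obtain ⟨ω₀, hω₀⟩ := exists_weighted hind F huF hFu wt
  -- algebra structures
  let O := MvPolynomial (Fin r ⊕ Fin D) k
  let algOF : Algebra O F := (toAdj (k := k) u F huF).toRingHom.toAlgebra
  let algON : Algebra O N := ((algebraMap F N).comp (algebraMap O F)).toAlgebra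
  have htow : IsScalarTower O F N := IsScalarTower.of_algebraMap_eq fun _ => rfl
  have hfr : IsFractionRing O F := isFractionRing_toAdj hind F huF hFu
  have hOF : ∀ P : O, ((algebraMap O F P : F) : Ω) = MvPolynomial.aeval u P := fun P =>
    coe_toAdj u F huF P
  have hne : ∀ P : O, P ≠ 0 → MvPolynomial.aeval u P ≠ (0 : Ω) := fun P hP h0 =>
    hP (hind (by rw [h0, map_zero]))
  have hconst : ∀ P : O, P ≠ 0 → (0 < v (MvPolynomial.aeval u P) ↔
      MvPolynomial.constantCoeff P = 0) := by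
    intro P hP
    have h1 := vpos_aeval_iff h.triv u hupos P
    constructor
    · intro h2
      by_contra h3
      have h4 : algebraMap k Ω (MvPolynomial.constantCoeff P) ≠ 0 := by simpa using h3
      have h5 : VPos v (MvPolynomial.aeval u P - (MvPolynomial.aeval u P -
          algebraMap k Ω (MvPolynomial.constantCoeff P))) :=
        VPos.sub (fun _ => h2) h1.2
      rw [sub_sub_cancel] at h5
      have h6 := h5 h4
      rw [h.triv _ h3] at h6
      exact lt_irrefl _ h6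
    · intro h2
      have h3 := h1.2
      rw [h2, map_zero, sub_zero] at h3
      exact h3 (hne P hP)
  have hwt0 : ∀ P : O, P ≠ 0 → (0 < wo wt P ↔ MvPolynomial.constantCoeff P = 0) := by
    intro P hP
    constructor
    · intro h2
      by_contra h3
      have h4 : (0 : Fin r ⊕ Fin D →₀ ℕ) ∈ P.support := by
        rw [MvPolynomial.mem_support_iff]
        exact h3
      have h5 := wo_le wt h4
      rw [map_zero] at h5
      omega
    · intro h2
      obtain ⟨d, hd, hd'⟩ := exists_wo wt hP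
      rw [← hd']
      have hd0 : d ≠ 0 := by
        rintro rfl
        rw [MvPolynomial.mem_support_iff] at hd
        exact hd h2
      obtain ⟨i, hi⟩ := Finsupp.ne_iff.1 hd0
      have h3 : 0 < wt i := by
        rcases i with i | j
        · exact hM
        · exact one_pos
      have h4 : d i * wt i ≤ Finsupp.weight wt d := by
        rw [Finsupp.weight_apply, Finsupp.sum_fintype]
        · exact Finset.single_le_sum (f := fun j => d j • wt j) (fun _ _ => Nat.zero_le _)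
            (Finset.mem_univ i)
        · simp
      have h5 : 0 < d i * wt i := Nat.mul_pos (Nat.pos_of_ne_zero hi) h3
      omega
  obtain ⟨ω, hω1, hω2⟩ := exists_centre F N halgN O v ω₀
    (fun P hP => by
      rw [hOF]
      exact (vpos_aeval_iff h.triv u hupos P).1 (hne P hP))
    (fun P hP => by
      change 0 ≤ ω₀ (toAdj u F huF P)
      rw [hω₀ P hP]
      positivity)
    (fun P hP => by
      rw [hOF, hconst P hP]
      change _ ↔ 0 < ω₀ (toAdj u F huF P)
      rw [hω₀ P hP, ← hwt0 P hP]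
      exact Nat.cast_pos.symm)
  have hωP : ∀ P : O, P ≠ 0 → ω (MvPolynomial.aeval u P) = wo wt P := by
    intro P hP
    have h1 : toAdj u F huF P ≠ 0 := by
      intro h0
      apply hne P hP
      rw [← coe_toAdj u F huF, h0]
      rfl
    have h2 := hω1 (toAdj u F huF P) h1
    rw [coe_toAdj, hω₀ P hP] at h2
    exact h2
  have hωu : ∀ i, ω (u i) = wt i := by
    intro i
    have h1 := hωP (MvPolynomial.X i) (MvPolynomial.X_ne_zero i)
    rw [MvPolynomial.aeval_X, wo_X] at h1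
    exact h1
  -- integral over `O` and over the subalgebra
  have hOO' : ∀ a : N, IsIntegral O a ↔ IsIntegral O' (a : Ω) := by
    intro a
    let algOΩ : Algebra O Ω := ((algebraMap N Ω).comp (algebraMap O N)).toAlgebra
    have htow' : IsScalarTower O N Ω := IsScalarTower.of_algebraMap_eq fun _ => rfl
    have h1 : IsIntegral O a ↔ IsIntegral O (a : Ω) :=
      (isIntegral_algHom_iff (IsScalarTower.toAlgHom O N Ω) (algebraMap N Ω).injective).symm
    rw [h1]
    have hadj : O' = (MvPolynomial.aeval (R := k) u).range := by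
      rw [hO', ← hru, Algebra.adjoin_range_eq_range_aeval]
    let f : O →+* O' :=
      { toFun := fun P => ⟨MvPolynomial.aeval u P, by rw [hadj]; exact ⟨P, rfl⟩⟩
        map_one' := Subtype.ext (map_one _)
        map_mul' := fun _ _ => Subtype.ext (map_mul _ _ _)
        map_zero' := Subtype.ext (map_zero _)
        map_add' := fun _ _ => Subtype.ext (map_add _ _ _) }
    refine isIntegral_iff_surj f ?_ ?_ _
    · rintro ⟨g, hg⟩
      have hg' : g ∈ (MvPolynomial.aeval (R := k) u).range := by rw [← hadj]; exact hg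
      obtain ⟨P, hP⟩ := hg'
      exact ⟨P, Subtype.ext hP⟩
    · intro P
      change (MvPolynomial.aeval u P : Ω) = ((algebraMap O F P : F) : Ω)
      rw [hOF]
  have hωint : ∀ a : N, IsIntegral O' (a : Ω) →
      ω.Ge 0 (a : Ω) ∧ (VPos v (a : Ω) ↔ VPos ω (a : Ω)) := by
    intro a ha
    by_cases ha0 : a = 0
    · subst ha0
      exact ⟨OVal.Ge.zero, fun _ => VPos.zero,
        fun _ => VPos.zero⟩
    · have ha0' : (a : Ω) ≠ 0 := by simpa using ha0
      obtain ⟨h1, h2⟩ := hω2 a ((hOO' a).2 ha) ha0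
      exact ⟨fun _ => h1, fun h3 _ => h2.1 (h3 ha0'), fun h3 _ => h2.2 (h3 ha0')⟩
  -- Zariski's main theorem
  obtain ⟨h', hh'A, hh'm, hh'int, hh'⟩ := zmt_Ax h T hpos y s₀ hy hrel
  have hh'0 : h' ≠ 0 := by
    intro h0
    apply hh'm
    rw [h0]
    exact VPos.zero
  have hAN : ∀ g ∈ A, g ∈ N := fun g hg => hEN g (hAE g hg)
  let hN : N := ⟨h', hAN _ hh'A⟩
  have hN0 : hN ≠ 0 := fun h0 => hh'0 (congrArg (fun z : N => (z : Ω)) h0)
  have hkey : ∀ σ : N ≃ₐ[F] N, PresC v O' σ → ∀ g : N, (g : Ω) ∈ A →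
      ω.Ge 0 (σ g : Ω) ∧ (VPos v (g : Ω) → VPos ω (σ g : Ω)) := by
    intro σ hσ g hgA
    by_cases hg0 : g = 0
    · subst hg0
      rw [map_zero]
      exact ⟨OVal.Ge.zero, fun _ => VPos.zero⟩
    obtain ⟨e, he⟩ := hh' g hgA
    have he' : IsIntegral O' ((hN ^ e * g : N) : Ω) := he
    have hhN : IsIntegral O' (hN : Ω) := hh'int
    have h2 := isIntegral_sigma hO'F σ he'
    have h3 := isIntegral_sigma hO'F σ hhN
    have hσψ0 : σ hN ≠ 0 := by simpa using hN0
    have hσg0 : σ g ≠ 0 := by simpa using hg0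
    have h10 : ((σ hN : N) : Ω) ≠ 0 := by simpa using hσψ0
    have h11 : ((σ g : N) : Ω) ≠ 0 := by simpa using hσg0
    obtain ⟨h4, h5⟩ := hωint _ h2
    obtain ⟨h6, h7⟩ := hωint _ h3
    have h8 : ω (σ hN : Ω) = 0 := by
      refine le_antisymm ?_ (h6 h10)
      by_contra h9
      push Not at h9
      have h12 := (hσ hN hhN).1 (h7.2 fun _ => h9)
      exact hh'm h12
    have h9 : ω ((σ (hN ^ e * g) : N) : Ω) = ω (σ g : Ω) := by
      rw [map_mul, map_pow]
      change ω (((σ hN : N) : Ω) ^ e * ((σ g : N) : Ω)) = _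
      rw [ω.map_mul (pow_ne_zero _ h10) h11, ω.map_pow h10, h8, mul_zero, zero_add]
    have hprod0 : ((σ (hN ^ e * g) : N) : Ω) ≠ 0 := by
      rw [map_mul, map_pow]
      exact mul_ne_zero (pow_ne_zero _ h10) h11
    refine ⟨fun _ => ?_, fun h12 => ?_⟩
    · rw [← h9]; exact h4 hprod0
    · intro _
      rw [← h9]
      refine h5.1 ((hσ _ he').2 ?_) hprod0
      change VPos v (h' ^ e * (g : Ω))
      refine VPos.mul' ?_ h12
      intro h13
      rw [v.map_pow hh'0]
      have := hAge h' hh'A hh'0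
      positivity
  refine ⟨ω, ?_, ?_, ?_, ?_, hωint, fun σ hσ g hg => (hkey σ hσ g hg).1,
    fun σ hσ g hg => (hkey σ hσ g hg).2⟩
  · intro i
    exact hωu (Sum.inl i)
  · intro j
    refine ⟨?_, ?_⟩
    · exact hind.ne_zero (Sum.inr j)
    · have := hωu (Sum.inr j)
      simpa [u, wt] using this
  · intro c hc
    have h1 : (MvPolynomial.C c : O) ≠ 0 := by simpa using hc
    have h2 := hωP _ h1
    rw [MvPolynomial.algHom_C, wo_C wt hc, Nat.cast_zero] at h2
    exact h2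
  · intro P hP
    refine ⟨hne P hP, fun d hd => ?_⟩
    rw [hωP P hP]
    have h1 := wo_le wt hd
    have h2 : Finsupp.weight wt d = M₀ * ∑ i, d (Sum.inl i) + ∑ j, d (Sum.inr j) := by
      rw [Finsupp.weight_apply, Finsupp.sum_fintype]
      · rw [Fintype.sum_sum_type]
        simp only [wt, Sum.elim_inl, Sum.elim_inr, smul_eq_mul, mul_one]
        rw [Finset.mul_sum]
        congr 1
        exact Finset.sum_congr rfl fun i _ => mul_comm _ _
      · simp
    rw [← h2]
    exact_mod_cast h1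

set_option linter.unusedVariables false in
/-- TA6b: the count, for any group of automorphisms. -/
theorem count_sub (h : Ctx0 k v n) [IsAlgClosed k] (hn : n = r + D)
    (E : IntermediateField k Ω) (halg : ∀ g : Ω, IsAlgebraic E g)
    (T : TD k v r ι) (hpos : ∀ i, 0 < v (T.x i))
    (hE : IntermediateField.adjoin k (Set.range T.x ∪ Set.range T.b) = E)
    (hX : ∀ g ∈ Ab k T.b, g ∈ Is (k := k) v T.x T.b → g ∈ XA k T.x T.b)
    (y : Fin D → Ω) (s₀ : ℕ) (hy : ∀ j, y j ∈ Wb k T.b)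
    (hrel : Wb k T.b ^ (s₀ + 1) ≤ span k (Set.range y) * Wb k T.b ^ s₀ ⊔ XA k T.x T.b ⊔
        Wb k T.b ^ (s₀ + 2) * (Ax k T.x T.b).toSubmodule)
    (F : IntermediateField k Ω) (hF : F = IntermediateField.adjoin k (Set.range T.x ∪ Set.range y))
    (hsep : ∀ g ∈ E, IsSeparable F g)
    (N : IntermediateField F Ω) [FiniteDimensional F N] [IsGalois F N]
    (H : Subgroup (N ≃ₐ[F] N)) (hH : fixO F N H = E) (G : Subgroup (N ≃ₐ[F] N))
    (M₀ : ℕ) (hM : M₀ = s₀ + 1) (ω : OVal ℝ Ω)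
    (hωx : ∀ i, ω (T.x i) = M₀) (hωy : ∀ j, y j ≠ 0 ∧ ω (y j) = 1)
    (hωk : ∀ c : k, c ≠ 0 → ω (algebraMap k Ω c) = 0)
    (hωP : ∀ P : MvPolynomial (Fin r ⊕ Fin D) k, P ≠ 0 →
        MvPolynomial.aeval (Sum.elim T.x y) P ≠ (0 : Ω) ∧ ∀ d ∈ P.support,
        ω (MvPolynomial.aeval (Sum.elim T.x y) P) ≤
          ((M₀ * ∑ i, d (Sum.inl i) + ∑ j, d (Sum.inr j) : ℕ) : ℝ))
    (hω1 : ∀ σ ∈ G, ∀ g : N, (g : Ω) ∈ Ax k T.x T.b → ω.Ge 0 (σ g : Ω))
    (hω2 : ∀ σ ∈ G, ∀ g : N, (g : Ω) ∈ Ax k T.x T.b → VPos v (g : Ω) →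
        VPos ω (σ g : Ω)) :
    ∃ c : ℕ, ∀ s, H.relIndex (G) * cM r D M₀ (s - c) ≤
      qM r M₀ (beta k v T.x T.b) s := by
  classical
  subst hM
  -- memberships
  have hxF : ∀ i, T.x i ∈ F := fun i => by
    rw [hF]
    exact IntermediateField.subset_adjoin k _ (Or.inl ⟨i, rfl⟩)
  have hyF : ∀ j, y j ∈ F := fun j => by
    rw [hF]
    exact IntermediateField.subset_adjoin k _ (Or.inr ⟨j, rfl⟩)
  have hxE : ∀ i, T.x i ∈ E := fun i => by
    rw [← hE]
    exact IntermediateField.subset_adjoin k _ (Or.inl ⟨i, rfl⟩)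
  have hbE : ∀ j, T.b j ∈ E := fun j => by
    rw [← hE]
    exact IntermediateField.subset_adjoin k _ (Or.inr ⟨j, rfl⟩)
  have hAE : ∀ g ∈ Ax k T.x T.b, g ∈ E := by
    have h1 : Ax k T.x T.b ≤ E.toSubalgebra := by
      refine Algebra.adjoin_le ?_
      rintro g (⟨i, rfl⟩ | ⟨j, rfl⟩ | ⟨j, rfl⟩)
      · exact hxE i
      · exact hbE j
      · exact E.inv_mem (hbE j)
    exact fun g hg => h1 hg
  have hEN : ∀ g ∈ E, g ∈ N := by
    intro g hg
    rw [← hH, mem_fixO] at hg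
    obtain ⟨m, rfl, -⟩ := hg
    exact m.2
  have hAN : ∀ g ∈ Ax k T.x T.b, g ∈ N := fun g hg => hEN g (hAE g hg)
  have hWA := Wb_le_Ax₅ (k := k) T.x T.b
  -- the subspaces
  have hA : ∀ σ ∈ G, (Ax k T.x T.b).toSubmodule ≤ Vg hωk σ 0 := by
    intro σ hσ g hg
    exact ⟨⟨g, hAN g hg⟩, rfl, hω1 σ hσ _ hg⟩
  have hx : ∀ σ : N ≃ₐ[F] N, span k (Set.range T.x) ≤ Vg hωk σ (s₀ + 1 : ℕ) := by
    intro σ
    rw [Submodule.span_le]
    rintro _ ⟨i, rfl⟩
    refine mem_Vg_of_F (hxF i) ?_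
    intro _
    rw [hωx i]
  have hyV : ∀ σ : N ≃ₐ[F] N, span k (Set.range y) ≤ Vg hωk σ 1 := by
    intro σ
    rw [Submodule.span_le]
    rintro _ ⟨j, rfl⟩
    refine mem_Vg_of_F (hyF j) ?_
    intro _
    rw [(hωy j).2]
  have hWV : ∀ σ ∈ G, Wb k T.b ≤ Vg hωk σ 1 := by
    intro σ hσ
    refine Wb_le_Vg T.x T.b y s₀ hrel (hA σ hσ) (hx σ) (hyV σ) ?_
    intro j hj
    have h1 : T.b j - 1 ∈ Ax k T.x T.b := hWA (Submodule.subset_span ⟨j, rfl⟩)
    refine ⟨⟨T.b j - 1, hAN _ h1⟩, rfl, ?_⟩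
    refine hω2 σ hσ _ h1 (T.b_res j) ?_
    intro h2
    have h3 : σ ⟨T.b j - 1, hAN _ h1⟩ = 0 := by exact_mod_cast h2
    rw [map_eq_zero_iff σ σ.injective] at h3
    exact hj (congrArg Subtype.val h3)
  have hJ : ∀ σ ∈ G, ∀ s : ℕ, Js k T.x T.b (s₀ + 1) s ≤ Vg hωk σ s := by
    intro σ hσ s
    exact Js_le_Vg T.x T.b (s₀ + 1) (hA σ hσ) (hx σ) (hWV σ hσ) s
  -- representatives of the cosets
  have hfinQ : Finite (G ⧸ H.subgroupOf G) := inferInstance
  let e : (G ⧸ H.subgroupOf G) ≃ Fin (Nat.card (G ⧸ H.subgroupOf G)) :=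
    Finite.equivFin _
  let σ' : Fin (Nat.card (G ⧸ H.subgroupOf G)) → G := fun i => (e.symm i).out
  have hσ' : ∀ i j, i ≠ j → ((σ' i : N ≃ₐ[F] N))⁻¹ * (σ' j : N ≃ₐ[F] N) ∉ H := by
    intro i j hij hmem
    apply hij
    apply e.symm.injective
    have h1 : ((σ' i : G) : G ⧸ H.subgroupOf G) = (σ' j : G) := by
      rw [QuotientGroup.eq, Subgroup.mem_subgroupOf]
      exact hmem
    have h2 : ∀ i, ((σ' i : G) : G ⧸ H.subgroupOf G) = e.symm i := fun i =>
      QuotientGroup.out_eq' _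
    rw [h2, h2] at h1
    exact h1
  obtain ⟨c, hc⟩ := count_aux (hωk := hωk) T.x y (Ax k T.x T.b) hAN
    (x_mem_Ax₅ T.x T.b) (fun j => hWA (hy j)) hxF hyF (s₀ + 1) hωP
    (fun i => (σ' i : N ≃ₐ[F] N))
    (by
      intro i j hij
      by_contra hcon
      push Not at hcon
      refine hσ' i j hij ?_
      refine mem_H_of_fix H E hH _ hE _ ?_
      intro m hm
      have h1 : (m : Ω) ∈ Ax k T.x T.b := by
        rcases hm with ⟨l, hl⟩ | ⟨l, hl⟩
        · rw [← hl]
          exact x_mem_Ax₅ T.x T.b l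
        · rw [← hl]
          exact Ab_le_Ax₅ T.x T.b (b_mem T.b l)
      have h2 := hcon m h1
      rw [AlgEquiv.mul_apply, ← h2, ← AlgEquiv.mul_apply, inv_mul_cancel, AlgEquiv.one_apply])
    (fun i => hA _ (σ' i).2) (fun s => Js k T.x T.b (s₀ + 1) s)
    (fun i s => hJ _ (σ' i).2 s)
  refine ⟨c, fun s => ?_⟩
  obtain ⟨h1, h2⟩ := filt T hX (s₀ + 1) (Nat.succ_pos _) s
  exact (hc s h1).trans h2

theorem adjoin_sub_field {x : Fin r → Ω} {y : Fin D → Ω} {F : IntermediateField k Ω}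
    (hF : F = IntermediateField.adjoin k (Set.range x ∪ Set.range y)) :
    ∀ g ∈ Algebra.adjoin k (Set.range x ∪ Set.range y), g ∈ F := by
  intro g hg
  rw [hF]
  exact IntermediateField.algebra_adjoin_le_adjoin k _ hg

/-- TA with the decomposition group of the centre: for every group `G` of automorphisms of `N`
over `F = k(x, y)` that preserve the centre of `v` on the integral closure of `k[x, y]` and every
`c₀ ≤ [G : G ∩ H]`, the dimensions of the powers of the space `P` spanned by the `f_j` grow. -/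
theorem rho_qs (h : Ctx0 k v n) [IsAlgClosed k] (hn : n = r + D)
    (E : IntermediateField k Ω) (halg : ∀ g : Ω, IsAlgebraic E g)
    (T : TD k v r ι) (hpos : ∀ i, 0 < v (T.x i))
    (hE : IntermediateField.adjoin k (Set.range T.x ∪ Set.range T.b) = E)
    (hX : ∀ g ∈ Ab k T.b, g ∈ Is (k := k) v T.x T.b → g ∈ XA k T.x T.b)
    (y : Fin D → Ω) (s₀ : ℕ) (hy : ∀ j, y j ∈ Wb k T.b)
    (hrel : Wb k T.b ^ (s₀ + 1) ≤ span k (Set.range y) * Wb k T.b ^ s₀ ⊔ XA k T.x T.b ⊔
        Wb k T.b ^ (s₀ + 2) * (Ax k T.x T.b).toSubmodule)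
    (F : IntermediateField k Ω) (hF : F = IntermediateField.adjoin k (Set.range T.x ∪ Set.range y))
    (hsep : ∀ g ∈ E, IsSeparable F g)
    (N : IntermediateField F Ω) [FiniteDimensional F N] [IsGalois F N]
    (H : Subgroup (N ≃ₐ[F] N)) (hH : fixO F N H = E) (G : Subgroup (N ≃ₐ[F] N))
    (hG : ∀ σ ∈ G, ∀ a : N,
      IsIntegral (Algebra.adjoin k (Set.range T.x ∪ Set.range y)) (a : Ω) →
      VPos v (a : Ω) → VPos v (σ a : Ω))
    (c₀ : ℕ) (hc₀ : c₀ ≤ H.relIndex G) :
    ∃ c : ℕ, ∀ s, c < s → c₀ * (s - c - 1 + n).choose n ≤ qs r (beta k v T.x T.b) s := by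
  classical
  have hinf : Infinite k := IsAlgClosed.instInfinite
  have hEN : ∀ g ∈ E, g ∈ N := by
    intro g hg
    rw [← hH, mem_fixO] at hg
    obtain ⟨z, hz, -⟩ := hg
    rw [← hz]
    exact z.2
  obtain ⟨ω, hωx, hωy, hωk, hωP, -, hω1, hω2⟩ := exists_omega_dec h hn E halg T hpos hE y s₀ hy
    hrel F hF hsep N hEN (s₀ + 1) (Nat.succ_pos _)
  have hpres : ∀ σ ∈ G, PresC v (Algebra.adjoin k (Set.range T.x ∪ Set.range y)) σ :=
    fun σ hσ => PresC.of_imp (adjoin_sub_field hF) G hG hσ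
  obtain ⟨c₁, hc₁⟩ := count_sub h hn E halg T hpos hE hX y s₀ hy hrel F hF hsep N H hH G
    (s₀ + 1) rfl ω hωx hωy hωk hωP (fun σ hσ => hω1 σ (hpres σ hσ))
    (fun σ hσ => hω2 σ (hpres σ hσ))
  have hmono : Monotone (beta k v T.x T.b) := beta_mono h T
  refine ⟨r * (s₀ + 1) + c₁, fun s hs => ?_⟩
  refine le_trans ?_ (qM_le_qs (s₀ + 1) (Nat.succ_pos _) (beta k v T.x T.b) hmono
    (beta_zero T) s)
  have h1 := hc₁ (s - r * (s₀ + 1))
  have h2 := choose_le_cM (n := n) (r := r) (D := D) (s₀ + 1) (Nat.succ_pos _) hn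
    (s - (r * (s₀ + 1) + c₁)) (by omega)
  have h3 : s - r * (s₀ + 1) - c₁ = s - (r * (s₀ + 1) + c₁) := by omega
  rw [h3] at h1
  calc c₀ * (s - (r * (s₀ + 1) + c₁) - 1 + n).choose n
      ≤ H.relIndex G * ((s₀ + 1) ^ r * cM r D (s₀ + 1) (s - (r * (s₀ + 1) + c₁))) :=
        Nat.mul_le_mul hc₀ h2
    _ = (s₀ + 1) ^ r * (H.relIndex G *
          cM r D (s₀ + 1) (s - (r * (s₀ + 1) + c₁))) := by ring
    _ ≤ (s₀ + 1) ^ r * qM r (s₀ + 1) (beta k v T.x T.b) (s - r * (s₀ + 1)) :=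
        Nat.mul_le_mul_left _ h1

/-- TA with the decomposition group of the centre. -/
theorem rho_step (h : Ctx0 k v n) [IsAlgClosed k] (hn : n = r + D)
    (E : IntermediateField k Ω) (halg : ∀ g : Ω, IsAlgebraic E g)
    (T : TD k v r ι) (hpos : ∀ i, 0 < v (T.x i))
    (hE : IntermediateField.adjoin k (Set.range T.x ∪ Set.range T.b) = E)
    (hX : ∀ g ∈ Ab k T.b, g ∈ Is (k := k) v T.x T.b → g ∈ XA k T.x T.b)
    (y : Fin D → Ω) (s₀ : ℕ) (hy : ∀ j, y j ∈ Wb k T.b)
    (hrel : Wb k T.b ^ (s₀ + 1) ≤ span k (Set.range y) * Wb k T.b ^ s₀ ⊔ XA k T.x T.b ⊔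
        Wb k T.b ^ (s₀ + 2) * (Ax k T.x T.b).toSubmodule)
    (F : IntermediateField k Ω) (hF : F = IntermediateField.adjoin k (Set.range T.x ∪ Set.range y))
    (hsep : ∀ g ∈ E, IsSeparable F g)
    (N : IntermediateField F Ω) [FiniteDimensional F N] [IsGalois F N]
    (H : Subgroup (N ≃ₐ[F] N)) (hH : fixO F N H = E) (G : Subgroup (N ≃ₐ[F] N))
    (hG : ∀ σ ∈ G, ∀ a : N,
      IsIntegral (Algebra.adjoin k (Set.range T.x ∪ Set.range y)) (a : Ω) →
      VPos v (a : Ω) → VPos v (σ a : Ω))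
    (c₀ : ℕ) (hc₀ : c₀ ≤ H.relIndex G) :
    ∃ c : ℕ, ∀ s, c < s → Fintype.card ι * (c₀ * (s - c - 1 + n).choose n) ≤
      finrank k ((span k (Set.range fun j => T.b j * mx T.x (T.a j))) ^ (2 * s - 1) :
        Submodule k Ω) := by
  have hinf : Infinite k := IsAlgClosed.instInfinite
  obtain ⟨c, hc⟩ := rho_qs h hn E halg T hpos hE hX y s₀ hy hrel F hF hsep N H hH G hG c₀ hc₀
  exact ⟨c, fun s hs => (Nat.mul_le_mul_left _ (hc s hs)).trans (key h T s)⟩

end Pool.Agent.TAO
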