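import Pool.Agent.Lib.ALLO.LocV
import Pool.Agent.Lib.LU1_h15.Mk

/-!
# Frames with `D` free parameters (project ALL, section 5)

The frames are big frames in the sense of `LU1.BF`, with a family `y : Fin D → Ω` of parameters.
-/

set_option autoImplicit false

open Polynomial

namespace Pool.Agent.ALLO

open Pool.Agent.TAO (OVal VPos Ctx0 CtxR val_add_vpos)
open Pool.Agent.LU1 (quo le_quo)

universe u w

variable {k Ω : Type u} [Field k] [Field Ω] [Algebra k Ω]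
  {𝕂 : Type w} [Field 𝕂] [LinearOrder 𝕂] [IsStrictOrderedRing 𝕂] {v : OVal 𝕂 Ω} {n r D : ℕ}

/-! ### the context -/

theorem ctx_ge (h : CtxR k v n r) (c : k) : v.Ge 0 (algebraMap k Ω c) := by
  intro h0
  have : c ≠ 0 := by rintro rfl; simp at h0
  rw [h.triv c this]

/-- An element of the valuation ring has a residue in `k`. -/
theorem ctx_residue (h : CtxR k v n r) {f : Ω} (hf : v.Ge 0 f) :
    ∃ c : k, VPos v (f - algebraMap k Ω c) := by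
  by_cases h0 : f = 0
  · exact ⟨0, by simp [h0, VPos.zero]⟩
  rcases (hf h0).lt_or_eq with h1 | h1
  · exact ⟨0, by rw [_root_.map_zero, sub_zero]; exact fun _ => h1⟩
  · obtain ⟨c, -, hc⟩ := h.res f h0 h1.symm
    exact ⟨c, hc⟩

theorem ctx_const (h : CtxR k v n r) {c : k} (hc : VPos v (algebraMap k Ω c)) :
    c = 0 := by
  by_contra h0
  have := hc (by simpa using h0)
  rw [h.triv c h0] at this
  exact lt_irrefl _ this

theorem ctx_adjoin_nonneg (h : CtxR k v n r) {S : Set Ω} (hS : ∀ f ∈ S, v.Ge 0 f) :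
    ∀ f ∈ Algebra.adjoin k S, v.Ge 0 f := by
  intro f hf
  induction hf using Algebra.adjoin_induction with
  | mem x hx => exact hS x hx
  | algebraMap c => exact ctx_ge h c
  | add x y _ _ hx hy => exact hx.add hy
  | mul x y _ _ hx hy => simpa using hx.mul hy

theorem vpos_sum {ι : Type*} (s : Finset ι) (f : ι → Ω) (h : ∀ i ∈ s, VPos v (f i)) :
    VPos v (∑ i ∈ s, f i) := by
  classical
  induction s using Finset.induction_on with
  | empty => simpa using (VPos.zero : VPos v (0 : Ω))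
  | insert a s ha ih =>
    rw [Finset.sum_insert ha]
    exact (h a (Finset.mem_insert_self a s)).add
      (ih fun i hi => h i (Finset.mem_insert_of_mem hi))

/-- There are elements of positive value. -/
theorem ctx_exists_pos (h : CtxR k v n r) (hr : 0 < r) : ∃ g : Ω, g ≠ 0 ∧ 0 < v g := by
  obtain ⟨X, hX0, hX, -⟩ := h.rank
  have h1 : v (X ⟨0, hr⟩) ≠ 0 := hX.ne_zero ⟨0, hr⟩
  rcases lt_or_gt_of_ne h1 with h2 | h2
  · exact ⟨(X ⟨0, hr⟩)⁻¹, inv_ne_zero (hX0 _), by rw [v.map_inv (hX0 _)]; linarith⟩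
  · exact ⟨X ⟨0, hr⟩, hX0 _, h2⟩

/-! ### frames -/

/-- The elements `χ(γ) a + ∑ y_i b_i`, `γ > 0`, `a, b_i ∈ R`. -/
def MM (Γ : AddSubgroup 𝕂) (χ : 𝕂 → Ω) (y : Fin D → Ω) (R : Subalgebra k Ω) (f : Ω) : Prop :=
  ∃ γ ∈ Γ, 0 < γ ∧ ∃ a ∈ R, ∃ b : Fin D → Ω, (∀ i, b i ∈ R) ∧ f = χ γ * a + ∑ i, y i * b i

/-- The data of a frame except for the last conditions. -/
structure Pre (v : OVal 𝕂 Ω) (Γ : AddSubgroup 𝕂) (χ : 𝕂 → Ω) (y : Fin D → Ω)
    (R : Subalgebra k Ω) : Prop where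
  pos : ∃ γ ∈ Γ, 0 < γ
  mon : MonD v Γ χ
  y_ne : ∀ i, y i ≠ 0
  y_pos : ∀ i, 0 < v (y i)
  nonneg : ∀ f ∈ R, v.Ge 0 f
  loc : ∀ f ∈ R, f ≠ 0 → v f = 0 → f⁻¹ ∈ R
  χ_mem : ∀ γ ∈ Γ, 0 ≤ γ → χ γ ∈ R
  y_mem : ∀ i, y i ∈ R

namespace Pre

variable {Γ : AddSubgroup 𝕂} {χ : 𝕂 → Ω} {y : Fin D → Ω} {R : Subalgebra k Ω}

theorem χ_dvd (H : Pre v Γ χ y R) {γ δ : 𝕂} (h : γ ∈ Γ) (h' : δ ∈ Γ) (hle : δ ≤ γ) :
    ∃ a ∈ R, χ γ = χ δ * a :=
  ⟨χ (γ - δ), H.χ_mem _ (Γ.sub_mem h h') (sub_nonneg.2 hle), by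
    rw [← H.mon.add δ h' _ (Γ.sub_mem h h')]; congr 1; ring⟩

theorem mm_zero (H : Pre v Γ χ y R) : MM Γ χ y R 0 := by
  obtain ⟨γ, hγ, h0⟩ := H.pos
  exact ⟨γ, hγ, h0, 0, R.zero_mem, 0, fun _ => R.zero_mem, by simp⟩

theorem mm_χ (_H : Pre v Γ χ y R) {γ : 𝕂} (hγ : γ ∈ Γ) (h0 : 0 < γ) {a : Ω} (ha : a ∈ R) :
    MM Γ χ y R (χ γ * a) :=
  ⟨γ, hγ, h0, a, ha, 0, fun _ => R.zero_mem, by simp⟩

theorem mm_y (H : Pre v Γ χ y R) (i : Fin D) {a : Ω} (ha : a ∈ R) :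
    MM Γ χ y R (y i * a) := by
  classical
  obtain ⟨γ, hγ, h0⟩ := H.pos
  refine ⟨γ, hγ, h0, 0, R.zero_mem, fun j => if j = i then a else 0, fun j => ?_, ?_⟩
  · dsimp only
    split_ifs
    · exact ha
    · exact R.zero_mem
  · simp

theorem mm_add (H : Pre v Γ χ y R) {f g : Ω} (hf : MM Γ χ y R f) (hg : MM Γ χ y R g) :
    MM Γ χ y R (f + g) := by
  obtain ⟨γ, hγ, h0, a, ha, b, hb, rfl⟩ := hf
  obtain ⟨δ, hδ, h1, c, hc, d, hd, rfl⟩ := hg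
  rcases le_total γ δ with hle | hle
  · obtain ⟨e, he, h2⟩ := H.χ_dvd hδ hγ hle
    refine ⟨γ, hγ, h0, a + e * c, R.add_mem ha (R.mul_mem he hc), fun i => b i + d i,
      fun i => R.add_mem (hb i) (hd i), ?_⟩
    simp only [mul_add, Finset.sum_add_distrib]
    rw [h2]; ring
  · obtain ⟨e, he, h2⟩ := H.χ_dvd hγ hδ hle
    refine ⟨δ, hδ, h1, e * a + c, R.add_mem (R.mul_mem he ha) hc, fun i => b i + d i,
      fun i => R.add_mem (hb i) (hd i), ?_⟩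
    simp only [mul_add, Finset.sum_add_distrib]
    rw [h2]; ring

theorem mm_mul (_H : Pre v Γ χ y R) {f g : Ω} (hf : MM Γ χ y R f) (hg : g ∈ R) :
    MM Γ χ y R (f * g) := by
  obtain ⟨γ, hγ, h0, a, ha, b, hb, rfl⟩ := hf
  refine ⟨γ, hγ, h0, a * g, R.mul_mem ha hg, fun i => b i * g, fun i => R.mul_mem (hb i) hg, ?_⟩
  rw [add_mul, Finset.sum_mul]
  congr 1
  · ring
  · exact Finset.sum_congr rfl fun i _ => by ring

theorem mm_mul' (H : Pre v Γ χ y R) {f g : Ω} (hf : MM Γ χ y R f) (hg : g ∈ R) :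
    MM Γ χ y R (g * f) := by
  rw [mul_comm]; exact H.mm_mul hf hg

theorem mm_sum (H : Pre v Γ χ y R) {ι : Type*} (s : Finset ι) (f : ι → Ω)
    (h : ∀ i ∈ s, MM Γ χ y R (f i)) : MM Γ χ y R (∑ i ∈ s, f i) := by
  classical
  induction s using Finset.induction_on with
  | empty => simpa using H.mm_zero
  | insert a s ha ih =>
    rw [Finset.sum_insert ha]
    exact H.mm_add (h a (Finset.mem_insert_self a s))
      (ih fun i hi => h i (Finset.mem_insert_of_mem hi))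

theorem mm_mem (H : Pre v Γ χ y R) {f : Ω} (hf : MM Γ χ y R f) : f ∈ R := by
  obtain ⟨γ, hγ, h0, a, ha, b, hb, rfl⟩ := hf
  exact R.add_mem (R.mul_mem (H.χ_mem γ hγ h0.le) ha)
    (R.sum_mem fun i _ => R.mul_mem (H.y_mem i) (hb i))

theorem mm_vpos (H : Pre v Γ χ y R) {f : Ω} (hf : MM Γ χ y R f) : VPos v f := by
  obtain ⟨γ, hγ, h0, a, ha, b, hb, rfl⟩ := hf
  refine VPos.add (VPos.mul ?_ (H.nonneg a ha)) (vpos_sum _ _ fun i _ =>
    VPos.mul ?_ (H.nonneg _ (hb i)))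
  · intro _; rw [H.mon.val γ hγ]; exact h0
  · intro _; exact H.y_pos i

/-- `f` is a constant plus an element of `MM`. -/
def Res (Γ : AddSubgroup 𝕂) (χ : 𝕂 → Ω) (y : Fin D → Ω) (R : Subalgebra k Ω) (f : Ω) : Prop :=
  ∃ c : k, MM Γ χ y R (f - algebraMap k Ω c)

theorem res_mem (H : Pre v Γ χ y R) {f : Ω} (hf : Res Γ χ y R f) : f ∈ R := by
  obtain ⟨c, hc⟩ := hf
  have := R.add_mem (H.mm_mem hc) (R.algebraMap_mem c)
  rwa [sub_add_cancel] at this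

theorem res_const (H : Pre v Γ χ y R) (c : k) : Res Γ χ y R (algebraMap k Ω c) :=
  ⟨c, by rw [sub_self]; exact H.mm_zero⟩

theorem res_of_mm (_H : Pre v Γ χ y R) {f : Ω} (hf : MM Γ χ y R f) : Res Γ χ y R f :=
  ⟨0, by rwa [_root_.map_zero, sub_zero]⟩

theorem res_add (H : Pre v Γ χ y R) {f g : Ω} (hf : Res Γ χ y R f) (hg : Res Γ χ y R g) :
    Res Γ χ y R (f + g) := by
  obtain ⟨c, hc⟩ := hf
  obtain ⟨d, hd⟩ := hg
  refine ⟨c + d, ?_⟩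
  have := H.mm_add hc hd
  rw [_root_.map_add]
  convert this using 1
  ring

theorem res_mul (H : Pre v Γ χ y R) {f g : Ω} (hf : Res Γ χ y R f) (hg : Res Γ χ y R g) :
    Res Γ χ y R (f * g) := by
  have hgR := H.res_mem hg
  obtain ⟨c, hc⟩ := hf
  obtain ⟨d, hd⟩ := hg
  refine ⟨c * d, ?_⟩
  have := H.mm_add (H.mm_mul hc hgR) (H.mm_mul hd (R.algebraMap_mem c))
  rw [_root_.map_mul]
  convert this using 1
  ring

theorem res_inv (H : Pre v Γ χ y R) {f : Ω} (hf : Res Γ χ y R f) (h0 : f ≠ 0)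
    (h1 : v f = 0) : Res Γ χ y R f⁻¹ := by
  have hfR := H.res_mem hf
  have hi := H.loc f hfR h0 h1
  obtain ⟨c, hc⟩ := hf
  have hc0 : algebraMap k Ω c ≠ 0 := by
    intro h2
    have h3 := H.mm_vpos hc
    rw [h2, sub_zero] at h3
    have := h3 h0
    rw [h1] at this
    exact lt_irrefl _ this
  refine ⟨c⁻¹, ?_⟩
  have h2 : -(f⁻¹ * (algebraMap k Ω c⁻¹)) ∈ R :=
    R.neg_mem (R.mul_mem hi (R.algebraMap_mem _))
  have := H.mm_mul hc h2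
  rw [map_inv₀] at this ⊢
  convert this using 1
  field_simp
  ring

/-- If the generators are constants plus elements of `MM`, so is every element of the ring. -/
theorem res_all (H : Pre v Γ χ y R) {S : Set Ω} (hR : R = locv v (Algebra.adjoin k S))
    (hS : ∀ f ∈ S, Res Γ χ y R f) : ∀ f ∈ R, Res Γ χ y R f := by
  have key : ∀ f ∈ Algebra.adjoin k S, Res Γ χ y R f := by
    intro f hf
    induction hf using Algebra.adjoin_induction with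
    | mem x hx => exact hS x hx
    | algebraMap c => exact H.res_const c
    | add x z _ _ hx hz => exact H.res_add hx hz
    | mul x z _ _ hx hz => exact H.res_mul hx hz
  intro f hf
  have hf' := hf
  rw [hR] at hf'
  obtain ⟨a, ha, b, hb, hb0, hvb, rfl⟩ := hf'
  rw [div_eq_mul_inv]
  exact H.res_mul (key a ha) (H.res_inv (key b hb) hb0 hvb)

theorem gen (H : Pre v Γ χ y R) {S : Set Ω} (hR : R = locv v (Algebra.adjoin k S))
    (hS : ∀ f ∈ S, Res Γ χ y R f) (hk : ∀ c : k, c ≠ 0 → v (algebraMap k Ω c) = 0) :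
    ∀ f ∈ R, VPos v f → MM Γ χ y R f := by
  intro f hf hv
  obtain ⟨c, hc⟩ := H.res_all hR hS f hf
  have h1 : VPos v (algebraMap k Ω c) := by
    have := hv.sub (H.mm_vpos hc)
    rwa [sub_sub_cancel] at this
  have h2 : c = 0 := by
    by_contra h0
    have := h1 (by simpa using h0)
    rw [hk c h0] at this
    exact lt_irrefl _ this
  rwa [h2, _root_.map_zero, sub_zero] at hc

end Pre

/-- Construction of a frame from generators. -/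
noncomputable def mkFR {Γ : AddSubgroup 𝕂} {χ : 𝕂 → Ω} {y : Fin D → Ω} {R : Subalgebra k Ω}
    (H : Pre v Γ χ y R) (full : ∀ g : Ω, g ≠ 0 → ∃ m : ℕ, 0 < m ∧ (m : 𝕂) * v g ∈ Γ)
    (fg : Γ.FG) {S : Set Ω} (hR : R = locv v (Algebra.adjoin k S))
    (hS : ∀ f ∈ S, Pre.Res Γ χ y R f) (hk : ∀ c : k, c ≠ 0 → v (algebraMap k Ω c) = 0)
    (fgen : ∃ F : Finset Ω,
      R = locv v (Algebra.adjoin k ((F : Set Ω) ∪ χ '' {γ | γ ∈ Γ ∧ 0 ≤ γ})))
    (alg : ∀ g : Ω, IsAlgebraic R g) : FR k v D where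
  Γ := Γ
  fg := fg
  full := full
  χ := χ
  χ_ne := H.mon.ne
  χ_add := H.mon.add
  χ_val := H.mon.val
  y := y
  y_ne := H.y_ne
  y_pos := H.y_pos
  R := R
  nonneg := H.nonneg
  loc := H.loc
  χ_mem := H.χ_mem
  y_mem := H.y_mem
  fgen := fgen
  gen := fun f hf hv => H.gen hR hS hk f hf hv
  alg := alg

/-! ### basic facts on `FR` -/

namespace FR

variable (F : FR k v D)

theorem monD : MonD v F.Γ F.χ := ⟨F.χ_ne, F.χ_add, F.χ_val⟩

theorem χ_zero : F.χ 0 = 1 := F.monD.zero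

theorem χ_neg {γ : 𝕂} (h : γ ∈ F.Γ) : F.χ (-γ) = (F.χ γ)⁻¹ := F.monD.neg h

theorem χ_sub {γ δ : 𝕂} (h : γ ∈ F.Γ) (h' : δ ∈ F.Γ) : F.χ (γ - δ) = F.χ γ / F.χ δ := by
  rw [sub_eq_add_neg, F.χ_add γ h _ (F.Γ.neg_mem h'), F.χ_neg h', div_eq_mul_inv]

theorem χ_nsmul {γ : 𝕂} (h : γ ∈ F.Γ) (n : ℕ) : F.χ (n * γ) = F.χ γ ^ n := F.monD.nsmul h n

theorem exists_pos (h : CtxR k v n r) (hr : 0 < r) : ∃ δ ∈ F.Γ, 0 < δ := by
  obtain ⟨g, hg0, hg⟩ := ctx_exists_pos h hr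
  obtain ⟨m, hm, h1⟩ := F.full g hg0
  exact ⟨_, h1, mul_pos (by exact_mod_cast hm) hg⟩

theorem pre (h : CtxR k v n r) (hr : 0 < r) : Pre v F.Γ F.χ F.y F.R :=
  ⟨F.exists_pos h hr, F.monD, F.y_ne, F.y_pos, F.nonneg, F.loc, F.χ_mem, F.y_mem⟩

/-- Every element of the ring has a residue. -/
theorem exists_const (h : CtxR k v n r) {f : Ω} (hf : f ∈ F.R) :
    ∃ c : k, VPos v (f - algebraMap k Ω c) ∧ f - algebraMap k Ω c ∈ F.R := by
  obtain ⟨c, hc⟩ := ctx_residue h (F.nonneg f hf)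
  exact ⟨c, hc, F.R.sub_mem hf (F.R.algebraMap_mem c)⟩

variable {F}

theorem Un.inv {f : Ω} (h : F.Un f) : F.Un f⁻¹ :=
  ⟨F.loc f h.1 h.2.1 h.2.2, inv_ne_zero h.2.1, by rw [v.map_inv h.2.1, h.2.2, neg_zero]⟩

theorem Un.mul {f g : Ω} (h : F.Un f) (h' : F.Un g) : F.Un (f * g) :=
  ⟨F.R.mul_mem h.1 h'.1, mul_ne_zero h.2.1 h'.2.1, by
    rw [v.map_mul h.2.1 h'.2.1, h.2.2, h'.2.2, add_zero]⟩

theorem Un.div {f g : Ω} (h : F.Un f) (h' : F.Un g) : F.Un (f / g) := by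
  rw [div_eq_mul_inv]; exact h.mul h'.inv

theorem Un.one : F.Un 1 := ⟨F.R.one_mem, one_ne_zero, v.map_one⟩

theorem Un.pow {f : Ω} (h : F.Un f) (n : ℕ) : F.Un (f ^ n) := by
  induction n with
  | zero => simpa using Un.one
  | succ n ih => rw [pow_succ]; exact ih.mul h

theorem Un.zpow {f : Ω} (h : F.Un f) (n : ℤ) : F.Un (f ^ n) := by
  cases n with
  | ofNat n => simpa using h.pow n
  | negSucc n => rw [zpow_negSucc]; exact (h.pow _).inv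

theorem Un.const (h : CtxR k v n r) {c : k} (hc : c ≠ 0) : F.Un (algebraMap k Ω c) :=
  ⟨F.R.algebraMap_mem c, by simpa using hc, h.triv c hc⟩

/-- A unit plus an element of the ring of positive value is a unit. -/
theorem Un.add_vpos {f g : Ω} (h : F.Un f) (hg : g ∈ F.R) (hv : VPos v g) : F.Un (f + g) := by
  have := val_add_vpos h.2.1 h.2.2 hv
  exact ⟨F.R.add_mem h.1 hg, this.1, this.2⟩

theorem vpos_y (F : FR k v D) (i : Fin D) : VPos v (F.y i) := fun _ => F.y_pos i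

theorem vpos_χ {γ : 𝕂} (h : γ ∈ F.Γ) (h0 : 0 < γ) : VPos v (F.χ γ) := by
  intro _; rw [F.χ_val γ h]; exact h0

theorem mono_iff {f : Ω} : F.Mono f ↔ ∃ γ ∈ F.Γ, ∃ u, F.Un u ∧ f = F.χ γ * u := by
  constructor
  · rintro ⟨h0, h1, h2⟩
    exact ⟨v f, h1, _, h2, by rw [mul_div_cancel₀ _ (F.χ_ne _ h1)]⟩
  · rintro ⟨γ, hγ, u, hu, rfl⟩
    have hv : v (F.χ γ * u) = γ := by
      rw [v.map_mul (F.χ_ne γ hγ) hu.2.1, F.χ_val γ hγ, hu.2.2, add_zero]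
    refine ⟨mul_ne_zero (F.χ_ne γ hγ) hu.2.1, by rw [hv]; exact hγ, ?_⟩
    rw [hv, mul_div_cancel_left₀ _ (F.χ_ne γ hγ)]
    exact hu

theorem Mono.mul {f g : Ω} (h : F.Mono f) (h' : F.Mono g) : F.Mono (f * g) := by
  rw [mono_iff] at *
  obtain ⟨γ, hγ, u, hu, rfl⟩ := h
  obtain ⟨δ, hδ, w, hw, rfl⟩ := h'
  exact ⟨γ + δ, F.Γ.add_mem hγ hδ, u * w, hu.mul hw, by rw [F.χ_add γ hγ δ hδ]; ring⟩

theorem Mono.inv {f : Ω} (h : F.Mono f) : F.Mono f⁻¹ := by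
  rw [mono_iff] at *
  obtain ⟨γ, hγ, u, hu, rfl⟩ := h
  exact ⟨-γ, F.Γ.neg_mem hγ, u⁻¹, hu.inv, by rw [F.χ_neg hγ, mul_inv]⟩

theorem Mono.div {f g : Ω} (h : F.Mono f) (h' : F.Mono g) : F.Mono (f / g) := by
  rw [div_eq_mul_inv]; exact h.mul h'.inv

theorem Mono.un {u : Ω} (h : F.Un u) : F.Mono u :=
  mono_iff.2 ⟨0, F.Γ.zero_mem, u, h, by rw [F.χ_zero, one_mul]⟩

theorem Mono.χ {γ : 𝕂} (h : γ ∈ F.Γ) : F.Mono (F.χ γ) :=
  mono_iff.2 ⟨γ, h, 1, Un.one, by rw [mul_one]⟩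

theorem Mono.pow {f : Ω} (h : F.Mono f) (n : ℕ) : F.Mono (f ^ n) := by
  induction n with
  | zero => simpa using Mono.un Un.one
  | succ n ih => rw [pow_succ]; exact ih.mul h

theorem Mono.zpow {f : Ω} (h : F.Mono f) (n : ℤ) : F.Mono (f ^ n) := by
  cases n with
  | ofNat n => simpa using h.pow n
  | negSucc n => rw [zpow_negSucc]; exact (h.pow _).inv

theorem Mono.mem {f : Ω} (h : F.Mono f) (h0 : 0 ≤ v f) : f ∈ F.R := by
  obtain ⟨h1, h2, h3⟩ := h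
  have h4 : f = F.χ (v f) * (f / F.χ (v f)) := by rw [mul_div_cancel₀ _ (F.χ_ne _ h2)]
  rw [h4]
  exact F.R.mul_mem (F.χ_mem _ h2 h0) h3.1

theorem Mono.un_of_val {f : Ω} (h : F.Mono f) (h0 : v f = 0) : F.Un f :=
  ⟨h.mem h0.ge, h.1, h0⟩

/-- The monomials `χ(γ)`, `γ ≥ δ`, are divisible by `χ(δ)`. -/
theorem χ_dvd (F : FR k v D) {γ δ : 𝕂} (h : γ ∈ F.Γ) (h' : δ ∈ F.Γ) (hle : δ ≤ γ) :
    ∃ a ∈ F.R, F.χ γ = F.χ δ * a :=
  ⟨F.χ (γ - δ), F.χ_mem _ (F.Γ.sub_mem h h') (sub_nonneg.2 hle), by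
    rw [← F.χ_add δ h' _ (F.Γ.sub_mem h h')]; congr 1; ring⟩

end FR

/-! ### quotients whose denominator is a monomial -/

/-- The quotients `a / b` with `a, b ∈ R` and `b` a monomial of `F'`. -/
def Den (R : Subalgebra k Ω) (F' : FR k v D) : Subalgebra k Ω where
  carrier := {f | ∃ a ∈ R, ∃ b ∈ R, F'.Mono b ∧ f = a / b}
  mul_mem' := by
    rintro f g ⟨a, ha, b, hb, hb0, rfl⟩ ⟨c, hc, d, hd, hd0, rfl⟩
    exact ⟨a * c, R.mul_mem ha hc, b * d, R.mul_mem hb hd, hb0.mul hd0, by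
      rw [div_mul_div_comm]⟩
  add_mem' := by
    rintro f g ⟨a, ha, b, hb, hb0, rfl⟩ ⟨c, hc, d, hd, hd0, rfl⟩
    exact ⟨a * d + b * c, R.add_mem (R.mul_mem ha hd) (R.mul_mem hb hc), b * d,
      R.mul_mem hb hd, hb0.mul hd0, by rw [div_add_div _ _ hb0.1 hd0.1]⟩
  algebraMap_mem' := by
    intro c
    exact ⟨algebraMap k Ω c, R.algebraMap_mem c, 1, R.one_mem, FR.Mono.un FR.Un.one, by
      rw [div_one]⟩

theorem mem_den {R : Subalgebra k Ω} {F' : FR k v D} {f : Ω} :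
    f ∈ Den R F' ↔ ∃ a ∈ R, ∃ b ∈ R, F'.Mono b ∧ f = a / b := Iff.rfl

theorem le_den {R : Subalgebra k Ω} {F' : FR k v D} {f : Ω} (hf : f ∈ R) : f ∈ Den R F' :=
  ⟨f, hf, 1, R.one_mem, FR.Mono.un FR.Un.one, by rw [div_one]⟩

theorem den_inv {R : Subalgebra k Ω} {F' : FR k v D} {f : Ω} (hf : f ∈ Den R F')
    (h : F'.Mono f) : f⁻¹ ∈ Den R F' := by
  obtain ⟨a, ha, b, hb, hb0, rfl⟩ := hf
  have h1 : F'.Mono a := by
    have := h.mul hb0
    rwa [div_mul_cancel₀ _ hb0.1] at this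
  exact ⟨b, hb, a, ha, h1, by rw [inv_div]⟩

theorem den_zpow {R : Subalgebra k Ω} {F' : FR k v D} {f : Ω} (hf : f ∈ Den R F')
    (h : F'.Mono f) (n : ℤ) : f ^ n ∈ Den R F' := by
  cases n with
  | ofNat n => simpa using (Den R F').pow_mem hf n
  | negSucc n =>
    rw [zpow_negSucc]
    exact den_inv ((Den R F').pow_mem hf _) (h.pow _)

/-- If the generators of `F'.R` have monomial denominators, so have all elements. -/
theorem den_all {R : Subalgebra k Ω} {F' : FR k v D} {S : Set Ω}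
    (hR : F'.R = locv v (Algebra.adjoin k S)) (hS : ∀ f ∈ S, f ∈ Den R F') :
    ∀ f ∈ F'.R, f ∈ Den R F' := by
  have hP : Algebra.adjoin k S ≤ Den R F' := Algebra.adjoin_le hS
  intro f hf
  rw [hR] at hf
  obtain ⟨a, ha, b, hb, hb0, hvb, rfl⟩ := hf
  have hbm : F'.Mono b := FR.Mono.un ⟨by rw [hR]; exact le_locv _ hb, hb0, hvb⟩
  have h1 := (Den R F').mul_mem (hP ha) (den_inv (hP hb) hbm)
  rw [← div_eq_mul_inv] at h1
  exact h1

/-! ### refinements -/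

namespace FR.Le

variable {F F' F'' : FR k v D}

theorem refl (F : FR k v D) : F.Le F :=
  ⟨le_rfl, fun _ h => h, fun γ hγ => by rw [div_self (F.χ_ne γ hγ)]; exact FR.Un.one,
    fun f hf => ⟨f, hf, 1, F.R.one_mem, FR.Mono.un FR.Un.one, by rw [div_one]⟩⟩

theorem un (h : F.Le F') {u : Ω} (hu : F.Un u) : F'.Un u := ⟨h.le hu.1, hu.2⟩

theorem χ_mono (h : F.Le F') {γ : 𝕂} (hγ : γ ∈ F.Γ) : F'.Mono (F.χ γ) :=
  FR.mono_iff.2 ⟨γ, h.Γ_le γ hγ, _, h.χ_un γ hγ, by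
    rw [mul_div_cancel₀ _ (F'.χ_ne γ (h.Γ_le γ hγ))]⟩

theorem mono (h : F.Le F') {f : Ω} (hf : F.Mono f) : F'.Mono f := by
  obtain ⟨γ, hγ, u, hu, rfl⟩ := FR.mono_iff.1 hf
  exact (h.χ_mono hγ).mul (FR.Mono.un (h.un hu))

theorem trans (h : F.Le F') (h' : F'.Le F'') : F.Le F'' := by
  refine ⟨h.le.trans h'.le, fun γ hγ => h'.Γ_le γ (h.Γ_le γ hγ), fun γ hγ => ?_,
    fun f hf => ?_⟩
  · have h1 := (h'.un (h.χ_un γ hγ)).mul (h'.χ_un γ (h.Γ_le γ hγ))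
    rwa [div_mul_div_cancel₀ (F'.χ_ne γ (h.Γ_le γ hγ))] at h1
  · obtain ⟨a, ha, b, hb, hbm, rfl⟩ := h'.den f hf
    have hD : ∀ g ∈ F'.R, g ∈ Den F.R F'' := fun g hg => by
      obtain ⟨c, hc, d, hd, hdm, rfl⟩ := h.den g hg
      exact ⟨c, hc, d, hd, h'.mono hdm, rfl⟩
    have h1 := (Den F.R F'').mul_mem (hD a ha) (den_inv (hD b hb) hbm)
    rw [← div_eq_mul_inv] at h1
    exact h1

theorem quo_eq (h : F.Le F') : quo F'.R = quo F.R := by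
  refine le_antisymm ?_ (LU1.quo_mono h.le)
  rintro g ⟨a, ha, b, hb, -, rfl⟩
  obtain ⟨a1, ha1, a2, ha2, hm, rfl⟩ := h.den a ha
  obtain ⟨b1, hb1, b2, hb2, hm', rfl⟩ := h.den b hb
  exact (quo F.R).div_mem ((quo F.R).div_mem (le_quo ha1) (le_quo ha2))
    ((quo F.R).div_mem (le_quo hb1) (le_quo hb2))

end FR.Le

end Pool.Agent.ALLO
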