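import Pool.Agent.Lib.ALLO.Defs

/-!
# Basic lemmas on `locv`, multiplicative families (values in an ordered field)
-/

set_option autoImplicit false

namespace Pool.Agent.ALLO

open Pool.Agent.TAO

universe u w

variable {k Ω : Type u} [Field k] [Field Ω] [Algebra k Ω]
  {𝕂 : Type w} [Field 𝕂] [LinearOrder 𝕂] [IsStrictOrderedRing 𝕂] {v : OVal 𝕂 Ω}

theorem mem_locv {S : Subalgebra k Ω} {f : Ω} :
    f ∈ locv v S ↔ ∃ a ∈ S, ∃ b ∈ S, b ≠ 0 ∧ v b = 0 ∧ f = a / b := Iff.rfl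

theorem le_locv (S : Subalgebra k Ω) : S ≤ locv v S := by
  intro f hf
  exact ⟨f, hf, 1, S.one_mem, one_ne_zero, v.map_one, by rw [div_one]⟩

theorem locv_mono {S T : Subalgebra k Ω} (h : S ≤ T) : locv v S ≤ locv v T := by
  rintro f ⟨a, ha, b, hb, h1, h2, rfl⟩
  exact ⟨a, h ha, b, h hb, h1, h2, rfl⟩

theorem locv_le {S R : Subalgebra k Ω} (h : S ≤ R) (hR : ∀ f ∈ R, f ≠ 0 → v f = 0 → f⁻¹ ∈ R) :
    locv v S ≤ R := by
  rintro f ⟨a, ha, b, hb, h1, h2, rfl⟩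
  rw [div_eq_mul_inv]
  exact R.mul_mem (h ha) (hR b (h hb) h1 h2)

theorem locv_inv {S : Subalgebra k Ω} {f : Ω} (hf : f ∈ locv v S) (h0 : f ≠ 0) (h1 : v f = 0) :
    f⁻¹ ∈ locv v S := by
  obtain ⟨a, ha, b, hb, hb0, hvb, rfl⟩ := hf
  have ha0 : a ≠ 0 := by rintro rfl; simp at h0
  refine ⟨b, hb, a, ha, ha0, ?_, by rw [inv_div]⟩
  rw [v.map_div ha0 hb0, hvb, sub_zero] at h1
  exact h1

theorem locv_nonneg {S : Subalgebra k Ω} (hS : ∀ f ∈ S, v.Ge 0 f) :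
    ∀ f ∈ locv v S, v.Ge 0 f := by
  rintro f ⟨a, ha, b, hb, h1, h2, rfl⟩ h0
  have ha0 : a ≠ 0 := by rintro rfl; simp at h0
  rw [v.map_div ha0 h1, h2, sub_zero]
  exact hS a ha ha0

theorem locv_field {S : Subalgebra k Ω} {E : IntermediateField k Ω} (h : ∀ f ∈ S, f ∈ E) :
    ∀ f ∈ locv v S, f ∈ E := by
  rintro f ⟨a, ha, b, hb, -, -, rfl⟩
  exact E.div_mem (h a ha) (h b hb)

theorem locv_locv (S : Subalgebra k Ω) : locv v (locv v S) = locv v S :=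
  le_antisymm (locv_le le_rfl fun _ hf h0 h1 => locv_inv hf h0 h1) (le_locv _)

/-- If the generators `S` are in `locv k[T]`, then `locv k[S] ≤ locv k[T]`. -/
theorem locv_adjoin_le {S T : Set Ω} (h : ∀ f ∈ S, f ∈ locv v (Algebra.adjoin k T)) :
    locv v (Algebra.adjoin k S) ≤ locv v (Algebra.adjoin k T) := by
  have h1 : Algebra.adjoin k S ≤ locv v (Algebra.adjoin k T) := Algebra.adjoin_le h
  have h2 := locv_mono (v := v) h1
  rwa [locv_locv] at h2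

/-- Multiplicative family of monomials with the right values. -/
structure MonD (v : OVal 𝕂 Ω) (Γ : AddSubgroup 𝕂) (X : 𝕂 → Ω) : Prop where
  ne : ∀ γ ∈ Γ, X γ ≠ 0
  add : ∀ γ ∈ Γ, ∀ δ ∈ Γ, X (γ + δ) = X γ * X δ
  val : ∀ γ ∈ Γ, v (X γ) = γ

namespace MonD

variable {Γ : AddSubgroup 𝕂} {X : 𝕂 → Ω} (H : MonD v Γ X)
include H

theorem zero : X 0 = 1 := by
  have h := H.add 0 Γ.zero_mem 0 Γ.zero_mem
  rw [add_zero] at h
  exact (mul_right_cancel₀ (H.ne 0 Γ.zero_mem) (by rw [one_mul]; exact h)).symm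

theorem neg {γ : 𝕂} (h : γ ∈ Γ) : X (-γ) = (X γ)⁻¹ := by
  have h1 := H.add γ h (-γ) (Γ.neg_mem h)
  rw [add_neg_cancel, H.zero] at h1
  exact (inv_eq_of_mul_eq_one_right h1.symm).symm

theorem nsmul {γ : 𝕂} (h : γ ∈ Γ) (n : ℕ) : X (n * γ) = X γ ^ n := by
  induction n with
  | zero => simp [H.zero]
  | succ n ih =>
    have h1 : ((n + 1 : ℕ) : 𝕂) * γ = n * γ + γ := by push_cast; ring
    have h2 : (n : 𝕂) * γ ∈ Γ := by
      rw [← nsmul_eq_mul]; exact Γ.nsmul_mem h n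
    rw [h1, H.add _ h2 _ h, ih, pow_succ]

theorem zsmul {γ : 𝕂} (h : γ ∈ Γ) (n : ℤ) : X (n * γ) = X γ ^ n := by
  cases n with
  | ofNat n => simpa using H.nsmul h n
  | negSucc n =>
    have h2 : ((n + 1 : ℕ) : 𝕂) * γ ∈ Γ := by
      rw [← nsmul_eq_mul]; exact Γ.nsmul_mem h _
    have h1 : ((Int.negSucc n : ℤ) : 𝕂) * γ = -(((n + 1 : ℕ) : 𝕂) * γ) := by
      push_cast; ring
    rw [h1, H.neg h2, H.nsmul h, zpow_negSucc]

end MonD

end Pool.Agent.ALLO
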