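import Pool.Agent.Lib.ALLO.XDefs
import Pool.Agent.Lib.ALLO.LocV
import Pool.Agent.Lib.LU1_h15.GalSep
import Pool.Agent.Lib.TAO.CentreA
import Pool.Agent.Lib.ALLO_h5.Frame1

/-!
# ALLX, pieces of row R11: the Galois closure, and the cofactor of `G` in the product of its
conjugates
-/

set_option autoImplicit false

namespace Pool.Agent.ALLO

open Pool.Agent.TAO (OVal VPos)
open Pool.Agent.LU1 (fixO mem_fixO exists_galois_closure exists_fixO_eq)

universe u w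

variable {k Ω : Type u} [Field k] [Field Ω] [Algebra k Ω]
  {𝕂 : Type w} [Field 𝕂] [LinearOrder 𝕂] [IsStrictOrderedRing 𝕂] {v : OVal 𝕂 Ω} {D : ℕ}

/-- (A1): the Galois closure. -/
theorem exists_gal [IsAlgClosed Ω] (E K : IntermediateField k Ω) (hKE : K ≤ E)
    (hfg : ∃ S : Finset Ω, E = IntermediateField.adjoin k (S : Set Ω))
    (halg : ∀ g : Ω, IsAlgebraic K g) (hsep : ∀ g ∈ E, IsSeparable K g) :
    ∃ (N : IntermediateField K Ω) (_ : FiniteDimensional K N) (_ : IsGalois K N)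
      (H : Subgroup (N ≃ₐ[K] N)), fixO K N H = E := by
  obtain ⟨S, hS⟩ := hfg
  have hSE : ∀ g ∈ S, g ∈ E := by
    intro g hg
    rw [hS]
    exact IntermediateField.subset_adjoin _ _ hg
  obtain ⟨N, h1, h2, h3⟩ := exists_galois_closure K halg S (fun g hg => hsep g (hSE g hg))
  have hEN : ∀ g ∈ E, g ∈ N := by
    have : E ≤ N.restrictScalars k := by
      rw [hS, IntermediateField.adjoin_le_iff]
      exact fun g hg => h3 g hg
    exact fun g hg => this hg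
  obtain ⟨H, hH⟩ := exists_fixO_eq K N E hKE hEN
  exact ⟨N, h1, h2, H, hH⟩

theorem icl_field {R : Subalgebra k Ω} {E : IntermediateField k Ω} : ∀ g ∈ icl R E, g ∈ E :=
  fun _ hg => hg.1

theorem ICl_field {R : Subalgebra k Ω} {E : IntermediateField k Ω} : ∀ g ∈ ICl v R E, g ∈ E :=
  locv_field icl_field

variable {K : IntermediateField k Ω} {N : IntermediateField K Ω}

theorem fixO_le (H : Subgroup (N ≃ₐ[K] N)) {g : Ω} (hg : g ∈ fixO K N H) : g ∈ N := by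
  obtain ⟨m, rfl, -⟩ := (mem_fixO K N H g).1 hg
  exact m.2

/-- The elements of the decomposition group preserve the local ring at the centre. -/
theorem decP_ICl {R : Subalgebra k Ω} (hR : ∀ f ∈ R, v.Ge 0 f) {σ : N ≃ₐ[K] N}
    (hσ : σ ∈ decP v R K N) {G : N} (hG : (G : Ω) ∈ ICl v R (N.restrictScalars k)) :
    (σ G : Ω) ∈ ICl v R (N.restrictScalars k) := by
  obtain ⟨a, ha, s, hs, hs0, hvs, hGs⟩ := hG
  obtain ⟨a', rfl⟩ : ∃ a' : N, (a' : Ω) = a := ⟨⟨a, ha.1⟩, rfl⟩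
  obtain ⟨s', rfl⟩ : ∃ s' : N, (s' : Ω) = s := ⟨⟨s, hs.1⟩, rfl⟩
  have hs'0 : s' ≠ 0 := fun h0 => hs0 (by rw [h0]; rfl)
  have h1 : G = a' / s' := Subtype.ext hGs
  have h2 : (σ G : Ω) = (σ a' : Ω) / (σ s' : Ω) := by
    rw [h1, map_div₀]
    rfl
  have h3 := hσ s' hs.2
  have h4 : (σ s' : Ω) ≠ 0 := fun h0 => by
    have h5 : σ s' = 0 := Subtype.ext h0
    exact hs'0 ((map_eq_zero σ).1 h5)
  refine ⟨_, ⟨(σ a').2, (hσ a' ha.2).1⟩, _, ⟨(σ s').2, h3.1⟩, h4, ?_, h2⟩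
  have h5 : 0 ≤ v (σ s' : Ω) :=
    Pool.Agent.TAO.ge_of_isIntegral (fun a => hR _ a.2) h3.1 h4
  refine le_antisymm (not_lt.1 fun h6 => ?_) h5
  have h7 : VPos v (s' : Ω) := h3.2.2.2 fun _ => h6
  have h8 := h7 hs0
  rw [hvs] at h8
  exact lt_irrefl _ h8

theorem coe_prod_N' {ι : Type*} (s : Finset ι) (f : ι → N) :
    ((∏ i ∈ s, f i : N) : Ω) = ∏ i ∈ s, (f i : Ω) := map_prod N.val _ _

/-- (A4): `G` divides the product of its conjugates. -/
theorem exists_cofactor_of {R : Subalgebra k Ω} (hR : ∀ f ∈ R, v.Ge 0 f) {E : IntermediateField k Ω}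
    [FiniteDimensional K N] (H : Subgroup (N ≃ₐ[K] N)) (hH : fixO K N H = E) (G : N)
    (hG0 : G ≠ 0) (hG : (G : Ω) ∈ ICl v R E) :
    ∃ Q' : N, Q' ≠ 0 ∧ (Q' : Ω) ∈ ICl v R (N.restrictScalars k) ∧
      ((cosetProd (decP v R K N) H G : N) : Ω) = (G : Ω) * (Q' : Ω) := by
  classical
  have hfin : Finite (decP v R K N ⧸ H.subgroupOf (decP v R K N)) := inferInstance
  have := Fintype.ofFinite (decP v R K N ⧸ H.subgroupOf (decP v R K N))
  have hEN : ∀ g ∈ E, g ∈ N := fun g hg => fixO_le H (by rw [hH]; exact hg)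
  have hGN : (G : Ω) ∈ ICl v R (N.restrictScalars k) := by
    obtain ⟨a, ha, s, hs, hs0, hvs, hGs⟩ := hG
    exact ⟨a, ⟨hEN _ ha.1, ha.2⟩, s, ⟨hEN _ hs.1, hs.2⟩, hs0, hvs, hGs⟩
  have hGfix : ∀ σ ∈ H, σ G = G := by
    have h1 : (G : Ω) ∈ fixO K N H := by
      rw [hH]
      exact ICl_field _ hG
    obtain ⟨m, hm, hm'⟩ := (mem_fixO K N H _).1 h1
    have h2 : m = G := Subtype.ext hm
    rw [← h2]
    exact hm'
  set q₀ : decP v R K N ⧸ H.subgroupOf (decP v R K N) :=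
    QuotientGroup.mk (1 : decP v R K N) with hq₀
  set f : decP v R K N ⧸ H.subgroupOf (decP v R K N) → N := fun q =>
    ((q.out : decP v R K N) : N ≃ₐ[K] N) G with hf
  have hprod : cosetProd (decP v R K N) H G = ∏ q, f q := by
    rw [cosetProd, finprod_eq_prod_of_fintype]
  have hq1 : f q₀ = G := by
    have h1 : (QuotientGroup.mk q₀.out : decP v R K N ⧸ H.subgroupOf (decP v R K N)) =
        QuotientGroup.mk (1 : decP v R K N) := by
      rw [QuotientGroup.out_eq']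
    have h2 := QuotientGroup.eq.1 h1
    rw [mul_one] at h2
    have h3 := (H.subgroupOf (decP v R K N)).inv_mem h2
    rw [inv_inv, Subgroup.mem_subgroupOf] at h3
    exact hGfix _ h3
  refine ⟨∏ q ∈ Finset.univ.erase q₀, f q, ?_, ?_, ?_⟩
  · refine Finset.prod_ne_zero_iff.2 fun q _ => ?_
    exact (map_ne_zero _).2 hG0
  · rw [coe_prod_N']
    exact Subalgebra.prod_mem _ fun q _ => decP_ICl hR (q.out : decP v R K N).2 hGN
  · have h1 : (G : Ω) * ((∏ q ∈ Finset.univ.erase q₀, f q : N) : Ω) =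
        ((G * ∏ q ∈ Finset.univ.erase q₀, f q : N) : Ω) := rfl
    rw [h1, hprod]
    congr 1
    rw [← Finset.mul_prod_erase Finset.univ f (Finset.mem_univ q₀), hq1]

/-- (A4) for a frame. -/
theorem exists_cofactor {E : IntermediateField k Ω} {F : FR k v D} {K : IntermediateField k Ω}
    (hB : Pool.Agent.ALLO5.Base v F.R K) (N : IntermediateField K Ω) [FiniteDimensional K N]
    [IsGalois K N] (H : Subgroup (N ≃ₐ[K] N)) (hH : fixO K N H = E) (G : N) (hG0 : G ≠ 0)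
    (hG : (G : Ω) ∈ ICl v F.R E) :
    ∃ Q' : N, Q' ≠ 0 ∧ (Q' : Ω) ∈ ICl v F.R (N.restrictScalars k) ∧
      ((cosetProd (decP v F.R K N) H G : N) : Ω) = (G : Ω) * (Q' : Ω) :=
  exists_cofactor_of hB.nonneg H hH G hG0 hG

end Pool.Agent.ALLO
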