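import Pool.Agent.Lib.ALLO.J4Defs

/-!
# ALLDEFECT, block 4, row R44e: the lower growth of the powers of a generating space
-/

set_option autoImplicit false

namespace Pool.Agent.ALLO

open Pool.Agent.TAO
open Submodule Module

universe u w

variable {k Ω : Type u} [Field k] [Field Ω] [Algebra k Ω] {𝕂 : Type w} [Field 𝕂] [LinearOrder 𝕂] [IsStrictOrderedRing 𝕂] {v : OVal 𝕂 Ω} {n : ℕ}

theorem pow_mono_of_one_mem {V : Submodule k Ω} (hV : (1 : Ω) ∈ V) :
    Monotone fun t : ℕ => V ^ t := by
  have h1 : (1 : Submodule k Ω) ≤ V := one_le.2 hV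
  refine monotone_nat_of_le_succ fun t => ?_
  calc V ^ t = V ^ t * 1 := (mul_one _).symm
    _ ≤ V ^ t * V := mul_le_mul' le_rfl h1
    _ = V ^ (t + 1) := (pow_succ _ _).symm

/-- monomials in algebraically independent elements of `V` -/
theorem card_le_finrank_pow {V : Submodule k Ω} (hV : (1 : Ω) ∈ V) [FiniteDimensional k V]
    {w : Fin n → Ω} (hw : AlgebraicIndependent k w) (hwV : ∀ i, w i ∈ V) (b t : ℕ)
    (hbt : n * b ≤ t) : (b + 1) ^ n ≤ finrank k ↥(V ^ t) := by
  classical
  have hfd : FiniteDimensional k ↥(V ^ t) :=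
    Module.Finite.iff_fg.2 (Submodule.FG.pow (Module.Finite.iff_fg.1 inferInstance) t)
  -- the exponents
  let ex : (Fin n → Fin (b + 1)) → (Fin n →₀ ℕ) := fun β =>
    Finsupp.equivFunOnFinite.symm fun i => (β i : ℕ)
  have hex : Function.Injective ex := by
    intro β β' h
    have h1 := Finsupp.equivFunOnFinite.symm.injective h
    funext i
    exact Fin.ext (congrFun h1 i)
  have hind0 : LinearIndependent k fun α : Fin n →₀ ℕ =>
      MvPolynomial.aeval w (MvPolynomial.monomial α (1 : k)) := by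
    have h1 := (MvPolynomial.basisMonomials (Fin n) k).linearIndependent.map'
      (MvPolynomial.aeval w : MvPolynomial (Fin n) k →ₐ[k] Ω).toLinearMap
      (LinearMap.ker_eq_bot.2 hw)
    have e : (MvPolynomial.aeval w : MvPolynomial (Fin n) k →ₐ[k] Ω).toLinearMap ∘
        (MvPolynomial.basisMonomials (Fin n) k) =
        fun α : Fin n →₀ ℕ => MvPolynomial.aeval w (MvPolynomial.monomial α (1 : k)) := by
      funext α
      rw [Function.comp_apply, MvPolynomial.coe_basisMonomials]
      rfl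
    rwa [e] at h1
  have hval : ∀ β, MvPolynomial.aeval w (MvPolynomial.monomial (ex β) (1 : k)) =
      ∏ i, w i ^ (β i : ℕ) := by
    intro β
    rw [MvPolynomial.aeval_monomial, map_one, one_mul, Finsupp.prod_fintype]
    · rfl
    · intro i; exact pow_zero _
  have hmem : ∀ β : Fin n → Fin (b + 1), ∏ i, w i ^ (β i : ℕ) ∈ V ^ t := by
    intro β
    have h1 : ∀ s : Finset (Fin n), ∏ i ∈ s, w i ^ (β i : ℕ) ∈ V ^ (∑ i ∈ s, (β i : ℕ)) := by
      intro s
      induction s using Finset.induction with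
      | empty => simp
      | insert i s hi ih =>
        rw [Finset.prod_insert hi, Finset.sum_insert hi, pow_add]
        exact Submodule.mul_mem_mul (Submodule.pow_mem_pow V (hwV i) _) ih
    refine pow_mono_of_one_mem hV ?_ (h1 Finset.univ)
    calc ∑ i, (β i : ℕ) ≤ ∑ _i : Fin n, b :=
          Finset.sum_le_sum fun i _ => Nat.lt_succ_iff.1 (β i).2
      _ = n * b := by simp
      _ ≤ t := hbt
  have hind : LinearIndependent k fun β : Fin n → Fin (b + 1) =>
      (⟨∏ i, w i ^ (β i : ℕ), hmem β⟩ : ↥(V ^ t)) := by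
    refine LinearIndependent.of_comp (V ^ t).subtype ?_
    have e : (V ^ t).subtype ∘ (fun β : Fin n → Fin (b + 1) =>
        (⟨∏ i, w i ^ (β i : ℕ), hmem β⟩ : ↥(V ^ t))) =
        (fun α : Fin n →₀ ℕ => MvPolynomial.aeval w (MvPolynomial.monomial α (1 : k))) ∘ ex := by
      funext β
      exact (hval β).symm
    rw [e]
    exact hind0.comp ex hex
  have h2 := hind.fintype_card_le_finrank
  simpa using h2

/-- The lower growth (R44e). -/
theorem growth_low (h : Ctx0 k v n) (E : IntermediateField k Ω) (halg : ∀ g : Ω, IsAlgebraic E g)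
    (V : Submodule k Ω) (hV : (1 : Ω) ∈ V) [FiniteDimensional k V]
    (hVE : IntermediateField.adjoin k (V : Set Ω) = E) :
    ∃ c : ℝ, 0 < c ∧ ∀ t : ℕ, c * (t : ℝ) ^ n ≤ finrank k ↥(V ^ t) := by
  subst hVE
  have h1 : Algebra.IsAlgebraic (Algebra.adjoin k (V : Set Ω)) Ω := by
    constructor
    intro x
    rw [← IntermediateField.isAlgebraic_adjoin_iff]
    exact halg x
  obtain ⟨S, hSV, hS⟩ := exists_isTranscendenceBasis_subset (R := k) (V : Set Ω)
  have hcard : Cardinal.mk S = n := by rw [hS.cardinalMk_eq_trdeg, h.trdeg]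
  have hfin : S.Finite := Cardinal.lt_aleph0_iff_set_finite.1 (by
    rw [hcard]; exact Cardinal.natCast_lt_aleph0)
  have : Finite S := hfin
  have hn : Nat.card S = n := by rw [Nat.card, hcard, Cardinal.toNat_natCast]
  let e : Fin n ≃ S := (Finite.equivFinOfCardEq hn).symm
  have hw : AlgebraicIndependent k fun i : Fin n => ((e i : S) : Ω) := hS.1.comp e e.injective
  have hwV : ∀ i, ((e i : S) : Ω) ∈ V := fun i => hSV (e i).2
  refine ⟨1 / (n : ℝ) ^ n, ?_, fun t => ?_⟩
  · rcases Nat.eq_zero_or_pos n with h0 | h0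
    · subst h0; simp
    · have : (0 : ℝ) < n := by exact_mod_cast h0
      positivity
  · have h2 := card_le_finrank_pow hV hw hwV (t / n) t (Nat.mul_div_le t n)
    have h3 : ((t / n : ℕ) + 1 : ℝ) ^ n ≤ finrank k ↥(V ^ t) := by exact_mod_cast h2
    refine le_trans ?_ h3
    have h4 : (1 / (n : ℝ) ^ n) * (t : ℝ) ^ n = ((t : ℝ) / n) ^ n := by
      rw [div_pow]; ring
    rw [h4]
    refine pow_le_pow_left₀ (by positivity) ?_ n
    exact (Nat.lt_floor_add_one ((t : ℝ) / n)).le.trans (by rw [Nat.floor_div_eq_div])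

end Pool.Agent.ALLO
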