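import Pool.Agent.Lib.TAO.KeyLem
import Pool.Agent.Lib.AD78.Lattice

/-!
# The `T`-degeneration (section 4.3 of the text on local uniformization for every defect)

`U` is a finite-dimensional vector space, `U[T^(±1)] = (ℤ^r →₀ U)`, ordered by an injective
homomorphism `ℤ^r → 𝕂`.
-/

set_option autoImplicit false

namespace Pool.Agent.AD78O

open Module Submodule Pool.Agent.AD78
open Pool.Agent.TAO (chr chr_injective)

/-! ## Lowest coefficients in the group ring -/

section Low

variable {k : Type*} [Field k] {Λ : Type*} [AddCommGroup Λ] {𝕂 : Type*} [Field 𝕂] [LinearOrder 𝕂]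
  [IsStrictOrderedRing 𝕂] (lam : Λ →+ 𝕂)

theorem low_mul (hlam : Function.Injective lam) {g h : AddMonoidAlgebra k Λ} {a b : Λ}
    (hg : ∀ μ, lam μ < lam a → g.coeff μ = 0) (hh : ∀ μ, lam μ < lam b → h.coeff μ = 0) :
    (∀ μ, lam μ < lam (a + b) → (g * h).coeff μ = 0) ∧
      (g * h).coeff (a + b) = g.coeff a * h.coeff b := by
  classical
  constructor
  · intro μ hμ
    rw [AddMonoidAlgebra.coeff_mul]
    refine Finset.sum_eq_zero fun m₁ hm₁ => Finset.sum_eq_zero fun m₂ hm₂ => ?_
    simp only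
    split_ifs with h
    · exfalso
      have h1 : ¬ lam m₁ < lam a := fun h1 => Finsupp.mem_support_iff.1 hm₁ (hg _ h1)
      have h2 : ¬ lam m₂ < lam b := fun h2 => Finsupp.mem_support_iff.1 hm₂ (hh _ h2)
      rw [← h, map_add, map_add] at hμ
      linarith
    · rfl
  · refine AddMonoidAlgebra.coeff_mul_add_of_uniqueAdd ?_
    intro m₁ m₂ hm₁ hm₂ h
    have h1 : ¬ lam m₁ < lam a := fun h1 => Finsupp.mem_support_iff.1 hm₁ (hg _ h1)
    have h2 : ¬ lam m₂ < lam b := fun h2 => Finsupp.mem_support_iff.1 hm₂ (hh _ h2)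
    have h3 := congrArg lam h
    rw [map_add, map_add] at h3
    exact ⟨hlam (by linarith), hlam (by linarith)⟩

theorem low_prod (hlam : Function.Injective lam) {κ : Type*} (S : Finset κ)
    (g : κ → AddMonoidAlgebra k Λ) (a : κ → Λ)
    (hg : ∀ j ∈ S, ∀ μ, lam μ < lam (a j) → (g j).coeff μ = 0) :
    (∀ μ, lam μ < lam (∑ j ∈ S, a j) → (∏ j ∈ S, g j).coeff μ = 0) ∧
      (∏ j ∈ S, g j).coeff (∑ j ∈ S, a j) = ∏ j ∈ S, (g j).coeff (a j) := by
  classical
  induction S using Finset.induction_on with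
  | empty =>
    refine ⟨fun μ hμ => ?_, ?_⟩
    · rw [Finset.sum_empty, map_zero] at hμ
      rw [Finset.prod_empty, AddMonoidAlgebra.one_def, AddMonoidAlgebra.coeff_single,
        Finsupp.single_apply, if_neg]
      rintro rfl
      rw [map_zero] at hμ
      exact lt_irrefl _ hμ
    · rw [Finset.sum_empty, Finset.prod_empty, Finset.prod_empty, AddMonoidAlgebra.one_def,
        AddMonoidAlgebra.coeff_single, Finsupp.single_eq_same]
  | insert x S hx ih =>
    have h1 := ih fun j hj => hg j (Finset.mem_insert_of_mem hj)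
    have h2 := low_mul lam hlam (hg x (Finset.mem_insert_self x S)) h1.1
    rw [Finset.sum_insert hx, Finset.prod_insert hx, Finset.prod_insert hx]
    exact ⟨h2.1, by rw [h2.2, h1.2]⟩

/-- A matrix over the group ring whose columns have independent (standard) lowest coefficients has a
non-zero determinant. -/
theorem det_ne_zero (hlam : Function.Injective lam) {κ : Type*} [Fintype κ] [DecidableEq κ]
    (M : Matrix κ κ (AddMonoidAlgebra k Λ)) (a : κ → Λ)
    (h0 : ∀ i j μ, lam μ < lam (a j) → (M i j).coeff μ = 0)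
    (h1 : ∀ i j, (M i j).coeff (a j) = if i = j then 1 else 0) : M.det ≠ 0 := by
  intro h
  have h2 : M.det.coeff (∑ j, a j) = 1 := by
    rw [Matrix.det_apply, AddMonoidAlgebra.coeff_sum, Finsupp.finsetSum_apply,
      Finset.sum_eq_single (1 : Equiv.Perm κ)]
    · rw [Equiv.Perm.sign_one, one_smul]
      have h3 := (low_prod lam hlam Finset.univ (fun j => M ((1 : Equiv.Perm κ) j) j) a
        fun j _ => h0 _ j).2
      rw [h3]
      simp [h1]
    · intro σ _ hσ
      obtain ⟨j, hj⟩ : ∃ j, σ j ≠ j := by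
        by_contra hcon
        push Not at hcon
        exact hσ (Equiv.ext hcon)
      have h3 := (low_prod lam hlam Finset.univ (fun j => M (σ j) j) a
        fun j _ => h0 _ j).2
      have h4 : ∏ j, (M (σ j) j).coeff (a j) = 0 :=
        Finset.prod_eq_zero (Finset.mem_univ j) (by rw [h1, if_neg hj])
      have h5 : (∏ j, M (σ j) j).coeff (∑ j, a j) = 0 := h3.trans h4
      rcases Int.units_eq_one_or (Equiv.Perm.sign σ) with hs | hs
      · rw [hs, one_smul]; exact h5
      · rw [hs, Units.neg_smul, one_smul, AddMonoidAlgebra.coeff_neg, Finsupp.neg_apply, h5,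
          neg_zero]
    · intro h; exact absurd (Finset.mem_univ _) h
  rw [h, AddMonoidAlgebra.coeff_zero, Finsupp.zero_apply] at h2
  exact one_ne_zero h2.symm

end Low

/-! ## Evaluation at points of the torus -/

section Eval

variable {k : Type*} [Field k] {r : ℕ}

/-- `ν ↦ τ^ν`. -/
noncomputable def chrM (τ : Fin r → kˣ) : Multiplicative (Fin r → ℤ) →* k where
  toFun ν := chr (k := k) ν.toAdd τ
  map_one' := by
    change chr (k := k) (0 : Fin r → ℤ) τ = 1
    simp [Pool.Agent.TAO.chr_apply]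
  map_mul' ν μ := by
    change chr (k := k) (ν.toAdd + μ.toAdd) τ = chr (k := k) ν.toAdd τ * chr (k := k) μ.toAdd τ
    rw [Pool.Agent.TAO.chr_apply, Pool.Agent.TAO.chr_apply, Pool.Agent.TAO.chr_apply, ← Units.val_mul,
      ← Finset.prod_mul_distrib]
    congr 1
    exact Finset.prod_congr rfl fun i _ => zpow_add _ _ _

/-- Evaluation of Laurent polynomials at `τ`. -/
noncomputable def evA (τ : Fin r → kˣ) : AddMonoidAlgebra k (Fin r → ℤ) →ₐ[k] k :=
  AddMonoidAlgebra.lift k k (Fin r → ℤ) (chrM τ)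

theorem evA_apply (τ : Fin r → kˣ) (g : AddMonoidAlgebra k (Fin r → ℤ)) :
    evA τ g = g.coeff.sum fun ν c => c * chr (k := k) ν τ := by
  rw [evA, AddMonoidAlgebra.lift_apply]
  rfl

theorem exists_evA_ne [Infinite k] {g : AddMonoidAlgebra k (Fin r → ℤ)} (hg : g ≠ 0) :
    ∃ τ : Fin r → kˣ, evA τ g ≠ 0 := by
  by_contra hcon
  push Not at hcon
  have hli : LinearIndependent k (fun ν : Fin r → ℤ => (chr ν : (Fin r → kˣ) → k)) := by
    have h1 := linearIndependent_monoidHom (Fin r → kˣ) k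
    exact h1.comp (fun ν => chr ν) chr_injective
  apply hg
  rw [← AddMonoidAlgebra.coeff_eq_zero]
  have h2 : Finsupp.linearCombination k (fun ν : Fin r → ℤ => (chr ν : (Fin r → kˣ) → k))
      g.coeff = 0 := by
    funext τ
    have h3 := hcon τ
    rw [evA_apply] at h3
    rw [Finsupp.linearCombination_apply, Finsupp.sum, Finset.sum_apply]
    exact h3
  exact linearIndependent_iff.1 hli _ h2

variable {U : Type*} [AddCommGroup U] [Module k U]

/-- Evaluation at `τ`. -/
noncomputable def evT (τ : Fin r → kˣ) : ((Fin r → ℤ) →₀ U) →ₗ[k] U :=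
  Finsupp.lsum k fun ν => (chr (k := k) ν τ) • LinearMap.id

theorem evT_apply (τ : Fin r → kˣ) (F : (Fin r → ℤ) →₀ U) :
    evT (k := k) τ F = F.sum fun ν u => chr (k := k) ν τ • u := rfl

/-- The coordinate of `F` along a functional. -/
noncomputable def coordA (φ : U →ₗ[k] k) (F : (Fin r → ℤ) →₀ U) :
    AddMonoidAlgebra k (Fin r → ℤ) :=
  AddMonoidAlgebra.ofCoeff (Finsupp.mapRange φ (map_zero φ) F)

theorem coordA_coeff (φ : U →ₗ[k] k) (F : (Fin r → ℤ) →₀ U) (ν : Fin r → ℤ) :
    (coordA φ F).coeff ν = φ (F ν) := rfl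

theorem evA_coordA (τ : Fin r → kˣ) (φ : U →ₗ[k] k) (F : (Fin r → ℤ) →₀ U) :
    evA τ (coordA φ F) = φ (evT (k := k) τ F) := by
  rw [evA_apply, evT_apply, Finsupp.sum, Finsupp.sum, map_sum]
  have h1 : (coordA φ F).coeff.support ⊆ F.support := by
    intro ν hν
    rw [Finsupp.mem_support_iff, coordA_coeff] at hν
    rw [Finsupp.mem_support_iff]
    intro h
    exact hν (by rw [h, map_zero])
  rw [Finset.sum_subset h1]
  · refine Finset.sum_congr rfl fun ν _ => ?_
    rw [coordA_coeff, map_smul, smul_eq_mul, mul_comm]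
  · intro ν _ hν
    rw [Finsupp.notMem_support_iff.1 hν, zero_mul]

/-- The span of the lowest coefficients of the elements of `AA`. -/
def lowSpan {𝕂 : Type*} [Field 𝕂] [LinearOrder 𝕂]
    (lam : (Fin r → ℤ) →+ 𝕂) (AA : Submodule k ((Fin r → ℤ) →₀ U)) : Submodule k U :=
  span k {u | ∃ F ∈ AA, ∃ ν, (∀ μ, lam μ < lam ν → F μ = 0) ∧ F ν = u}

/-- The lowest coefficients span a space of at most the generic dimension of the evaluations. -/
theorem finrank_lowSpan_le [Infinite k] [FiniteDimensional k U] {𝕂 : Type*} [Field 𝕂]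
    [LinearOrder 𝕂] [IsStrictOrderedRing 𝕂] (lam : (Fin r → ℤ) →+ 𝕂)
    (hlam : Function.Injective lam) (AA : Submodule k ((Fin r → ℤ) →₀ U))
    (Δ : AddMonoidAlgebra k (Fin r → ℤ)) (hΔ : Δ ≠ 0) (e : ℕ)
    (hev : ∀ τ : Fin r → kˣ, evA τ Δ ≠ 0 → finrank k (AA.map (evT (k := k) τ)) ≤ e) :
    finrank k (lowSpan lam AA) ≤ e := by
  classical
  obtain ⟨b, hb, hspan, hli⟩ := exists_linearIndependent k
    {u : U | ∃ F ∈ AA, ∃ ν, (∀ μ, lam μ < lam ν → F μ = 0) ∧ F ν = u}
  have hfin : Finite b := hli.finite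
  have := Fintype.ofFinite b
  choose F hF ν hν hFν using fun u : b => hb u.2
  -- a left inverse
  set L : (b → k) →ₗ[k] U := Fintype.linearCombination k (fun u : b => (u : U)) with hL
  have hLinj : Function.Injective L := by
    rw [← LinearMap.ker_eq_bot, LinearMap.ker_eq_bot']
    intro c hc
    funext i
    exact Fintype.linearIndependent_iff.1 hli c (by
      rw [hL, Fintype.linearCombination_apply] at hc; exact hc) i
  obtain ⟨φ, hφ⟩ := LinearMap.exists_leftInverse_of_injective L (LinearMap.ker_eq_bot.2 hLinj)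
  have hφ1 : ∀ j : b, φ (j : U) = Pi.single j 1 := by
    intro j
    have h1 : L (Pi.single j 1) = (j : U) := by
      rw [hL, Fintype.linearCombination_apply_single, one_smul]
    rw [← h1]
    exact LinearMap.congr_fun hφ _
  set M : Matrix b b (AddMonoidAlgebra k (Fin r → ℤ)) :=
    fun i j => coordA ((LinearMap.proj i).comp φ) (F j) with hM
  have hdet : M.det ≠ 0 := by
    refine det_ne_zero lam hlam M ν ?_ ?_
    · intro i j μ hμ
      rw [hM, coordA_coeff, hν j μ hμ, map_zero]
    · intro i j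
      rw [hM, coordA_coeff, hFν, LinearMap.comp_apply, hφ1, LinearMap.proj_apply, Pi.single_apply]
  obtain ⟨τ, hτ⟩ := exists_evA_ne (mul_ne_zero hdet hΔ)
  rw [map_mul] at hτ
  have h1 := hev τ (right_ne_zero_of_mul hτ)
  have h2 : ((evA τ).mapMatrix M).det ≠ 0 := by
    rw [← AlgHom.map_det]
    exact left_ne_zero_of_mul hτ
  have h3 : LinearIndependent k (fun j : b =>
      (⟨evT (k := k) τ (F j), mem_map_of_mem (hF j)⟩ : AA.map (evT (k := k) τ))) := by
    refine LinearIndependent.of_comp (AA.map (evT (k := k) τ)).subtype ?_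
    rw [Fintype.linearIndependent_iff]
    intro c hc
    have h4 : ((evA τ).mapMatrix M).mulVec c = 0 := by
      funext i
      have h5 := congrArg (fun u => φ u i) hc
      simp only [Function.comp, Submodule.subtype_apply, map_sum, map_smul, map_zero,
        Finset.sum_apply, Pi.smul_apply, smul_eq_mul, Pi.zero_apply] at h5
      rw [Matrix.mulVec, dotProduct, Pi.zero_apply, ← h5]
      refine Finset.sum_congr rfl fun j _ => ?_
      rw [AlgHom.mapMatrix_apply, Matrix.map_apply, hM, evA_coordA, LinearMap.comp_apply,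
        LinearMap.proj_apply, mul_comm]
    have h6 := Matrix.eq_zero_of_mulVec_eq_zero h2 h4
    intro i
    rw [h6, Pi.zero_apply]
  have h4 := h3.fintype_card_le_finrank
  have h5 : finrank k (lowSpan lam AA) = Fintype.card b := by
    rw [lowSpan, ← hspan]
    have := finrank_span_eq_card hli
    rw [Subtype.range_coe_subtype, Set.ofPred_mem_eq] at this
    exact this
  rw [h5]
  exact h4.trans h1

end Eval

/-! ## Initial forms -/

section Init

variable {k : Type*} [Field k] {Λ : Type*} [AddCommGroup Λ] {𝕂 : Type*} [Field 𝕂] [LinearOrder 𝕂]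
  [IsStrictOrderedRing 𝕂] (lam : Λ →+ 𝕂)
  {U : Type*} [AddCommGroup U] [Module k U]

/-- The elements with all coefficients in `V₀`. -/
def coefIn (Λ : Type*) (V₀ : Submodule k U) : Submodule k (Λ →₀ U) where
  carrier := {F | ∀ ν, F ν ∈ V₀}
  add_mem' := fun hF hG ν => V₀.add_mem (hF ν) (hG ν)
  zero_mem' := fun _ => V₀.zero_mem
  smul_mem' := fun c _ hF ν => V₀.smul_mem c (hF ν)

omit [AddCommGroup Λ] in
theorem mem_coefIn {V₀ : Submodule k U} {F : Λ →₀ U} : F ∈ coefIn Λ V₀ ↔ ∀ ν, F ν ∈ V₀ := Iff.rfl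

omit [IsStrictOrderedRing 𝕂] in
theorem initial_forms (GG AA : Submodule k (Λ →₀ U)) [FiniteDimensional k GG]
    (hG : ∀ F ∈ GG, ∀ ν, Finsupp.single ν (F ν) ∈ GG) (hAG : AA ≤ GG) (V₀ : Submodule k U)
    (hV : ∀ F ∈ AA, ∀ ν, (∀ μ, lam μ < lam ν → F μ = 0) → F ν ∈ V₀) :
    finrank k AA ≤ finrank k (GG ⊓ coefIn Λ V₀ : Submodule k (Λ →₀ U)) := by
  classical
  obtain ⟨S, hS⟩ : ∃ S : Finset Λ, ∀ F ∈ GG, ∀ ν, ν ∉ S → F ν = 0 := by
    obtain ⟨s, hs⟩ := (IsNoetherian.noetherian (⊤ : Submodule k GG)).map GG.subtype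
    rw [Submodule.map_top, Submodule.range_subtype] at hs
    refine ⟨s.biUnion Finsupp.support, fun F hF ν hν => ?_⟩
    rw [← hs] at hF
    induction hF using Submodule.span_induction with
    | mem F hF =>
      by_contra h
      exact hν (Finset.mem_biUnion.2 ⟨F, hF, Finsupp.mem_support_iff.2 h⟩)
    | zero => rfl
    | add F G _ _ h1 h2 => rw [Finsupp.add_apply, h1, h2, add_zero]
    | smul c F _ h1 => rw [Finsupp.smul_apply, h1, smul_zero]
  induction hn : S.card generalizing S GG AA with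
  | zero =>
    rw [Finset.card_eq_zero] at hn
    subst hn
    have : AA = ⊥ := by
      rw [eq_bot_iff]
      intro F hF
      rw [mem_bot]
      ext ν
      exact hS F (hAG hF) ν (Finset.notMem_empty _)
    rw [this, finrank_bot]
    exact Nat.zero_le _
  | succ n ih =>
    have hne : S.Nonempty := by
      rw [← Finset.card_pos]; omega
    obtain ⟨ν₀, hν₀, hmin⟩ := S.exists_min_image lam hne
    set f : (Λ →₀ U) →ₗ[k] U := Finsupp.lapply ν₀ with hf
    have hAfin : FiniteDimensional k AA := Submodule.finiteDimensional_of_le hAG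
    have h1 := finrank_map_add AA f
    have hGC : FiniteDimensional k (GG ⊓ coefIn Λ V₀ : Submodule k (Λ →₀ U)) :=
      Submodule.finiteDimensional_of_le inf_le_left
    have h2 := finrank_map_add (GG ⊓ coefIn Λ V₀) f
    have hGG' : FiniteDimensional k (GG ⊓ LinearMap.ker f : Submodule k (Λ →₀ U)) :=
      Submodule.finiteDimensional_of_le inf_le_left
    have h3 := ih (GG ⊓ LinearMap.ker f) (AA ⊓ LinearMap.ker f) (by
      rintro F ⟨hF, hF0⟩ ν
      refine ⟨hG F hF ν, ?_⟩
      rw [SetLike.mem_coe, LinearMap.mem_ker] at hF0 ⊢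
      rw [hf, Finsupp.lapply_apply] at hF0 ⊢
      by_cases h : ν = ν₀
      · subst h; rw [Finsupp.single_eq_same]; exact hF0
      · rw [Finsupp.single_apply, if_neg h]) (inf_le_inf_right _ hAG)
      (fun F hF ν hν => hV F hF.1 ν hν) (S.erase ν₀) (by
        rintro F ⟨hF, hF0⟩ ν hν
        by_cases h : ν = ν₀
        · subst h; exact hF0
        · exact hS F hF ν fun h' => hν (Finset.mem_erase.2 ⟨h, h'⟩)) (by
        rw [Finset.card_erase_of_mem hν₀, hn]; rfl)
    have h4 : GG ⊓ LinearMap.ker f ⊓ coefIn Λ V₀ = GG ⊓ coefIn Λ V₀ ⊓ LinearMap.ker f := by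
      rw [inf_assoc, inf_comm (LinearMap.ker f), ← inf_assoc]
    rw [h4] at h3
    have h5 : AA.map f ≤ (GG ⊓ coefIn Λ V₀).map f := by
      rintro _ ⟨F, hF, rfl⟩
      have h6 : F ν₀ ∈ V₀ := by
        refine hV F hF ν₀ fun μ hμ => hS F (hAG hF) μ fun hμS => ?_
        exact absurd hμ (not_lt.2 (hmin μ hμS))
      refine ⟨Finsupp.single ν₀ (F ν₀), ⟨hG F (hAG hF) ν₀, fun ν => ?_⟩, ?_⟩
      · rw [Finsupp.single_apply]
        split_ifs
        · exact h6
        · exact V₀.zero_mem
      · rw [hf, Finsupp.lapply_apply, Finsupp.lapply_apply, Finsupp.single_eq_same]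
    have h6 : finrank k (AA.map f) ≤ finrank k ((GG ⊓ coefIn Λ V₀).map f) :=
      Submodule.finrank_mono h5
    omega

end Init

/-! ## The count -/

section Count

variable {k : Type*} [Field k] {r : ℕ} {U : Type*} [AddCommGroup U] [Module k U]
  {𝕂 : Type*} [Field 𝕂] [LinearOrder 𝕂]
  [IsStrictOrderedRing 𝕂]

/-- The jets with constants `c p`. -/
noncomputable def jets {P : Type*} (c : P → (Fin r → ℤ) → k) (U : Type*) [AddCommGroup U]
    [Module k U] : ((Fin r → ℤ) →₀ U) →ₗ[k] (P → U) :=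
  LinearMap.pi fun p => Finsupp.lsum k fun ν => c p ν • LinearMap.id

theorem jets_apply {P : Type*} (c : P → (Fin r → ℤ) → k) (F : (Fin r → ℤ) →₀ U) (p : P) :
    jets c U F p = F.sum fun ν u => c p ν • u := rfl

/-- THE T-DEGENERATION: `dim GG / AA ≥ |P| h`. -/
theorem tdeg [Infinite k] [FiniteDimensional k U] (lam : (Fin r → ℤ) →+ 𝕂)
    (hlam : Function.Injective lam) (GG AA : Submodule k ((Fin r → ℤ) →₀ U))
    [FiniteDimensional k GG] (hG : ∀ F ∈ GG, ∀ ν, Finsupp.single ν (F ν) ∈ GG) (hAG : AA ≤ GG)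
    {P : Type*} [Fintype P] (c : P → (Fin r → ℤ) → k) (honto : GG.map (jets c U) = ⊤)
    (Δ : AddMonoidAlgebra k (Fin r → ℤ)) (hΔ : Δ ≠ 0) (h : ℕ)
    (hev : ∀ τ : Fin r → kˣ, evA τ Δ ≠ 0 →
      finrank k (AA.map (evT (k := k) τ)) + h ≤ finrank k U) :
    finrank k AA + Fintype.card P * h ≤ finrank k GG := by
  classical
  set V₀ := lowSpan lam AA with hV₀
  have h0 : finrank k V₀ + h ≤ finrank k U := by
    obtain ⟨τ, hτ⟩ := exists_evA_ne hΔ
    have h1 := hev τ hτ
    have h2 := finrank_lowSpan_le lam hlam AA Δ hΔ (finrank k U - h) (fun τ hτ => by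
      have := hev τ hτ; omega)
    rw [← hV₀] at h2
    omega
  have h1 := initial_forms lam GG AA hG hAG V₀ fun F hF ν hν =>
    subset_span ⟨F, hF, ν, hν, rfl⟩
  set J : ((Fin r → ℤ) →₀ U) →ₗ[k] (P → U ⧸ V₀) :=
    (LinearMap.pi fun p => V₀.mkQ.comp (LinearMap.proj p)).comp (jets c U) with hJ
  have h2 := finrank_map_add GG J
  have h3 : GG.map J = ⊤ := by
    rw [hJ, Submodule.map_comp, honto, Submodule.map_top, LinearMap.range_eq_top]
    intro w
    choose w' hw' using fun p => Submodule.Quotient.mk_surjective V₀ (w p)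
    exact ⟨w', funext fun p => hw' p⟩
  have h4 : GG ⊓ coefIn (Fin r → ℤ) V₀ ≤ GG ⊓ LinearMap.ker J := by
    rintro F ⟨hF, hF'⟩
    refine ⟨hF, ?_⟩
    rw [SetLike.mem_coe, LinearMap.mem_ker]
    funext p
    rw [hJ, LinearMap.comp_apply, LinearMap.pi_apply, LinearMap.comp_apply, LinearMap.proj_apply,
      Pi.zero_apply, Submodule.mkQ_apply, Submodule.Quotient.mk_eq_zero, jets_apply]
    exact V₀.sum_mem fun ν _ => V₀.smul_mem _ (hF' ν)
  have hfin : FiniteDimensional k (GG ⊓ LinearMap.ker J : Submodule k ((Fin r → ℤ) →₀ U)) :=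
    Submodule.finiteDimensional_of_le inf_le_left
  have h5 : finrank k (GG ⊓ coefIn (Fin r → ℤ) V₀ : Submodule k ((Fin r → ℤ) →₀ U)) ≤
      finrank k (GG ⊓ LinearMap.ker J : Submodule k ((Fin r → ℤ) →₀ U)) :=
    Submodule.finrank_mono h4
  have h6 : finrank k (⊤ : Submodule k (P → U ⧸ V₀)) = Fintype.card P * finrank k (U ⧸ V₀) := by
    rw [finrank_top, finrank_pi_fintype]
    simp
  have h7 := Submodule.finrank_quotient_add_finrank V₀
  have h8 : Fintype.card P * h ≤ Fintype.card P * finrank k (U ⧸ V₀) :=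
    Nat.mul_le_mul_left _ (by omega)
  rw [h3, h6] at h2
  omega

end Count

end Pool.Agent.AD78O
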