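import Pool.Agent.Lib.TAO.Key
import Pool.Agent.Lib.ALLO.TDeg

/-!
# ALLDEFECT, block 4: definitions
-/

set_option autoImplicit false

namespace Pool.Agent.ALLO

open Pool.Agent.TAO
open Module

universe u w

variable {k Ω : Type u} [Field k] [Field Ω] [Algebra k Ω]

/-- `k[x, x⁻¹, b, b⁻¹]`. -/
def Axi (k : Type u) {Ω : Type u} [Field k] [Field Ω] [Algebra k Ω] {ι : Type} {r : ℕ}
    (x : Fin r → Ω) (b : ι → Ω) : Subalgebra k Ω :=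
  Algebra.adjoin k ((Set.range fun l : Fin r → ℤ => mx x l) ∪ (Ab k b : Set Ω))

theorem mx_mem_Axi {ι : Type} {r : ℕ} (x : Fin r → Ω) (b : ι → Ω) (l : Fin r → ℤ) :
    mx x l ∈ Axi k x b := Algebra.subset_adjoin (Or.inl ⟨l, rfl⟩)

theorem Ab_le_Axi {ι : Type} {r : ℕ} (x : Fin r → Ω) (b : ι → Ω) : Ab k b ≤ Axi k x b :=
  fun _ hg => Algebra.subset_adjoin (Or.inr hg)

/-- The ideal of the elements of `k[b, b⁻¹]` of the form `q h + (positive)`,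
`h ∈ k[x, x⁻¹, b, b⁻¹]`. -/
def Jq {ι : Type} {𝕂 : Type w} [Field 𝕂] [LinearOrder 𝕂] [IsStrictOrderedRing 𝕂] (v : OVal 𝕂 Ω) {r : ℕ} (x : Fin r → Ω) (b : ι → Ω) (q : Ω) : Ideal (Ab k b) where
  carrier := {g | ∃ h ∈ Axi k x b, ∃ e ∈ Is (k := k) v x b, (g : Ω) = q * h + e}
  add_mem' := by
    rintro g g' ⟨h, hh, e, he, hg⟩ ⟨h', hh', e', he', hg'⟩
    refine ⟨h + h', add_mem hh hh', e + e', add_mem he he', ?_⟩
    change (g : Ω) + (g' : Ω) = _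
    rw [hg, hg']
    ring
  zero_mem' := ⟨0, zero_mem _, 0, zero_mem _, by
    change (0 : Ω) = _
    ring⟩
  smul_mem' := by
    rintro c g ⟨h, hh, e, he, hg⟩
    refine ⟨c * h, mul_mem (Ab_le_Axi x b c.2) hh, c * e, mul_mem_Is v x b c.2 he, ?_⟩
    change (c : Ω) * (g : Ω) = _
    rw [hg]
    ring

theorem mem_Jq {ι : Type} {𝕂 : Type w} [Field 𝕂] [LinearOrder 𝕂] [IsStrictOrderedRing 𝕂] {v : OVal 𝕂 Ω} {r : ℕ} {x : Fin r → Ω} {b : ι → Ω} {q : Ω}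
    {g : Ab k b} : g ∈ Jq v x b q ↔ ∃ h ∈ Axi k x b, ∃ e ∈ Is (k := k) v x b,
      (g : Ω) = q * h + e := Iff.rfl

theorem aId_le_Jq {ι : Type} {𝕂 : Type w} [Field 𝕂] [LinearOrder 𝕂] [IsStrictOrderedRing 𝕂] (v : OVal 𝕂 Ω) {r : ℕ} (x : Fin r → Ω) (b : ι → Ω) (q : Ω) :
    aId (k := k) v x b ≤ Jq v x b q :=
  fun g hg => ⟨0, zero_mem _, g, hg, by ring⟩

/-- The value at `t = x / τ` of the Laurent polynomial `Q = ∑ Q_l t^l`. -/
noncomputable def Qat {r : ℕ} (x : Fin r → Ω) (Q : (Fin r → ℤ) →₀ Ω) (τ : Fin r → kˣ) : Ω :=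
  Q.sum fun l q => algebraMap k Ω (chr l τ)⁻¹ * (q * mx x l)

/-- The number of monomials of degree `< s` in `D` variables (`0` for `s = 0`). -/
def ND (D s : ℕ) : ℕ := if s = 0 then 0 else (s - 1 + D).choose D

end Pool.Agent.ALLO
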