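import Pool.Agent.Lib.ALLO.J4Defs

/-!
# ALLDEFECT, block 4, row R42: the jets of the graded space of the degeneration are onto

For toric data `T` the elements `[b^α] T^(w α)`, `|α| = 2(s+s')-1`, span a space of Laurent
polynomials with coefficients in `B/n^s` whose jets of order `s'` at `|ι|` points of the torus are
arbitrary.
-/

set_option autoImplicit false

namespace Pool.Agent.ALLO

open Pool.Agent.TAO
open Submodule Module

universe u w

section

variable {k Ω : Type u} [Field k] [Field Ω] [Algebra k Ω] {𝕂 : Type w} [Field 𝕂] [LinearOrder 𝕂] [IsStrictOrderedRing 𝕂] {v : OVal 𝕂 Ω} {n r : ℕ}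
  {ι : Type} [Fintype ι]

/-- The jets of order `s` at `|ι|` points of the forms of degree `2s-1`. -/
theorem key_jets [Infinite k] (T : TD k v r ι) (s : ℕ) :
    ∃ c : ι → Fin r → kˣ,
      span k (Set.range fun α : {α : ι → ℕ // ∑ j, α j = 2 * s - 1} => fun l =>
        ∏ j, ((Ps T s (c l) j : (RR T s)ˣ) : RR T s) ^ α.1 j) = ⊤ := by
  classical
  obtain ⟨c, N, hMN, hNM⟩ := exists_points (k := k) T.a T.a_inj
  refine ⟨c, ?_⟩
  let Φ : ι → MvPolynomial ι k →ₐ[k] RR T s := fun l =>
    MvPolynomial.aeval fun j => ((Ps T s (c l) j : (RR T s)ˣ) : RR T s)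
  let z : ι → MvPolynomial ι k := fun i => ∑ j, MvPolynomial.C (N j i) * MvPolynomial.X j
  have hΦX : ∀ l j, Φ l (MvPolynomial.X j) = ((Ps T s (c l) j : (RR T s)ˣ) : RR T s) :=
    fun l j => MvPolynomial.aeval_X _ _
  have hz : ∀ i, (z i).IsHomogeneous 1 := fun i =>
    MvPolynomial.IsHomogeneous.sum _ _ _ fun j _ => MvPolynomial.isHomogeneous_C_mul_X _ _
  have hΦz : ∀ l i, Φ l (z i) - algebraMap k (RR T s) (if l = i then 1 else 0) ∈ rr T s := by
    intro l i
    have h1 : (if l = i then (1 : k) else 0) = ∑ j, chr (T.a j) (c l) * N j i := by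
      have := congrFun (congrFun hMN l) i
      rw [Matrix.mul_apply, Matrix.one_apply] at this
      rw [← this]
      rfl
    have h2 : Φ l (z i) - algebraMap k (RR T s) (if l = i then 1 else 0) =
        ∑ j, algebraMap k (RR T s) (N j i) * (((Ps T s (c l) j : (RR T s)ˣ) : RR T s) -
          algebraMap k (RR T s) (chr (T.a j) (c l))) := by
      rw [h1, map_sum (algebraMap k (RR T s)), map_sum, ← Finset.sum_sub_distrib]
      refine Finset.sum_congr rfl fun j _ => ?_
      rw [map_mul, hΦX, map_mul, ← MvPolynomial.algebraMap_eq, AlgHom.commutes]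
      ring
    rw [h2]
    exact Ideal.sum_mem _ fun j _ => Ideal.mul_mem_left _ _ (Ps_res T s (c l) j)
  have hun : ∀ l, IsUnit (Φ l (z l)) := by
    intro l
    have := hΦz l l
    rw [if_pos rfl] at this
    exact isUnit_of_sub_mem T s 1 one_ne_zero _ this
  choose u hu using hun
  have hX : ∀ j, (MvPolynomial.X j : MvPolynomial ι k) =
      ∑ l, MvPolynomial.C (chr (T.a j) (c l)) * z l := by
    intro j
    have h1 : ∀ i, ∑ l, N i l * chr (T.a j) (c l) = if i = j then (1 : k) else 0 := by
      intro i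
      have := congrFun (congrFun hNM i) j
      rw [Matrix.mul_apply, Matrix.one_apply] at this
      rw [← this]
      rfl
    have h2 : ∑ l, MvPolynomial.C (chr (T.a j) (c l)) * z l =
        ∑ i, MvPolynomial.C (∑ l, N i l * chr (T.a j) (c l)) * (MvPolynomial.X i) := by
      simp only [z, Finset.mul_sum, map_sum, map_mul, Finset.sum_mul]
      rw [Finset.sum_comm]
      refine Finset.sum_congr rfl fun i _ => Finset.sum_congr rfl fun l _ => ?_
      ring
    rw [h2]
    simp only [h1]
    rw [Finset.sum_eq_single j]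
    · rw [if_pos rfl, map_one, one_mul]
    · intro i _ hi
      rw [if_neg hi, map_zero, zero_mul]
    · intro h; exact absurd (Finset.mem_univ _) h
  have hjets := Pool.Agent.TAO.jets (rr T s) s (rr_nil T s) Φ z hz (fun l i hil => by
    have := hΦz l i
    rw [if_neg (Ne.symm hil), map_zero, sub_zero] at this
    exact this) u (fun l => (hu l).symm) (fun l => by
    refine gen_local T s (c l) _ (u l) fun j => ?_
    have h1 : ((Ps T s (c l) j : (RR T s)ˣ) : RR T s) * (((u l)⁻¹ : (RR T s)ˣ) : RR T s) =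
        ∑ i, algebraMap k (RR T s) (chr (T.a j) (c i)) *
          (Φ l (z i) * (((u l)⁻¹ : (RR T s)ˣ) : RR T s)) := by
      rw [← hΦX, hX j, map_sum, Finset.sum_mul]
      refine Finset.sum_congr rfl fun i _ => ?_
      rw [map_mul, ← MvPolynomial.algebraMap_eq, AlgHom.commutes]
      ring
    rw [h1]
    refine Subalgebra.sum_mem _ fun i _ => Subalgebra.mul_mem _ (Subalgebra.algebraMap_mem _ _) ?_
    exact Algebra.subset_adjoin ⟨i, rfl⟩)
  rw [← hjets]
  congr 1
  refine congrArg Set.range ?_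
  funext α l
  exact Finset.prod_congr rfl fun j _ => by rw [hΦX]

/-- Exponents of degree `N`. -/
abbrev Mon (ι : Type) [Fintype ι] (N : ℕ) : Type := {α : ι → ℕ // ∑ j, α j = N}

/-- `U_s = k[b, b⁻¹] / (aId + n^s)`. -/
abbrev UU (T : TD k v r ι) (s : ℕ) : Type _ := Ab k T.b ⧸ (aId v T.x T.b ⊔ nId k T.b ^ s)

/-- The class of `b^α` in `U_s`. -/
noncomputable def ub (T : TD k v r ι) (s : ℕ) (α : ι → ℕ) : UU T s :=
  Ideal.Quotient.mk _ ⟨∏ j, T.b j ^ α j, prod_b_mem T α⟩

/-- `Θ : k^(Mon) → U_s[T^±1]`. -/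
noncomputable def Th (T : TD k v r ι) (s N : ℕ) :
    (Mon ι N →₀ k) →ₗ[k] ((Fin r → ℤ) →₀ UU T s) :=
  Finsupp.lsum k fun α => (LinearMap.toSpanSingleton k _
    (Finsupp.single (∑ j, α.1 j • T.a j) (ub T s α.1)))

theorem Th_single (T : TD k v r ι) (s N : ℕ) (α : Mon ι N) (c : k) :
    Th T s N (Finsupp.single α c) =
      c • Finsupp.single (∑ j, α.1 j • T.a j) (ub T s α.1) := by
  rw [Th, Finsupp.lsum_single, LinearMap.toSpanSingleton_apply]

theorem range_Th (T : TD k v r ι) (s N : ℕ) : LinearMap.range (Th T s N) =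
    span k (Set.range fun α : Mon ι N =>
      (Finsupp.single (∑ j, α.1 j • T.a j) (ub T s α.1) : (Fin r → ℤ) →₀ UU T s)) := by
  apply le_antisymm
  · rintro _ ⟨x, rfl⟩
    induction x using Finsupp.induction_linear with
    | zero => rw [map_zero]; exact zero_mem _
    | add x y hx hy => rw [map_add]; exact add_mem hx hy
    | single α c => rw [Th_single]; exact smul_mem _ _ (subset_span ⟨α, rfl⟩)
  · rw [span_le]
    rintro _ ⟨α, rfl⟩
    exact ⟨Finsupp.single α 1, by rw [Th_single, one_smul]⟩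

/-- The map `B → B/n^s`. -/
noncomputable def gB (T : TD k v r ι) (s : ℕ) : BB T →ₐ[k] UU T s :=
  Ideal.Quotient.factorₐ k (le_sup_left : aId v T.x T.b ≤ aId v T.x T.b ⊔ nId k T.b ^ s)

theorem gB_mk (T : TD k v r ι) (s : ℕ) (g : Ab k T.b) :
    gB T s (Ideal.Quotient.mk (aId v T.x T.b) g) =
      Ideal.Quotient.mk (aId v T.x T.b ⊔ nId k T.b ^ s) g := rfl

theorem gB_zero (T : TD k v r ι) (s : ℕ) (g : BB T) (hg : g ∈ nB T ^ s) : gB T s g = 0 := by
  have h1 : nB T ^ s ≤ RingHom.ker (gB T s : BB T →+* UU T s) := by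
    unfold nB
    rw [← Ideal.map_pow, Ideal.map_le_iff_le_comap]
    intro x hx
    rw [Ideal.mem_comap, RingHom.mem_ker]
    show gB T s (Ideal.Quotient.mk (aId v T.x T.b) x) = 0
    rw [gB_mk, Ideal.Quotient.eq_zero_iff_mem]
    exact Ideal.mem_sup_right hx
  exact h1 hg

theorem gB_surj (T : TD k v r ι) (s : ℕ) : Function.Surjective (gB T s) := by
  intro y
  obtain ⟨g, rfl⟩ := Ideal.Quotient.mk_surjective y
  exact ⟨Ideal.Quotient.mk _ g, gB_mk T s g⟩

/-- The coefficients of index `|β| < s'` of the elements of `B[ξ]/(n,ξ)^(s+s')`, mod `n^s`. -/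
noncomputable def cofU (T : TD k v r ι) (s s' : ℕ) :
    RR T (s + s') →ₗ[k] (idx r s' → UU T s) :=
  Submodule.liftQ ((JI r (nB T) ^ (s + s')).restrictScalars k)
    { toFun := fun f β => gB T s (f.coeff (Finsupp.equivFunOnFinite.symm β.1))
      map_add' := fun f g => by
        funext β
        rw [MvPolynomial.coeff_add, map_add]
        rfl
      map_smul' := fun c f => by
        funext β
        rw [MvPolynomial.coeff_smul, map_smul]
        rfl } (by
      intro f hf
      rw [LinearMap.mem_ker]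
      funext β
      show gB T s (f.coeff (Finsupp.equivFunOnFinite.symm β.1)) = 0
      refine gB_zero T s _ ?_
      have h1 := JI_pow_le (nB T) (s + s') hf (Finsupp.equivFunOnFinite.symm β.1)
      rw [Finsupp.sum_fintype _ _ (fun _ => rfl)] at h1
      have h2 := mem_idx.1 β.2
      refine Ideal.pow_le_pow_right ?_ h1
      show s ≤ s + s' - ∑ i, β.1 i
      omega)

theorem cofU_mk (T : TD k v r ι) (s s' : ℕ) (f : MvPolynomial (Fin r) (BB T)) (β : idx r s') :
    cofU T s s' (Ideal.Quotient.mk (JI r (nB T) ^ (s + s')) f) β =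
      gB T s (f.coeff (Finsupp.equivFunOnFinite.symm β.1)) := rfl

theorem cofU_surj (T : TD k v r ι) (s s' : ℕ) : Function.Surjective (cofU T s s') := by
  classical
  intro g
  choose g' hg' using fun a => gB_surj T s (g a)
  refine ⟨Ideal.Quotient.mk _ (∑ a : idx r s',
    MvPolynomial.monomial (Finsupp.equivFunOnFinite.symm a.1) (g' a)), ?_⟩
  funext a
  rw [cofU_mk, MvPolynomial.coeff_sum, Finset.sum_eq_single a]
  · rw [MvPolynomial.coeff_monomial, if_pos rfl, hg']
  · intro b _ hb
    rw [MvPolynomial.coeff_monomial, if_neg]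
    intro h
    exact hb (Subtype.ext (Finsupp.equivFunOnFinite.symm.injective h))
  · intro h; exact absurd (Finset.mem_univ _) h

/-- The polynomials over `k` in the truncated ring. -/
noncomputable def polR (T : TD k v r ι) (s : ℕ) : MvPolynomial (Fin r) k →ₐ[k] RR T s :=
  (Ideal.Quotient.mkₐ k (JI r (nB T) ^ s)).comp
    (MvPolynomial.mapAlgHom (Algebra.ofId k (BB T)))

theorem polR_apply (T : TD k v r ι) (s : ℕ) (p : MvPolynomial (Fin r) k) :
    polR T s p = Ideal.Quotient.mk (JI r (nB T) ^ s)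
      (MvPolynomial.map (algebraMap k (BB T)) p) := rfl

/-- The Laurent monomials in the `c_i + ξ_i` are polynomials in the `ξ_i`. -/
theorem exists_pol (T : TD k v r ι) (s : ℕ) (c : Fin r → kˣ) (ν : Fin r → ℤ) :
    ∃ p : MvPolynomial (Fin r) k,
      polR T s p = ((∏ i, (uu T s c i) ^ ν i : (RR T s)ˣ) : RR T s) := by
  have h1 : ∀ i, ((uu T s c i : (RR T s)ˣ) : RR T s) ∈ (polR T s).range := by
    intro i
    refine ⟨MvPolynomial.C (c i : k) + MvPolynomial.X i, ?_⟩
    show polR T s _ = _
    rw [uu_val, map_add, ← MvPolynomial.algebraMap_eq, AlgHom.commutes, polR_apply,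
      MvPolynomial.map_X]
  exact prod_mem_of_local T s (polR T s).range _ _
    fun i _ => zpow_mem_of_local T s (polR T s).range _ (h1 i) _

/-- R42: the jets are onto. -/
theorem jets_onto [Infinite k] (T : TD k v r ι) (s s' : ℕ) :
    ∃ c : ι × idx r s' → (Fin r → ℤ) → k,
      (LinearMap.range (Th T s (2 * (s + s') - 1))).map (AD78O.jets c (UU T s)) = ⊤ := by
  classical
  obtain ⟨c, hc⟩ := key_jets T (s + s')
  choose p hp using fun l => exists_pol T (s + s') (c l)
  refine ⟨fun lβ ν => (p lβ.1 ν).coeff (Finsupp.equivFunOnFinite.symm lβ.2.1), ?_⟩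
  set Ψ : (ι → RR T (s + s')) →ₗ[k] (ι × idx r s' → UU T s) :=
    LinearMap.pi fun lβ => (LinearMap.proj lβ.2).comp
      ((cofU T s s').comp (LinearMap.proj lβ.1)) with hΨ
  have hΨs : Function.Surjective Ψ := by
    intro w
    choose f hf using fun l => cofU_surj T s s' (fun β => w (l, β))
    refine ⟨f, ?_⟩
    funext lβ
    exact congrFun (hf lβ.1) lβ.2
  have h1 : (⊤ : Submodule k (ι × idx r s' → UU T s)) = (⊤ : Submodule k _).map Ψ := by
    rw [Submodule.map_top, LinearMap.range_eq_top.2 hΨs]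
  rw [h1, ← hc, range_Th, Submodule.map_span, Submodule.map_span, ← Set.range_comp,
    ← Set.range_comp]
  congr 1
  refine congrArg Set.range ?_
  funext α
  funext lβ
  obtain ⟨l, β⟩ := lβ
  rw [Function.comp_apply, Function.comp_apply, AD78O.jets_apply, Finsupp.sum_single_index]
  swap
  · exact smul_zero _
  show _ = cofU T s s' (∏ j, ((Ps T (s + s') (c l) j : (RR T (s + s'))ˣ) :
    RR T (s + s')) ^ α.1 j) β
  rw [Ps_prod_nat]
  have h2 := hp l (∑ j, α.1 j • T.a j)
  rw [← h2, ph_apply, polR_apply, ← map_mul, cofU_mk, MvPolynomial.coeff_C_mul,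
    MvPolynomial.coeff_map, map_mul, AlgHom.commutes, gB_mk, Algebra.smul_def, mul_comm]
  rfl

/-- The number of indices. -/
theorem card_idx (r s' : ℕ) (hs : s' ≠ 0) : (idx r s').card = (s' - 1 + r).choose r := by
  obtain ⟨m, rfl⟩ : ∃ m, s' = m + 1 := ⟨s' - 1, by omega⟩
  have h1 := sum_idx r (m + 1) (fun _ => 1)
  rw [Finset.sum_const, smul_eq_mul, mul_one] at h1
  rw [h1]
  simp only [mul_one]
  have h2 : ∀ m : ℕ, ∑ j ∈ Finset.range (m + 1),
      (Finset.piAntidiag (Finset.univ : Finset (Fin r)) j).card = (m + r).choose r := by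
    have hc : ∀ j, (Finset.piAntidiag (Finset.univ : Finset (Fin r)) j).card =
        (r + j - 1).choose j := by
      intro j
      rw [← Finset.map_sym_eq_piAntidiag, Finset.card_map, Finset.sym_univ, Finset.card_univ,
        Sym.card_sym_eq_multichoose, Fintype.card_fin, Nat.multichoose_eq]
    intro m
    induction m with
    | zero =>
      rw [Finset.sum_range_one, hc, Nat.choose_zero_right, zero_add, Nat.choose_self]
    | succ m ih =>
      rw [Finset.sum_range_succ, ih, hc]
      have h3 : (m + 1 + r).choose r = (m + 1 + r).choose (m + 1) := by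
        rw [Nat.choose_symm_add]
      have h4 : (m + r).choose r = (m + r).choose m := by
        rw [Nat.choose_symm_add]
      rw [h3, h4, show m + 1 + r = (m + r) + 1 by ring, Nat.choose_succ_succ,
        show r + (m + 1) - 1 = m + r by omega]
  rw [h2]
  rfl

/-- R42b. -/
theorem card_jets (ι : Type) [Fintype ι] (r s' : ℕ) (hs' : s' ≠ 0) :
    Fintype.card (ι × idx r s') = Fintype.card ι * (s' - 1 + r).choose r := by
  rw [Fintype.card_prod, Fintype.card_coe, card_idx r s' hs']

end

end Pool.Agent.ALLO
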