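import Pool.Agent.Lib.ALLO.J4Defs
import Pool.Agent.Lib.ALL_h96.Forms
import Pool.Agent.Lib.TAO.BetaMono

/-!
# ALLDEFECT, block 4, R45: a polynomial of small degree in the divisor ideal
-/

set_option autoImplicit false

namespace Pool.Agent.ALLO

open Pool.Agent.TAO
open Pool.Agent.ALLForms (stepV mem_stepV finrank_le_sum hilb hilb_eq)
open Submodule Module MvPolynomial

universe u w

section Poly

variable {k : Type*} [Field k]

theorem ND_eq_hilb (D s : ℕ) : ND D s = hilb k (Fin D) s := by
  rw [hilb_eq]; rfl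

/-- The dimension of the space of polynomials of degree `< s` is at least `N_D(s)`. -/
theorem ND_le_finrank (D s : ℕ) (hs : 0 < s) :
    ND D s ≤ finrank k (restrictTotalDegree (Fin D) k (s - 1)) := by
  rw [ND_eq_hilb (k := k), finrank_le_sum (fun j => homogeneousComponent (R := k) (σ := Fin D) j)
    (restrictTotalDegree (Fin D) k (s - 1)) s]
  · unfold hilb
    refine Finset.sum_le_sum fun j hj => ?_
    rw [Finset.mem_range] at hj
    have : FiniteDimensional k (stepV (fun j => homogeneousComponent (R := k) (σ := Fin D) j)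
        (restrictTotalDegree (Fin D) k (s - 1)) j) :=
      Submodule.finiteDimensional_of_le (inf_le_left : _ ≤ restrictTotalDegree (Fin D) k (s - 1))
    refine Submodule.finrank_mono ?_
    intro g hg
    have hg' : g.IsHomogeneous j := (mem_homogeneousSubmodule j g).1 hg
    refine ⟨g, ?_, ?_⟩
    · rw [SetLike.mem_coe, mem_stepV]
      refine ⟨?_, fun m hm => ?_⟩
      · rw [mem_restrictTotalDegree]
        exact hg'.totalDegree_le.trans (by omega)
      · rw [homogeneousComponent_of_mem hg, if_neg (by omega)]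
    · rw [homogeneousComponent_of_mem hg, if_pos rfl]
  · intro g hg h
    rw [mem_restrictTotalDegree] at hg
    rw [← sum_homogeneousComponent g]
    refine Finset.sum_eq_zero fun j hj => h j ?_
    rw [Finset.mem_range] at hj
    omega

/-- If the quotient has dimension `< N_D(s)`, some non-zero polynomial of degree `< s` in the
`y_j` lies in the ideal. -/
theorem exists_poly {A : Type*} [CommRing A] [Algebra k A] {D : ℕ} (y : Fin D → A) (I : Ideal A)
    (s : ℕ) [FiniteDimensional k (A ⧸ I)] (hlt : finrank k (A ⧸ I) < ND D s) :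
    ∃ g : MvPolynomial (Fin D) k, g ≠ 0 ∧ g.totalDegree < s ∧ aeval y g ∈ I := by
  have hs : 0 < s := by
    rcases Nat.eq_zero_or_pos s with h | h
    · rw [h] at hlt; simp [ND] at hlt
    · exact h
  let L : restrictTotalDegree (Fin D) k (s - 1) →ₗ[k] A ⧸ I :=
    ((Ideal.Quotient.mkₐ k I).toLinearMap.comp (aeval y).toLinearMap).comp (Submodule.subtype _)
  have h1 : ¬ Function.Injective L := by
    intro hinj
    have h2 := LinearMap.finrank_le_finrank_of_injective hinj
    have h3 := ND_le_finrank (k := k) D s hs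
    omega
  have h2 : LinearMap.ker L ≠ ⊥ := fun h => h1 (LinearMap.ker_eq_bot.1 h)
  obtain ⟨g, hg, hg0⟩ := Submodule.exists_mem_ne_zero_of_ne_bot h2
  refine ⟨g.1, fun h => hg0 (Subtype.ext h), ?_, ?_⟩
  · have := (mem_restrictTotalDegree (Fin D) (R := k) (m := s - 1) g.1).1 g.2
    omega
  · rw [LinearMap.mem_ker] at hg
    exact Ideal.Quotient.eq_zero_iff_mem.1 hg

end Poly

variable {k Ω : Type u} [Field k] [Field Ω] [Algebra k Ω] {𝕂 : Type w} [Field 𝕂] [LinearOrder 𝕂] [IsStrictOrderedRing 𝕂] {v : OVal 𝕂 Ω} {n r : ℕ}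
  {ι : Type} [Fintype ι]

/-- `Ab / (I + n^s)` is finite-dimensional. -/
theorem finite_quot (T : TD k v r ι) (I : Ideal (Ab k T.b)) (hI : aId v T.x T.b ≤ I) (s : ℕ) :
    FiniteDimensional k (Ab k T.b ⧸ (I ⊔ nId k T.b ^ s)) := by
  have hfin : Module.Finite k (Ab k T.b ⧸ (aId v T.x T.b ⊔ nId k T.b ^ s)) := finite_beta T s
  have hle : aId v T.x T.b ⊔ nId k T.b ^ s ≤ I ⊔ nId k T.b ^ s := sup_le_sup_right hI _
  exact Module.Finite.of_surjective (Ideal.Quotient.factorₐ k hle).toLinearMap
    (Ideal.Quotient.factor_surjective hle)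

/-- R45. -/
theorem exists_poly_Jq (T : TD k v r ι) {D : ℕ} (y : Fin D → Ab k T.b) (q : Ω) (s : ℕ)
    (hlt : finrank k (Ab k T.b ⧸ (Jq v T.x T.b q ⊔ nId k T.b ^ s)) < ND D s) :
    ∃ g : MvPolynomial (Fin D) k, g ≠ 0 ∧ g.totalDegree < s ∧
      aeval y g ∈ Jq v T.x T.b q ⊔ nId k T.b ^ s := by
  have := finite_quot T (Jq v T.x T.b q) (aId_le_Jq v T.x T.b q) s
  exact exists_poly y _ s hlt

end Pool.Agent.ALLO
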