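import Pool.Agent.Lib.ALLO_h5.Gen
import Pool.Agent.Lib.ALLO.XDefs
import Pool.Agent.Lib.ALLO_h83.ICl
import Pool.Agent.Lib.ALLO_h83.SepV

/-!
# PROJECT ALL, block X, row R0
-/

set_option autoImplicit false

namespace Pool.Agent.ALLO

open Pool.Agent.TAO (OVal)
open Pool.Agent.TAO (VPos)
open Pool.Agent.ALLO (locv)
open Pool.Agent.LU1 (fixO FracIs)
open Pool.Agent.TAO (Ctx0)
open Pool.Agent.TAO
open Pool.Agent.ALLh85 (extD)
open Submodule Module

universe u w

variable {k Ω : Type u} [Field k] [Field Ω] [Algebra k Ω] {𝕂 : Type w} [Field 𝕂] [LinearOrder 𝕂] [IsStrictOrderedRing 𝕂] {v : OVal 𝕂 Ω} {n r D : ℕ} {p : ℕ}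
  {ι : Type} [Fintype ι] {E : IntermediateField k Ω}

/-- Separability passes to the image in the big field. -/
theorem isSeparable_of_sub {S : Set E} (h : Algebra.IsSeparable (IntermediateField.adjoin k S) E)
    {g : Ω} (hg : g ∈ E) :
    IsSeparable (IntermediateField.adjoin k ((fun e : E => (e : Ω)) '' S)) g := by
  obtain ⟨F, hF⟩ : ∃ F, F = IntermediateField.adjoin k S := ⟨_, rfl⟩
  obtain ⟨F', hF'⟩ : ∃ F', F' = IntermediateField.adjoin k ((fun e : E => (e : Ω)) '' S) :=
    ⟨_, rfl⟩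
  rw [← hF] at h
  rw [← hF']
  have hle : ∀ f ∈ F, (f : Ω) ∈ F' := by
    intro f hf
    have h1 : F.map E.val = F' := by
      rw [hF, hF', IntermediateField.adjoin_map]
      rfl
    rw [← h1]
    exact ⟨f, hf, rfl⟩
  obtain ⟨φ, hφ⟩ : ∃ φ : F →+* F', ∀ f : F, ((φ f : F') : Ω) = ((f : E) : Ω) :=
    ⟨{ toFun := fun f => ⟨((f : E) : Ω), hle f f.2⟩
       map_one' := rfl
       map_mul' := fun _ _ => rfl
       map_zero' := rfl
       map_add' := fun _ _ => rfl }, fun _ => rfl⟩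
  have h2 : IsSeparable F (⟨g, hg⟩ : E) := h.isSeparable' _
  have h3 : ((minpoly F (⟨g, hg⟩ : E)).map φ).Separable := by
    have h4 : (minpoly F (⟨g, hg⟩ : E)).Separable := h2
    exact h4.map
  refine Polynomial.Separable.of_dvd h3 (minpoly.dvd _ _ ?_)
  rw [Polynomial.aeval_def, Polynomial.eval₂_map]
  have h5 : (algebraMap F' Ω).comp φ = (algebraMap E Ω).comp (algebraMap F E) := by
    ext f
    exact hφ f
  have h6 : Polynomial.eval₂ (algebraMap F E) (⟨g, hg⟩ : E) (minpoly F (⟨g, hg⟩ : E)) = 0 := by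
    rw [← Polynomial.aeval_def, minpoly.aeval]
  have h7 := Polynomial.hom_eval₂ (minpoly F (⟨g, hg⟩ : E)) (algebraMap F E) (algebraMap E Ω)
    (⟨g, hg⟩ : E)
  rw [h6, map_zero] at h7
  rw [h5]
  exact h7.symm

/-- R0: affine data. -/
theorem exists_AD (h : CtxR k v n r) [IsAlgClosed k] (hn : n = r + D) (E : IntermediateField k Ω)
    (hfg : ∃ S : Finset Ω, E = IntermediateField.adjoin k (S : Set Ω))
    (halg : ∀ g : Ω, IsAlgebraic E g) (Z : Finset Ω) (hZ : ∀ z ∈ Z, z ∈ E ∧ z ≠ 0) :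
    ∃ A : AD k (Fin r ⊕ Fin D) E, ∀ z ∈ Z, ∃ a ∈ A.V, ∃ b ∈ A.V, b ≠ 0 ∧ z = a / b := by
  classical
  subst hn
  obtain ⟨V, w, d, h₀, c₀, hfin, h1, hVE, hwV, hgen, hwi, hsep, hic, hfrac, hd, hdspan, hh₀0,
    hh₀E, hh₀, hh₀d, hZV⟩ := ALLO83.exists_V E hfg halg (n := r + D) h.trdeg Z
      (fun z hz => (hZ z hz).1)
  have hBE : Algebra.adjoin k (V : Set Ω) ≤ E.toSubalgebra := by
    rw [Algebra.adjoin_le_iff]
    exact fun y hy => hVE y hy
  refine ⟨{ V := V
            fin := hfin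
            one_mem := h1
            le := hVE
            gen := hgen
            normal := fun g hg hi => ALLO83.mem_of_integral hic (fun f hf => hBE hf) hfrac hg hi
            t := fun a => (w (finSumFinEquiv a) : Ω)
            t_mem := fun a => hwV _
            δ := fun a => d (finSumFinEquiv a)
            δ_t := ?_
            sep := ?_
            h₀ := h₀
            h₀_ne := hh₀0
            c₀ := c₀
            h₀_mem := hh₀
            hδ := ?_ }, hZV⟩
  · intro a b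
    rw [ALLh85.extD_apply, hd]
    by_cases hab : a = b
    · subst hab; rw [if_pos rfl, if_pos rfl]; rfl
    · rw [if_neg (fun h' => hab (finSumFinEquiv.injective h').symm), if_neg hab]; rfl
  · intro g hg
    have h2 := isSeparable_of_sub hsep hg
    have h3 : (fun e : E => (e : Ω)) '' Set.range w =
        Set.range fun a : Fin r ⊕ Fin D => (w (finSumFinEquiv a) : Ω) := by
      rw [← Set.range_comp]
      ext y
      constructor
      · rintro ⟨i, rfl⟩
        exact ⟨finSumFinEquiv.symm i, by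
          change (w (finSumFinEquiv (finSumFinEquiv.symm i)) : Ω) = (w i : Ω)
          rw [Equiv.apply_symm_apply]⟩
      · rintro ⟨a, rfl⟩
        exact ⟨finSumFinEquiv a, rfl⟩
    rwa [h3] at h2
  · intro b g hg
    have h2 := hh₀d (finSumFinEquiv b) ⟨g, hVE g hg⟩ hg
    have h3 := ALLh85.extD_apply E (d (finSumFinEquiv b)) ⟨g, hVE g hg⟩
    change h₀ * extD E (d (finSumFinEquiv b)) ((⟨g, hVE g hg⟩ : E) : Ω) ∈ V ^ c₀
    rw [h3]
    exact h2

end Pool.Agent.ALLO
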