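import Pool.Agent.Lib.ALLO.Fr
import Pool.Agent.Lib.TAO.Cone

/-!
# ALLX, row R10: the rational frame given by coordinates `x_1, …, x_r, y_1, …, y_D`
-/

set_option autoImplicit false

namespace Pool.Agent.ALLO

open Pool.Agent.TAO (OVal VPos Ctx0 CtxR mx v_mx mx_ne)
open Pool.Agent.LU1 (FracIs quo le_quo adjoin_field)

universe u w

variable {k Ω : Type u} [Field k] [Field Ω] [Algebra k Ω]
  {𝕂 : Type w} [Field 𝕂] [LinearOrder 𝕂] [IsStrictOrderedRing 𝕂] {v : OVal 𝕂 Ω} {n r D : ℕ}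

/-- The value of a monomial. -/
noncomputable def ph (v : OVal 𝕂 Ω) (x : Fin r → Ω) : (Fin r → ℤ) →+ 𝕂 where
  toFun n := ∑ i, (n i : 𝕂) * v (x i)
  map_zero' := by simp
  map_add' n m := by
    rw [← Finset.sum_add_distrib]
    refine Finset.sum_congr rfl fun i _ => ?_
    rw [Pi.add_apply, Int.cast_add, add_mul]

theorem ph_apply (x : Fin r → Ω) (n : Fin r → ℤ) : ph v x n = ∑ i, (n i : 𝕂) * v (x i) := rfl

/-- The monomial. -/
noncomputable def mo (x : Fin r → Ω) (n : Fin r → ℤ) : Ω := ∏ i, x i ^ n i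

theorem mo_ne {x : Fin r → Ω} (hx : ∀ i, x i ≠ 0) (n : Fin r → ℤ) : mo x n ≠ 0 :=
  Finset.prod_ne_zero_iff.2 fun i _ => zpow_ne_zero _ (hx i)

theorem mo_add {x : Fin r → Ω} (hx : ∀ i, x i ≠ 0) (n m : Fin r → ℤ) :
    mo x (n + m) = mo x n * mo x m := by
  rw [mo, mo, mo, ← Finset.prod_mul_distrib]
  exact Finset.prod_congr rfl fun i _ => zpow_add₀ (hx i) _ _

theorem v_mo {x : Fin r → Ω} (hx : ∀ i, x i ≠ 0) (n : Fin r → ℤ) : v (mo x n) = ph v x n := by
  rw [mo, v.map_prod _ _ fun i _ => zpow_ne_zero _ (hx i), ph_apply]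
  exact Finset.sum_congr rfl fun i _ => v.map_zpow (hx i) _

theorem ph_inj {x : Fin r → Ω} (hind : LinearIndependent ℚ fun i => v (x i)) :
    Function.Injective (ph v x) := by
  rw [injective_iff_map_eq_zero]
  intro n hn
  rw [Fintype.linearIndependent_iff] at hind
  have h1 := hind (fun i => (n i : ℚ)) (by
    rw [ph_apply] at hn
    rw [← hn]
    refine Finset.sum_congr rfl fun i _ => ?_
    rw [Rat.smul_def]
    push_cast
    rfl)
  funext i
  have h2 := h1 i
  simpa using h2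

theorem ph_single (x : Fin r → Ω) (i : Fin r) : ph v x (Pi.single i 1) = v (x i) := by
  rw [ph_apply, Finset.sum_eq_single i]
  · rw [Pi.single_eq_same, Int.cast_one, one_mul]
  · intro j _ hj
    rw [Pi.single_eq_of_ne hj, Int.cast_zero, zero_mul]
  · intro h
    exact absurd (Finset.mem_univ i) h

theorem mo_single (x : Fin r → Ω) (i : Fin r) : mo x (Pi.single i 1) = x i := by
  rw [mo, Finset.prod_eq_single i]
  · rw [Pi.single_eq_same, zpow_one]
  · intro j _ hj
    rw [Pi.single_eq_of_ne hj, zpow_zero]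
  · intro h
    exact absurd (Finset.mem_univ i) h

/-- The function `χ`. -/
noncomputable def ch (v : OVal 𝕂 Ω) (x : Fin r → Ω) (γ : 𝕂) : Ω :=
  mo x (Function.invFun (ph v x) γ)

theorem ch_ph {x : Fin r → Ω} (hind : LinearIndependent ℚ fun i => v (x i)) (n : Fin r → ℤ) :
    ch v x (ph v x n) = mo x n := by
  rw [ch, Function.leftInverse_invFun (ph_inj hind)]

theorem ch_ne {x : Fin r → Ω} (hx : ∀ i, x i ≠ 0) {γ : 𝕂} : ch v x γ ≠ 0 := mo_ne hx _

theorem ch_val {x : Fin r → Ω} (hx : ∀ i, x i ≠ 0) (hind : LinearIndependent ℚ fun i => v (x i)) {γ : 𝕂}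
    (h : γ ∈ (ph v x).range) : v (ch v x γ) = γ := by
  obtain ⟨n, rfl⟩ := h
  rw [ch_ph hind, v_mo hx]

theorem ch_add {x : Fin r → Ω} (hx : ∀ i, x i ≠ 0) (hind : LinearIndependent ℚ fun i => v (x i)) {γ δ : 𝕂}
    (h : γ ∈ (ph v x).range) (h' : δ ∈ (ph v x).range) :
    ch v x (γ + δ) = ch v x γ * ch v x δ := by
  obtain ⟨n, rfl⟩ := h
  obtain ⟨m, rfl⟩ := h'
  rw [← _root_.map_add (ph v x), ch_ph hind, ch_ph hind, ch_ph hind, mo_add hx]

open scoped IntermediateField.algebraAdjoinAdjoin in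
theorem alg_down (S : Set Ω) (g : Ω) (h : IsAlgebraic (IntermediateField.adjoin k S) g) :
    IsAlgebraic (Algebra.adjoin k S) g :=
  (IsFractionRing.isAlgebraic_iff (Algebra.adjoin k S) (IntermediateField.adjoin k S) Ω).2 h


/-- Values are rational combinations of the values of the `x i`. -/
theorem full_ph (h : CtxR k v n r) {x : Fin r → Ω} (hx : ∀ i, x i ≠ 0)
    (hind : LinearIndependent ℚ fun i => v (x i)) (g : Ω) (hg : g ≠ 0) :
    ∃ m : ℕ, 0 < m ∧ (m : 𝕂) * v g ∈ (ph v x).range := by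
  classical
  obtain ⟨X, hX0, hXi, hX⟩ := h.rank
  have hle : Submodule.span ℚ (Set.range fun i => v (x i)) ≤
      Submodule.span ℚ (Set.range fun i => v (X i)) := by
    rw [Submodule.span_le]
    rintro _ ⟨i, rfl⟩
    exact hX (x i) (hx i)
  have hfin : FiniteDimensional ℚ (Submodule.span ℚ (Set.range fun i => v (X i))) :=
    FiniteDimensional.span_of_finite ℚ (Set.finite_range _)
  have heq := Submodule.eq_of_le_of_finrank_eq hle (by
    rw [finrank_span_eq_card hind, finrank_span_eq_card hXi])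
  have hmem : v g ∈ Submodule.span ℚ (Set.range fun i => v (x i)) := by
    rw [heq]
    exact hX g hg
  obtain ⟨c, hc⟩ := (Submodule.mem_span_range_iff_exists_fun ℚ).1 hmem
  refine ⟨∏ i, (c i).den, Finset.prod_pos fun i _ => (c i).pos, ?_⟩
  refine ⟨fun i => (c i).num * ∏ j ∈ Finset.univ.erase i, ((c j).den : ℤ), ?_⟩
  rw [ph_apply, ← hc, Finset.mul_sum]
  refine Finset.sum_congr rfl fun i _ => ?_
  rw [Rat.smul_def, ← Finset.mul_prod_erase _ _ (Finset.mem_univ i), ← mul_assoc]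
  congr 1
  have h1 : ((c i).num : 𝕂) = (c i : 𝕂) * (c i).den := by
    exact_mod_cast (Rat.mul_den_eq_num (c i)).symm
  push_cast
  rw [h1]
  ring

/-- The ring of the rational frame given by `x`, `y`. -/
noncomputable def ratR (k : Type u) {Ω : Type u} [Field k] [Field Ω] [Algebra k Ω] {𝕂 : Type w} [Field 𝕂] [LinearOrder 𝕂] [IsStrictOrderedRing 𝕂]
    (v : OVal 𝕂 Ω)
    (x : Fin r → Ω) (y : Fin D → Ω) : Subalgebra k Ω :=
  locv v (Algebra.adjoin k (ch v x '' {γ | γ ∈ (ph v x).range ∧ 0 ≤ γ} ∪ Set.range y))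

theorem ratPre (h : CtxR k v n r) (hr : 0 < r) {x : Fin r → Ω} {y : Fin D → Ω}
    (hx : ∀ i, x i ≠ 0) (hind : LinearIndependent ℚ fun i => v (x i))
    (hy : ∀ j, y j ≠ 0 ∧ 0 < v (y j)) :
    Pre v (ph v x).range (ch v x) y (ratR k v x y) where
  pos := by
    have h0 : v (x ⟨0, hr⟩) ≠ 0 := hind.ne_zero ⟨0, hr⟩
    rcases lt_or_gt_of_ne h0 with h1 | h1
    · exact ⟨-v (x ⟨0, hr⟩), AddSubgroup.neg_mem _ ⟨_, ph_single x _⟩, by linarith⟩
    · exact ⟨v (x ⟨0, hr⟩), ⟨_, ph_single x _⟩, h1⟩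
  mon := ⟨fun γ _ => ch_ne hx, fun γ hγ δ hδ => ch_add hx hind hγ hδ,
    fun γ hγ => ch_val hx hind hγ⟩
  y_ne := fun j => (hy j).1
  y_pos := fun j => (hy j).2
  nonneg := by
    refine locv_nonneg (ctx_adjoin_nonneg h ?_)
    rintro _ (⟨γ, ⟨hγ, h0⟩, rfl⟩ | ⟨j, rfl⟩)
    · intro _
      rw [ch_val hx hind hγ]
      exact h0
    · exact fun _ => (hy j).2.le
  loc := fun f hf h0 h1 => locv_inv hf h0 h1
  χ_mem := fun γ hγ h0 => le_locv _ (Algebra.subset_adjoin (Or.inl ⟨γ, ⟨hγ, h0⟩, rfl⟩))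
  y_mem := fun j => le_locv _ (Algebra.subset_adjoin (Or.inr ⟨j, rfl⟩))

theorem mx_eq_mo (x : Fin r → Ω) (l : Fin r → ℤ) : mx x l = mo x l := rfl

theorem ph_eq_v {x : Fin r → Ω} (hx : ∀ i, x i ≠ 0) (l : Fin r → ℤ) : ph v x l = v (mx x l) :=
  (v_mx hx l).symm

/-- The field generated by the generators of the ring is `k(x, y)`. -/
theorem adjoin_rat {x : Fin r → Ω} {y : Fin D → Ω} (hx : ∀ i, x i ≠ 0)
    (hind : LinearIndependent ℚ fun i => v (x i)) :
    IntermediateField.adjoin k (ch v x '' {γ | γ ∈ (ph v x).range ∧ 0 ≤ γ} ∪ Set.range y) =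
      IntermediateField.adjoin k (Set.range x ∪ Set.range y) := by
  apply le_antisymm
  · rw [IntermediateField.adjoin_le_iff]
    rintro f (⟨γ, -, rfl⟩ | hf)
    · rw [SetLike.mem_coe]
      change (∏ i, x i ^ (Function.invFun (ph v x) γ) i) ∈
        IntermediateField.adjoin k (Set.range x ∪ Set.range y)
      refine prod_mem fun i _ => zpow_mem ?_ _
      exact IntermediateField.subset_adjoin _ _ (Or.inl ⟨i, rfl⟩)
    · exact IntermediateField.subset_adjoin _ _ (Or.inr hf)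
  · rw [IntermediateField.adjoin_le_iff]
    rintro f (⟨i, rfl⟩ | hf)
    · have h1 : ∀ l : Fin r → ℤ, mx x l ∈ IntermediateField.adjoin k
          (ch v x '' {γ | γ ∈ (ph v x).range ∧ 0 ≤ γ} ∪ Set.range y) := by
        intro l
        have h2 : ∀ l : Fin r → ℤ, 0 ≤ ph v x l → mx x l ∈ IntermediateField.adjoin k
            (ch v x '' {γ | γ ∈ (ph v x).range ∧ 0 ≤ γ} ∪ Set.range y) := by
          intro l hl
          refine IntermediateField.subset_adjoin _ _ (Or.inl ⟨ph v x l, ⟨⟨l, rfl⟩, hl⟩, ?_⟩)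
          rw [ch_ph hind]
          rfl
        rcases le_total 0 (ph v x l) with h3 | h3
        · exact h2 l h3
        · have h4 := h2 (-l) (by rw [map_neg]; linarith)
          have h5 : mx x l = (mx x (-l))⁻¹ := by
            refine eq_inv_of_mul_eq_one_left ?_
            rw [← TAO.mx_add hx, add_neg_cancel, TAO.mx_zero]
          rw [h5]
          exact inv_mem h4
      have h2 := h1 (Pi.single i 1)
      rwa [TAO.mx_single, zpow_one] at h2
    · exact IntermediateField.subset_adjoin _ _ (Or.inr hf)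

/-- The rational frame given by `x`, `y`. -/
noncomputable def ratFR (h : CtxR k v n r) (hr : 0 < r) (x : Fin r → Ω) (y : Fin D → Ω)
    (hx : ∀ i, x i ≠ 0) (hind : LinearIndependent ℚ fun i => v (x i))
    (hy : ∀ j, y j ≠ 0 ∧ 0 < v (y j))
    (halg : ∀ g : Ω, IsAlgebraic (IntermediateField.adjoin k (Set.range x ∪ Set.range y)) g) :
    FR k v D :=
  mkFR (ratPre h hr hx hind hy) (full_ph h hx hind)
    (by
      rw [← AddGroup.fg_iff_addSubgroup_fg]
      infer_instance)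
    (S := ch v x '' {γ | γ ∈ (ph v x).range ∧ 0 ≤ γ} ∪ Set.range y) rfl
    (by
      have H := ratPre (k := k) h hr hx hind hy
      rintro _ (⟨γ, ⟨hγ, h0⟩, rfl⟩ | ⟨j, rfl⟩)
      · rcases h0.lt_or_eq with h1 | h1
        · have h2 := H.mm_χ hγ h1 (one_mem (ratR k v x y))
          rw [mul_one] at h2
          exact H.res_of_mm h2
        · have h2 : ch v x γ = algebraMap k Ω 1 := by
            rw [← h1, map_one]
            exact H.mon.zero
          rw [h2]
          exact H.res_const 1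
      · have h2 := H.mm_y j (one_mem (ratR k v x y))
        rw [mul_one] at h2
        exact H.res_of_mm h2)
    h.triv
    (by
      classical
      refine ⟨Finset.univ.image y, ?_⟩
      rw [ratR, Finset.coe_image, Finset.coe_univ, Set.image_univ, Set.union_comm])
    (by
      intro g
      refine IsAlgebraic.tower_top_of_subalgebra_le (le_locv _) (alg_down _ g ?_)
      rw [adjoin_rat hx hind]
      exact halg g)

variable (h : CtxR k v n r) (hr : 0 < r) {x : Fin r → Ω} {y : Fin D → Ω}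
    (hx : ∀ i, x i ≠ 0) (hind : LinearIndependent ℚ fun i => v (x i))
    (hy : ∀ j, y j ≠ 0 ∧ 0 < v (y j))
    (halg : ∀ g : Ω, IsAlgebraic (IntermediateField.adjoin k (Set.range x ∪ Set.range y)) g)

theorem ratFR_R : (ratFR h hr x y hx hind hy halg).R = ratR k v x y := rfl

theorem ratFR_y : (ratFR h hr x y hx hind hy halg).y = y := rfl

theorem ratFR_Γ {γ : 𝕂} : γ ∈ (ratFR h hr x y hx hind hy halg).Γ ↔ ∃ l, γ = v (mx x l) := by
  constructor
  · rintro ⟨l, hl⟩
    exact ⟨l, by rw [← hl, ph_eq_v hx]⟩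
  · rintro ⟨l, rfl⟩
    exact ⟨l, ph_eq_v hx l⟩

theorem ratFR_mem_Γ (l : Fin r → ℤ) : v (mx x l) ∈ (ratFR h hr x y hx hind hy halg).Γ :=
  (ratFR_Γ h hr hx hind hy halg).2 ⟨l, rfl⟩

theorem ratFR_χ (l : Fin r → ℤ) : (ratFR h hr x y hx hind hy halg).χ (v (mx x l)) = mx x l := by
  change ch v x (v (mx x l)) = mx x l
  rw [← ph_eq_v hx, ch_ph hind]
  rfl

theorem ratFR_rat : (ratFR h hr x y hx hind hy halg).Rat := rfl

theorem ratFR_frac : FracIs (ratFR h hr x y hx hind hy halg).R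
    (IntermediateField.adjoin k (Set.range x ∪ Set.range y)) := by
  rw [ratFR_R, LU1.fracIs_iff]
  constructor
  · refine locv_field (adjoin_field ?_)
    rw [← adjoin_rat (k := k) (y := y) hx hind]
    exact fun f hf => IntermediateField.subset_adjoin _ _ hf
  · rw [← adjoin_rat (k := k) (y := y) hx hind, IntermediateField.adjoin_le_iff]
    exact fun f hf => le_quo (le_locv _ (Algebra.subset_adjoin hf))

/-- `x^l`, `v(x^l) ≥ 0`, lies in the ring. -/
theorem mx_mem_ratR {l : Fin r → ℤ} (hl : 0 ≤ v (mx x l)) :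
    mx x l ∈ (ratFR h hr x y hx hind hy halg).R := by
  rw [← ratFR_χ h hr hx hind hy halg l]
  exact (ratFR h hr x y hx hind hy halg).χ_mem _ (ratFR_mem_Γ h hr hx hind hy halg l) hl

include h hr in
/-- R10: the rational frame given by `x`, `y`. -/
theorem exists_ratFR (x : Fin r → Ω) (y : Fin D → Ω) (hx : ∀ i, x i ≠ 0)
    (hind : LinearIndependent ℚ fun i => v (x i)) (hy : ∀ j, y j ≠ 0 ∧ 0 < v (y j))
    (halg : ∀ g : Ω, IsAlgebraic (IntermediateField.adjoin k (Set.range x ∪ Set.range y)) g) :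
    ∃ F : FR k v D, F.Rat ∧
      FracIs F.R (IntermediateField.adjoin k (Set.range x ∪ Set.range y)) ∧ F.y = y ∧
      (∀ γ, γ ∈ F.Γ ↔ ∃ l, γ = v (mx x l)) ∧ ∀ l, F.χ (v (mx x l)) = mx x l :=
  ⟨ratFR h hr x y hx hind hy halg, ratFR_rat h hr hx hind hy halg,
    ratFR_frac h hr hx hind hy halg, rfl, fun _ => ratFR_Γ h hr hx hind hy halg,
    ratFR_χ h hr hx hind hy halg⟩

end Pool.Agent.ALLO
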