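import Pool.Agent.Lib.ALLO.XDefs
import Pool.Agent.Lib.ALLO.RatFrame

/-!
# ALLX, row R10: the rational frame of `(x, y)`, in the form used by block X
-/

set_option autoImplicit false

namespace Pool.Agent.ALLO

open Pool.Agent.LU1 (FracIs)
open Pool.Agent.TAO

universe u w

variable {k Ω : Type u} [Field k] [Field Ω] [Algebra k Ω]
  {𝕂 : Type w} [Field 𝕂] [LinearOrder 𝕂] [IsStrictOrderedRing 𝕂] {v : OVal 𝕂 Ω} {n r D : ℕ}

/-- R10: the rational frame of `(x, y)` and its field of fractions. -/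
theorem exists_FROf (h : CtxR k v n r) (hr : 0 < r)
    (x : Fin r → Ω) (hx : ∀ i, x i ≠ 0) (hxi : LinearIndependent ℚ fun i => v (x i))
    (y : Fin D → Ω) (hy : ∀ i, y i ≠ 0 ∧ 0 < v (y i))
    (halg : ∀ g : Ω, IsAlgebraic (IntermediateField.adjoin k (Set.range x ∪ Set.range y)) g) :
    ∃ F : FR k v D, FROf F x y ∧ F.Rat ∧
      FracIs F.R (IntermediateField.adjoin k (Set.range x ∪ Set.range y)) := by
  obtain ⟨F, hF1, hF2, hF3, hF4, hF5⟩ := exists_ratFR h hr x y hx hxi hy halg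
  refine ⟨F, ⟨hF4, hF5, hF3, ?_⟩, hF1, hF2⟩
  have h1 : F.χ '' {γ | γ ∈ F.Γ ∧ 0 ≤ γ} = {g | ∃ l : Fin r → ℤ, 0 ≤ v (mx x l) ∧ g = mx x l} := by
    ext g
    constructor
    · rintro ⟨γ, ⟨hγ, h0⟩, rfl⟩
      obtain ⟨l, rfl⟩ := (hF4 γ).1 hγ
      exact ⟨l, h0, hF5 l⟩
    · rintro ⟨l, h0, rfl⟩
      exact ⟨v (mx x l), ⟨(hF4 _).2 ⟨l, rfl⟩, h0⟩, hF5 l⟩
  have h2 : F.R = locv v (Algebra.adjoin k (F.χ '' {γ | γ ∈ F.Γ ∧ 0 ≤ γ} ∪ Set.range F.y)) := hF1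
  rw [h2, h1, hF3, Oinf]

end Pool.Agent.ALLO
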