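import Pool.Agent.Lib.ALLO.XDefs

/-!
# PROJECT ALL, block X, row R3a: good projections exist
-/

set_option autoImplicit false

namespace Pool.Agent.ALLO

open Pool.Agent.TAO (OVal)
open Pool.Agent.TAO (VPos)
open Pool.Agent.TAO (Ctx0)
open Pool.Agent.TAO
open Pool.Agent
open Submodule Module

universe u w

section R3a

variable {k Ω : Type u} [Field k] [Field Ω] [Algebra k Ω] {𝕂 : Type w} [Field 𝕂] [LinearOrder 𝕂] [IsStrictOrderedRing 𝕂] {v : OVal 𝕂 Ω} {n r D : ℕ} {p : ℕ}
  {ι : Type} [Fintype ι]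

omit [Fintype ι] in
/-- `(x) k[x, b, b⁻¹] ⊆ Is` for positive `x`. -/
theorem XA_le_Is (x : Fin r → Ω) (b : ι → Ω) (hx : ∀ i, x i ≠ 0) (hpos : ∀ i, 0 < v (x i)) :
    XA k x b ≤ Is (k := k) v x b := by
  classical
  -- `k[x, b, b⁻¹]` is spanned by the `c x^l`, `l ≥ 0`, `c ∈ Ab`
  have h1 : (Ax k x b).toSubmodule ≤
      span k {g | ∃ c ∈ Ab k b, ∃ l : Fin r → ℤ, (∀ i, 0 ≤ l i) ∧ g = c * mx x l} := by
    intro g hg
    have hg' : g ∈ Algebra.adjoin k (Set.range x ∪ (Set.range b ∪ Set.range fun j => (b j)⁻¹)) := hg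
    clear hg
    induction hg' using Algebra.adjoin_induction with
    | mem g hg =>
      rcases hg with ⟨i, rfl⟩ | hg
      · refine subset_span ⟨1, one_mem _, Pi.single i 1, fun j => ?_, ?_⟩
        · by_cases h : j = i
          · subst h; rw [Pi.single_eq_same]; exact zero_le_one
          · rw [Pi.single_eq_of_ne h]
        · rw [one_mul, mx_single, zpow_one]
      · refine subset_span ⟨g, Algebra.subset_adjoin hg, 0, fun _ => le_rfl, ?_⟩
        rw [mx_zero, mul_one]
    | algebraMap a =>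
      refine subset_span ⟨algebraMap k Ω a, (Ab k b).algebraMap_mem a, 0, fun _ => le_rfl, ?_⟩
      rw [mx_zero, mul_one]
    | add g g' _ _ h h' => exact add_mem h h'
    | mul g g' hg hg' h h' =>
      clear hg hg'
      induction h using Submodule.span_induction with
      | mem g hg =>
        obtain ⟨c, hc, l, hl, rfl⟩ := hg
        induction h' using Submodule.span_induction with
        | mem g' hg' =>
          obtain ⟨c', hc', l', hl', rfl⟩ := hg'
          refine subset_span ⟨c * c', mul_mem hc hc', l + l', fun i => add_nonneg (hl i) (hl' i), ?_⟩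
          rw [mx_add hx]; ring
        | zero => rw [mul_zero]; exact zero_mem _
        | add a b _ _ ha hb => rw [mul_add]; exact add_mem ha hb
        | smul t a _ ha => rw [mul_smul_comm]; exact Submodule.smul_mem _ _ ha
      | zero => rw [zero_mul]; exact zero_mem _
      | add a b _ _ ha hb => rw [add_mul]; exact add_mem ha hb
      | smul t a _ ha => rw [smul_mul_assoc]; exact Submodule.smul_mem _ _ ha
  unfold XA
  refine Submodule.mul_le.2 fun a ha g hg => ?_
  replace hg := h1 hg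
  clear h1
  induction ha using Submodule.span_induction with
  | mem a ha =>
    obtain ⟨i, rfl⟩ := ha
    induction hg using Submodule.span_induction with
    | mem g hg =>
      obtain ⟨c, hc, l, hl, rfl⟩ := hg
      refine subset_span ⟨c, hc, Pi.single i 1 + l, ?_, ?_⟩
      · rw [mx_add hx, v.map_mul (mx_ne hx _) (mx_ne hx _), mx_single, zpow_one, v_mx hx]
        refine add_pos_of_pos_of_nonneg (hpos i) (Finset.sum_nonneg fun j _ => ?_)
        exact mul_nonneg (by exact_mod_cast hl j) (hpos j).le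
      · rw [mx_add hx, mx_single, zpow_one]; ring
    | zero => rw [mul_zero]; exact zero_mem _
    | add a b _ _ ha hb => rw [mul_add]; exact add_mem ha hb
    | smul t a _ ha => rw [mul_smul_comm]; exact Submodule.smul_mem _ _ ha
  | zero => rw [zero_mul]; exact zero_mem _
  | add a b _ _ ha hb => rw [add_mul]; exact add_mem ha hb
  | smul t a _ ha => rw [smul_mul_assoc]; exact Submodule.smul_mem _ _ ha

omit [Fintype ι] in
/-- `k[x, b, b⁻¹] ⊆ k[b, b⁻¹] + (x) k[x, b, b⁻¹]`. -/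
theorem Ax_le_sup (x : Fin r → Ω) (b : ι → Ω) :
    (Ax k x b).toSubmodule ≤ (Ab k b).toSubmodule ⊔ XA k x b := by
  intro g hg
  have hg' : g ∈ Algebra.adjoin k (Set.range x ∪ (Set.range b ∪ Set.range fun j => (b j)⁻¹)) := hg
  have hsub : ∀ g, g ∈ Ab k b → g ∈ Ax k x b := fun g hg => Ab_le_Ax x b hg
  clear hg
  induction hg' using Algebra.adjoin_induction with
  | mem g hg =>
    rcases hg with ⟨i, rfl⟩ | hg
    · refine mem_sup_right ?_
      have h1 : (1 : Ω) ∈ (Ax k x b).toSubmodule := (Ax k x b).one_mem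
      have := mul_mem_mul (subset_span ⟨i, rfl⟩ : x i ∈ span k (Set.range x)) h1
      rw [mul_one] at this
      exact this
    · exact mem_sup_left (Algebra.subset_adjoin hg)
  | algebraMap a => exact mem_sup_left ((Ab k b).algebraMap_mem a)
  | add g g' _ _ h h' => exact add_mem h h'
  | mul g g' hg hg' h2 h2' =>
    obtain ⟨a, ha, z, hz, hgz⟩ := mem_sup.1 h2
    obtain ⟨a', ha', z', hz', hgz'⟩ := mem_sup.1 h2'
    have hxA : ∀ z ∈ XA k x b, ∀ t ∈ Ax k x b, t * z ∈ XA k x b :=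
      fun z hz t ht => Ax_mul_XA ht hz
    rw [← hgz, add_mul]
    refine add_mem ?_ ?_
    · rw [← hgz', mul_add]
      exact add_mem (mem_sup_left ((Ab k b).mul_mem ha ha'))
        (mem_sup_right (hxA _ hz' _ (hsub _ ha)))
    · rw [mul_comm]
      exact mem_sup_right (hxA _ hz _ hg')

omit [Fintype ι] in
/-- The condition (G1) modulo the positive part, from the condition on a finite cone. -/
theorem G1_of_cone (x x' : Fin r → Ω) (b : ι → Ω) (hx' : ∀ i, x' i ≠ 0)
    (hpos : ∀ i, 0 < v (x' i)) (hIs : Is (k := k) v x' b = Is (k := k) v x b) (y : Fin D → Ω)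
    (hy : ∀ j, y j ∈ Wb k b) (s₀ : ℕ)
    (h : Wb k b ^ (s₀ + 1) ≤ span k (Set.range y) * Wb k b ^ s₀ ⊔ XA k x' b ⊔
        Wb k b ^ (s₀ + 2) * (Ax k x' b).toSubmodule) :
    Wb k b ^ (s₀ + 1) ≤ span k (Set.range y) * Wb k b ^ s₀ ⊔
      (Is (k := k) v x b ⊓ (Ab k b).toSubmodule) ⊔
        Wb k b ^ (s₀ + 2) * (Ab k b).toSubmodule := by
  have hXI : XA k x' b ≤ Is (k := k) v x b := by
    rw [← hIs]; exact XA_le_Is x' b hx' hpos
  have hWA : Wb k b ≤ (Ab k b).toSubmodule := fun g hg => Wb_le_Ab b hg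
  have hWpow : ∀ s, Wb k b ^ s ≤ (Ab k b).toSubmodule := by
    intro s
    induction s with
    | zero => rw [pow_zero, Submodule.one_le]; exact (Ab k b).one_mem
    | succ s ih =>
      rw [pow_succ]
      exact Submodule.mul_le.2 fun a ha c hc => (Ab k b).mul_mem (ih ha) (hWA hc)
  have hWIs : ∀ g ∈ (Ab k b), ∀ z ∈ Is (k := k) v x b, g * z ∈ Is (k := k) v x b :=
    fun g hg z hz => mul_mem_Is v x b hg hz
  intro w hw
  obtain ⟨az, haz, u, hu, rfl⟩ := mem_sup.1 (h hw)
  obtain ⟨a, ha, z, hz, rfl⟩ := mem_sup.1 haz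
  -- decompose `u`
  have hu' : u ∈ Is (k := k) v x b ⊔ Wb k b ^ (s₀ + 2) * (Ab k b).toSubmodule := by
    have h1 : Wb k b ^ (s₀ + 2) * (Ax k x' b).toSubmodule ≤
        Is (k := k) v x b ⊔ Wb k b ^ (s₀ + 2) * (Ab k b).toSubmodule := by
      refine Submodule.mul_le.2 fun p hp q hq => ?_
      obtain ⟨q₁, hq₁, q₂, hq₂, rfl⟩ := mem_sup.1 (Ax_le_sup x' b hq)
      rw [mul_add]
      exact add_mem (mem_sup_right (mul_mem_mul hp hq₁))
        (mem_sup_left (hWIs _ (hWpow _ hp) _ (hXI hq₂)))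
    exact h1 hu
  obtain ⟨i, hi, u', hu'', rfl⟩ := mem_sup.1 hu'
  have hyA : span k (Set.range y) ≤ (Ab k b).toSubmodule := by
    rw [span_le]
    rintro _ ⟨j, rfl⟩
    exact hWA (hy j)
  have haA : a ∈ (Ab k b).toSubmodule := by
    have : span k (Set.range y) * Wb k b ^ s₀ ≤ (Ab k b).toSubmodule :=
      Submodule.mul_le.2 fun p hp q hq => (Ab k b).mul_mem (hyA hp) (hWpow _ hq)
    exact this ha
  have huA : u' ∈ (Ab k b).toSubmodule := by
    have : Wb k b ^ (s₀ + 2) * (Ab k b).toSubmodule ≤ (Ab k b).toSubmodule :=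
      Submodule.mul_le.2 fun p hp q hq => (Ab k b).mul_mem (hWpow _ hp) hq
    exact this hu''
  have hwA : a + z + (i + u') ∈ (Ab k b).toSubmodule := hWpow _ hw
  have hzi : z + i ∈ Is (k := k) v x b ⊓ (Ab k b).toSubmodule := by
    refine ⟨add_mem (hXI hz) hi, ?_⟩
    have : z + i = (a + z + (i + u')) - a - u' := by ring
    rw [this]
    exact sub_mem (sub_mem hwA haA) huA
  have : a + z + (i + u') = a + (z + i) + u' := by ring
  rw [this]
  exact add_mem (mem_sup_left (add_mem (mem_sup_left ha) (mem_sup_right hzi))) (mem_sup_right hu'')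

/-- Good projections exist (core). -/
theorem exists_good_core (h : CtxR k v n r) [IsAlgClosed k] (hn : n = r + D)
    (E : IntermediateField k Ω) (halg : ∀ g : Ω, IsAlgebraic E g) (V : Submodule k Ω)
    [FiniteDimensional k V] (h1V : (1 : Ω) ∈ V) {m : ℕ} (T : TD k v r ι) {f₀ : Ω}
    (hf₀0 : f₀ ≠ 0)
    (hspan : span k (Set.range fun j => T.b j * mx T.x (T.a j)) = span k {f₀⁻¹} * V ^ m)
    (hgen : IntermediateField.adjoin k (Set.range T.x ∪ Set.range T.b) = E)
    (hdx : ∃ hx : ∀ i, T.x i ∈ E,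
      LinearIndependent E fun i => KaehlerDifferential.D k E ⟨T.x i, hx i⟩) :
    ∃ (s₀ : ℕ) (y : Fin D → Ω), (∀ j, y j ∈ Wb k T.b) ∧
      Wb k T.b ^ (s₀ + 1) ≤ span k (Set.range y) * Wb k T.b ^ s₀ ⊔
        (Is (k := k) v T.x T.b ⊓ (Ab k T.b).toSubmodule) ⊔
          Wb k T.b ^ (s₀ + 2) * (Ab k T.b).toSubmodule ∧
      ∀ g ∈ E, IsSeparable (IntermediateField.adjoin k (Set.range T.x ∪ Set.range y)) g := by
  classical
  have hinf : Infinite k := IsAlgClosed.instInfinite
  obtain ⟨hxE, hdx⟩ := hdx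
  have hV1 : V = 1 ⊔ V := by
    rw [eq_comm, sup_eq_right, Submodule.one_le]; exact h1V
  obtain ⟨C, hC⟩ := ALB.growth n (le_of_eq h.trdeg) V
  rw [← hV1] at hC
  obtain ⟨T', hb, hpos, hx1, hx2, hIs, hXA⟩ := exists_cone h.toCtx0 T
  have hβ : beta k v T'.x T'.b = beta k v T.x T.b := beta_congr hb hIs
  have hkey : ∀ s, Fintype.card ι * qs r (beta k v T'.x T'.b) s ≤
      finrank k (V ^ (m * (2 * s - 1)) : Submodule k Ω) := by
    intro s
    have h1 := key h.toCtx0 T s
    rw [hspan, ALB.finrank_span_inv_mul_pow hf₀0, ← pow_mul, ← hβ] at h1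
    exact h1
  have hmono : Monotone (beta k v T'.x T'.b) := beta_mono h.toCtx0 T'
  have hIpos : 0 < Fintype.card ι := Fintype.card_pos_iff.2 ⟨T.o⟩
  obtain ⟨C', hC'⟩ := growth_beta (Fintype.card ι) (C * (2 * m + 1) ^ n) (beta k v T'.x T'.b)
    hIpos hmono hn (by
      intro s
      refine (hkey s).trans ((hC _).trans ?_)
      rw [mul_assoc, ← mul_pow]
      refine Nat.mul_le_mul_left _ (Nat.pow_le_pow_left ?_ _)
      have : m * (2 * s - 1) ≤ m * (2 * s) := Nat.mul_le_mul_left _ (by omega)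
      nlinarith)
  have hE' : IntermediateField.adjoin k (Set.range T'.x ∪ Set.range T'.b) = E := by
    rw [← hgen, hb]
    apply le_antisymm
    · rw [IntermediateField.adjoin_le_iff]
      rintro _ (⟨i, rfl⟩ | ⟨j, rfl⟩)
      · obtain ⟨l, hl⟩ := hx1 i
        rw [hl]
        exact mx_mem_field _ _
          (fun i => IntermediateField.subset_adjoin k _ (Or.inl ⟨i, rfl⟩)) _
      · exact IntermediateField.subset_adjoin k _ (Or.inr ⟨j, rfl⟩)
    · rw [IntermediateField.adjoin_le_iff]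
      rintro _ (⟨i, rfl⟩ | ⟨j, rfl⟩)
      · obtain ⟨l, hl⟩ := hx2 i
        rw [hl]
        exact mx_mem_field _ _
          (fun i => IntermediateField.subset_adjoin k _ (Or.inl ⟨i, rfl⟩)) _
      · exact IntermediateField.subset_adjoin k _ (Or.inr ⟨j, rfl⟩)
  have hx'E : ∀ i, T'.x i ∈ E := fun i => by
    rw [← hE']
    exact IntermediateField.subset_adjoin k _ (Or.inl ⟨i, rfl⟩)
  have hdx' := li_D_of_mx E T.x T'.x T.x_ne T'.x_ne hx2 hxE hx'E hdx
  have hXA' : ∀ g ∈ Ab k T'.b, g ∈ Is (k := k) v T'.x T'.b → g ∈ XA k T'.x T'.b := by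
    intro g hg hgI
    rw [hIs] at hgI
    rw [hb] at hg
    exact hXA g hg hgI
  obtain ⟨y, s₀, hy, hrel, hsep⟩ := exists_y h.toCtx0 hn E halg T' hpos hE' hx'E hdx' hXA' C' hC'
  rw [hb] at hy hrel hIs
  refine ⟨s₀, y, hy, G1_of_cone T.x T'.x T.b T'.x_ne hpos hIs y hy s₀ hrel, fun g hg => ?_⟩
  have hadj : IntermediateField.adjoin k (Set.range T'.x ∪ Set.range y) =
      IntermediateField.adjoin k (Set.range T.x ∪ Set.range y) := by
    apply le_antisymm
    · rw [IntermediateField.adjoin_le_iff]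
      rintro _ (⟨i, rfl⟩ | ⟨j, rfl⟩)
      · obtain ⟨l, hl⟩ := hx1 i
        rw [hl]
        exact mx_mem_field _ _
          (fun i => IntermediateField.subset_adjoin k _ (Or.inl ⟨i, rfl⟩)) _
      · exact IntermediateField.subset_adjoin k _ (Or.inr ⟨j, rfl⟩)
    · rw [IntermediateField.adjoin_le_iff]
      rintro _ (⟨i, rfl⟩ | ⟨j, rfl⟩)
      · obtain ⟨l, hl⟩ := hx2 i
        rw [hl]
        exact mx_mem_field _ _
          (fun i => IntermediateField.subset_adjoin k _ (Or.inl ⟨i, rfl⟩)) _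
      · exact IntermediateField.subset_adjoin k _ (Or.inr ⟨j, rfl⟩)
  rw [← hadj]
  exact hsep g hg

/-- R3a: good coefficients exist (`hsep` is the Jacobian criterion R1b). -/
theorem exists_good_of (h : CtxR k v n r) [IsAlgClosed k] (hn : n = r + D)
    {E : IntermediateField k Ω}
    (halg : ∀ g : Ω, IsAlgebraic E g) (A : AD k (Fin r ⊕ Fin D) E) {m : ℕ}
    {T : TD k v r ι} {f₀ : Ω} {α : Fin r → ι → ℤ} {S : Finset ι} (hT : TDm p A m T f₀ α S)
    (hsep : ∀ (x : Fin r → Ω) (y : Fin D → Ω), (∀ i, x i ∈ E ∧ x i ≠ 0) → (∀ j, y j ∈ E) →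
      (∀ g ∈ E, IsSeparable (IntermediateField.adjoin k (Set.range x ∪ Set.range y)) g) →
      (JM E A.δ x y).det ≠ 0) :
    ∃ (s₀ : ℕ) (c : Fin D → ι → k), Good T A s₀ c := by
  have := A.fin
  obtain ⟨s₀, y, hy, hG1, hs⟩ := exists_good_core h hn E halg A.V A.one_mem T hT.f₀_ne hT.span_eq
    hT.gen hT.dx
  obtain ⟨c, hc⟩ := exists_yc T.b y hy
  have hxE : ∀ i, T.x i ∈ E := fun i => by
    rw [← hT.gen]
    exact IntermediateField.subset_adjoin k _ (Or.inl ⟨i, rfl⟩)
  have hbE : ∀ j, T.b j ∈ E := fun j => by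
    rw [← hT.gen]
    exact IntermediateField.subset_adjoin k _ (Or.inr ⟨j, rfl⟩)
  refine ⟨s₀, c, ?_, ?_⟩
  · rw [hc]
    exact hG1
  · rw [hc]
    exact hsep T.x y (fun i => ⟨hxE i, T.x_ne i⟩)
      (fun j => Ab_le_field E hbE (Wb_le_Ab T.b (hy j))) hs

end R3a

end Pool.Agent.ALLO
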