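import Pool.Agent.Lib.ALLO.R3b_h88
import Pool.Agent.Lib.ALLO.R2_h63
import Pool.Agent.Lib.ALLO.R1_h83
import Pool.Agent.Lib.ALLO.J4d
import Pool.Agent.Lib.ALLO.J4e
import Pool.Agent.Lib.ALLO.GrowLow

/-!
# PROJECT ALL, block X, row R5: a polynomial of small degree in the divisor ideal
-/

set_option autoImplicit false

namespace Pool.Agent.ALLO

open Pool.Agent.TAO
open Pool.Agent.AD78O (evA)
open Pool.Agent.ALLh85 (extD extD_apply)
open Submodule Module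

universe u w

variable {k Ω : Type u} [Field k] [Field Ω] [Algebra k Ω] {𝕂 : Type w} [Field 𝕂] [LinearOrder 𝕂] [IsStrictOrderedRing 𝕂] {v : OVal 𝕂 Ω} {n r D p : ℕ}
  {ι : Type} [Fintype ι] {E : IntermediateField k Ω}

section NId

omit [Fintype ι] in
theorem Ab_mul_self (b : ι → Ω) :
    (Ab k b).toSubmodule * (Ab k b).toSubmodule ≤ (Ab k b).toSubmodule :=
  Submodule.mul_le.2 fun _ hx _ hy => (Ab k b).mul_mem hx hy

/-- The ideal of the elements of `W^t Ab`. -/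
noncomputable def WI (b : ι → Ω) (t : ℕ) : Ideal (Ab k b) where
  carrier := {g : Ab k b | (g : Ω) ∈ Wb k b ^ t * (Ab k b).toSubmodule}
  add_mem' := fun {g h} hg hh =>
    (Wb k b ^ t * (Ab k b).toSubmodule).add_mem (show (g : Ω) ∈ _ from hg)
      (show (h : Ω) ∈ _ from hh)
  zero_mem' := (Wb k b ^ t * (Ab k b).toSubmodule).zero_mem
  smul_mem' := fun c g hg => by
    have hg' : (g : Ω) ∈ Wb k b ^ t * (Ab k b).toSubmodule := hg
    have h1 : (c : Ω) * (g : Ω) ∈ (Ab k b).toSubmodule * (Wb k b ^ t * (Ab k b).toSubmodule) :=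
      Submodule.mul_mem_mul c.2 hg'
    rw [mul_left_comm] at h1
    exact mul_le_mul' (le_refl (Wb k b ^ t)) (Ab_mul_self b) h1

omit [Fintype ι] in
theorem mem_WI {b : ι → Ω} {t : ℕ} {g : Ab k b} :
    g ∈ WI b t ↔ (g : Ω) ∈ Wb k b ^ t * (Ab k b).toSubmodule := Iff.rfl

omit [Fintype ι] in
theorem nId_le_WI (b : ι → Ω) : nId k b ≤ WI b 1 := by
  unfold nId
  rw [Ideal.span_le]
  rintro _ ⟨j, rfl⟩
  rw [SetLike.mem_coe, mem_WI]
  have h1 : ((bm (k := k) b j : Ab k b) : Ω) = (b j - 1) * 1 := by rw [mul_one]; rfl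
  rw [h1, pow_one]
  exact Submodule.mul_mem_mul (subset_span ⟨j, rfl⟩) (one_mem (Ab k b))

omit [Fintype ι] in
theorem nId_pow_le_WI (b : ι → Ω) (t : ℕ) : nId k b ^ t ≤ WI b t := by
  induction t with
  | zero =>
    intro g _
    rw [mem_WI, pow_zero, one_mul]
    exact g.2
  | succ t ih =>
    rw [pow_succ', Ideal.mul_le]
    intro x hx y hy
    rw [mem_WI]
    have h1 : (x : Ω) ∈ Wb k b ^ 1 * (Ab k b).toSubmodule := nId_le_WI b hx
    have h2 : (y : Ω) ∈ Wb k b ^ t * (Ab k b).toSubmodule := ih hy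
    have h3 := Submodule.mul_mem_mul h1 h2
    rw [pow_one, mul_mul_mul_comm, ← pow_succ'] at h3
    exact mul_le_mul' (le_refl (Wb k b ^ (t + 1))) (Ab_mul_self b) h3

end NId

theorem x_mem_of_TDm {A : AD k (Fin r ⊕ Fin D) E} {m : ℕ} {T : TD k v r ι} {f₀ : Ω}
    {α : Fin r → ι → ℤ} {S : Finset ι} (hT : TDm p A m T f₀ α S) (i : Fin r) : T.x i ∈ E := by
  rw [← hT.gen]
  exact IntermediateField.subset_adjoin _ _ (Or.inl ⟨i, rfl⟩)

theorem b_mem_of_TDm {A : AD k (Fin r ⊕ Fin D) E} {m : ℕ} {T : TD k v r ι} {f₀ : Ω}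
    {α : Fin r → ι → ℤ} {S : Finset ι} (hT : TDm p A m T f₀ α S) (j : ι) : T.b j ∈ E := by
  rw [← hT.gen]
  exact IntermediateField.subset_adjoin _ _ (Or.inr ⟨j, rfl⟩)

theorem Qat_mem (x : Fin r → Ω) (hx : ∀ i, x i ∈ E) (Q : (Fin r → ℤ) →₀ Ω)
    (hQ : ∀ l, Q l ∈ E) (τ : Fin r → kˣ) : Qat (k := k) x Q τ ∈ E := by
  unfold Qat Finsupp.sum
  refine sum_mem fun l _ => mul_mem (E.algebraMap_mem _) (mul_mem (hQ l) ?_)
  exact mx_mem_field E x hx l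

theorem yc_mem_Ab (b : ι → Ω) (c : Fin D → ι → k) (i : Fin D) : yc b c i ∈ Ab k b :=
  Wb_le_Ab b (yc_mem_Wb b c i)

/-- R5 from the row R3a. -/
theorem exists_g_of (hp : p.Prime) (hp3 : 3 ≤ p) [CharP k p] (h : CtxR k v n r) [IsAlgClosed k]
    (hn : n = r + D) (hr : 0 < r) (hD : 0 < D)
    (hfg : ∃ S : Finset Ω, E = IntermediateField.adjoin k (S : Set Ω))
    (halg : ∀ g : Ω, IsAlgebraic E g) (A : AD k (Fin r ⊕ Fin D) E) (m₀ : ℕ)
    (hgood : ∀ (m : ℕ) (T : TD k v r (Fin (finrank k ↥(A.V ^ m)))) (f₀ : Ω)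
      (α : Fin r → Fin (finrank k ↥(A.V ^ m)) → ℤ) (S : Finset (Fin (finrank k ↥(A.V ^ m)))),
      TDm p A m T f₀ α S →
      ∃ (s₀ : ℕ) (c : Fin D → Fin (finrank k ↥(A.V ^ m)) → k), Good T A s₀ c) :
    ∃ m ≥ m₀, ∃ (T : TD k v r (Fin (finrank k ↥(A.V ^ m)))) (f₀ : Ω)
      (α : Fin r → Fin (finrank k ↥(A.V ^ m)) → ℤ) (S : Finset (Fin (finrank k ↥(A.V ^ m))))
      (s₀ : ℕ) (c : Fin D → Fin (finrank k ↥(A.V ^ m)) → k)
      (q : Ω) (g : MvPolynomial (Fin D) k),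
      TDm p A m T f₀ α S ∧ Good T A s₀ c ∧ q ∈ E ∧
      (JM E A.δ T.x (yc T.b c)).det =
        (∏ s ∈ S, (T.b s * mx T.x (T.a s)))⁻¹ * f₀ * (A.h₀ ^ (r + D))⁻¹ * q ∧
      g ≠ 0 ∧ g.totalDegree < (n + 2 + r) * 4 ^ (n - 1) * n.factorial ∧
      ∃ w ∈ Axi k T.x T.b, ∃ e ∈ Is (k := k) v T.x T.b,
        ∃ u ∈ Wb k T.b ^ ((n + 2 + r) * 4 ^ (n - 1) * n.factorial) * (Ab k T.b).toSubmodule,
        (MvPolynomial.aeval (yc T.b c) g : Ω) = q * w + e + u := by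
  classical
  by_contra hcon
  have hinf : Infinite k := IsAlgClosed.instInfinite
  have hfin : FiniteDimensional k A.V := A.fin
  obtain ⟨m₁, hm₁⟩ := exists_TDm hp hp3 h hfg halg A
  have hup : ∃ C : ℕ, ∀ t, finrank k ↥(A.V ^ t) ≤ C * (t + 1) ^ n := by
    obtain ⟨C, hC⟩ := ALB.growth n (le_of_eq h.trdeg) A.V
    have hsup : 1 ⊔ A.V = A.V := sup_eq_right.2 (one_le.2 A.one_mem)
    rw [hsup] at hC
    exact ⟨C, hC⟩
  refine no_full h.toCtx0 hn hD hr A.V A.one_mem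
    (growth_low h.toCtx0 E halg A.V A.one_mem A.gen) hup
    (max m₀ (max m₁ ((r + D) * A.c₀))) (n + 2 + r) (by omega) fun m hm => ?_
  obtain ⟨T, f₀, α, S, hT⟩ := hm₁ m (le_trans (le_trans (le_max_left _ _) (le_max_right _ _)) hm)
  obtain ⟨s₀, c, hc⟩ := hgood m T f₀ α S hT
  obtain ⟨Qp, hQ1, hQ2, hQ3, hQ4⟩ := exists_Q hp A
    (le_trans (le_trans (le_max_right _ _) (le_max_right _ _)) hm) hT
  obtain ⟨Δ, hΔ, hΔ2⟩ := good_open h.toCtx0 T A (x_mem_of_TDm hT) (b_mem_of_TDm hT) hc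
  refine ⟨T, f₀, Qp c, Δ, hT.f₀_ne, hT.span_eq, ?_, ?_, hΔ, fun τ hτ => ?_⟩
  · intro h0
    apply hc.G2
    rw [hQ4, h0]
    unfold Qat
    rw [Finsupp.sum_zero_index, mul_zero]
  · intro l
    have h1 := hQ1 c l
    rw [show r + D + 2 + r = n + 2 + r by omega] at h1
    exact h1
  · by_contra hlt
    rw [not_le] at hlt
    set y' : Fin D → Ab k T.b := fun i => ⟨yc T.b (ct T.a c τ) i, yc_mem_Ab _ _ i⟩ with hy'
    obtain ⟨g, hg0, hgd, hg⟩ := exists_poly_Jq T y' (Qat T.x (Qp c) τ) _ hlt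
    rw [Submodule.mem_sup] at hg
    obtain ⟨j, hj, e', he', hje⟩ := hg
    obtain ⟨w, hw, e, he, hjw⟩ := mem_Jq.1 hj
    refine hcon ⟨m, le_trans (le_max_left _ _) hm, T, f₀, α, S, s₀, ct T.a c τ,
      Qat T.x (Qp c) τ, g, hT, hΔ2 τ hτ, Qat_mem T.x (x_mem_of_TDm hT) _ (hQ2 c) τ, ?_, hg0, hgd,
      w, hw, e, he, (e' : Ω), mem_WI.1 (nId_pow_le_WI T.b _ he'), ?_⟩
    · rw [hQ4, hQ3 c τ]
    · have h1 : (MvPolynomial.aeval (yc T.b (ct T.a c τ)) g : Ω) =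
          ((MvPolynomial.aeval y' g : Ab k T.b) : Ω) := by
        have h2 := MvPolynomial.aeval_algebraMap_apply Ω y' g
        exact h2
      rw [h1, ← hje]
      show (j : Ω) + (e' : Ω) = _
      rw [hjw]

end Pool.Agent.ALLO
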